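import Pool.Agent.H55.GEN.Glu

/-!
# Gluing with a visible polynomial at the exact time: statements

At the exact time a visible polynomial `Vt` (a function of a record `Sv` of the exact point and of
the exact time) agrees, up to constants, on the natural box at `(i, j)` with a polynomial `H` which is
a function of the line and of the window `j₂`, and, up to constants, on the mixed box with the own
label of the target at `(i', j')`, a larger radius. The record of one line and of one cell of the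
radius has few bits. Then there is a new label of the target at `(i₂, j₂)`.
-/

set_option autoImplicit false

namespace Pool.TIE

open Finset MvPolynomial
open Pool.Agent.H49.Ent Pool.Agent.H32.Dense Pool.STK Pool.STAT Pool.STAT.Glu
open Pool.BFL (Pb)

/-- The mixed system: `S'` for the coordinates which are deeper there, `S` for the others. -/
noncomputable def mxs (g g' : ℕ → ℕ) (S S' : ℕ → PN) (l : ℕ) : PN := if g l < g' l then S' l else S l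

/-- The mixed box at `(i, j)` and `(i', j')` at the exact time. -/
def MB (D : NDat2) (i j i' j' m : ℕ) (ω : D.Ω) (b : ℕ → ℝ) : Prop :=
  Bt 1 (Et (D.X ω 0)) (fun l => max (D.g i j l) (D.g i' j' l))
    (mxs (D.g i j) (D.g i' j') (D.Ψ i j ω) (D.Ψ i' j' ω)) m b

/-- The hypotheses of the gluing at one sample. -/
structure EvV (D : NDat2) (n J w₀ z i j i' j' i₂ j₂ B : ℕ) {Ρ : Type} (Sv : D.Ω → Ρ)
    (Vt : Ρ × ℕ → PN) (H : D.Λ × ℕ → PN) (ε : ℝ) (ω : D.Ω) : Prop where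
  kj : Nr B z (Et (D.X ω 0)) (D.g i₂ j₂) (D.g i j) (D.Ψ i₂ j₂ ω) (D.Ψ i j ω) n
  jm : ∀ l, 1 ≤ l → l < n → ∀ b, MB D i j i' j' l ω b →
    |eval b (D.Ψ i' j' ω l) - eval b (D.Ψ i j ω l)| ≤
      2 ^ (B * z) / 2 ^ min (D.g i j l) (D.g i' j' l)
  vis : ∀ b b' : ℕ → ℝ, Bt 1 (Et (D.X ω 0)) (D.g i j) (D.Φ i j ω) n b →
    Bt 1 (Et (D.X ω 0)) (D.g i j) (D.Φ i j ω) n b' →
    |kk (D.g i j) (D.Φ i j ω) n (Vt (Sv ω, D.T ω)) (H (D.wn J (w₀ + j₂ * z) ω)) b -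
      kk (D.g i j) (D.Φ i j ω) n (Vt (Sv ω, D.T ω)) (H (D.wn J (w₀ + j₂ * z) ω)) b'| ≤ ε
  leaf : ∀ b b' : ℕ → ℝ, MB D i j i' j' n ω b → MB D i j i' j' n ω b' →
    |(eval b (Vt (Sv ω, D.T ω)) - eval b (D.Ψ i' j' ω n)) -
      (eval b' (Vt (Sv ω, D.T ω)) - eval b' (D.Ψ i' j' ω n))| ≤ ε / 2 ^ D.g i j n

/-- **Gluing with a visible polynomial.** -/
def GluVStmt : Prop :=
  ∀ (n K K₂ K₃ B : ℕ) (C₃ c₁ : ℝ), 1 ≤ n → 0 < c₁ → 0 ≤ C₃ →
    ∃ (CG K' : ℕ) (κ₀ η' : ℝ) (z₀ : ℕ), 0 < κ₀ ∧ 0 < η' ∧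
    ∀ (A J a₀ w₀ z M i j i' j' i₂ j₂ R : ℕ) (lam gam : ℕ → ℝ) (κ κ' C₁ : ℝ) (D : NDat2)
      (q : D.Ω → ℝ) (Ρ : Type) (Sv : D.Ω → Ρ) (Vt : Ρ × ℕ → PN) (H : D.Λ × ℕ → PN), z₀ ≤ z →
      κ' ≤ κ₀ → i ≤ i₂ → i' ≤ i₂ → i₂ + CG ≤ M → j ≤ j₂ → j₂ ≤ M → j' ≤ M →
      D.Ok2 n K J a₀ w₀ z M lam gam κ C₁ q → D.TmU J w₀ z κ' q →
      (∀ x, (H x).totalDegree ≤ K₂) → (∀ x, (H x).vars ⊆ range n) →
      (∀ x, (Vt x).totalDegree ≤ K₃) → (∀ x, (Vt x).vars ⊆ range n) →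
      Det q D.pt Sv → CH q Sv (D.wn J (a₀ + i₂ * z)) ≤ C₃ * z →
      (∀ l, 1 ≤ l → l < n → D.g i j l ≤ D.g i₂ j₂ l + B * z) →
      D.g i₂ j₂ n + (A + CG) * z ≤ D.g i' j' n → D.g i₂ j₂ n + (A + CG) * z ≤ D.g i j n + R →
      c₁ ≤ Pb q (EvV D n J w₀ z i j i' j' i₂ j₂ B Sv Vt H (1 / 2 ^ R)) →
      D.NewLab2 J a₀ w₀ z i₂ j₂ n A K' η' q

end Pool.TIE
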