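import Pool.Agent.H19.TIE.Stp
import Pool.Agent.H92.V0F.Vse
import Pool.Agent.H73.D2.Tmy

/-!
# The output of the alternative and the numbers of the windows for a record

`alo_of_alm`: `AlO` from the family of labels of a list of windows. `tieR_rec`: the numbers `TieR` of the
windows for a record.
-/

set_option autoImplicit false

namespace Pool.TIE19

open Finset Real MvPolynomial
open Pool.Agent.H49.Ent Pool.Agent.H32.Dense Pool.STK Pool.KA Pool.KSAT Pool.K2S Pool.PB Pool.S6C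
open Pool.GEN Pool.CHT Pool.CHX Pool.ISO Pool.RCD Pool.LA91 Pool.OWN68 Pool.PKG Pool.ALT
open Pool.V1E (vG vG_ge)
open Pool.V0N (AlM)
open Pool.V0F (rec_low)

/-- **The output of the alternative** from the family of labels of a list of windows. -/
theorem alo_of_alm {r₀ : ℕ} {S : PCl (r₀ + 2)} {c : ℕ → Fin (r₀ + 2)} {L : ℕ → ℝ → ℝ → ℝ}
    {D n N' : ℕ} {V' : ℕ → ℝ} {ks : ℕ → ℕ} {b R h δ δ' lam g ℓ μ ρ q t : ℝ} {Ψ : Fml (r₀ + 2)}
    {w : ℝ} {p₁ p₂ eN uN pN : ℕ → ℝ}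
    (H : AlM S c L D n (fun i => t + V' (ks i) * q) b R h δ δ' lam g ℓ μ ρ q t Ψ w p₁ p₂ eN uN pN)
    {j : ℕ} (hn : 0 < n) (hj : j < n) {lamV rr g₂ X η e₀ π₀ : ℝ} (hq : 0 < q) (hδ : 0 < δ)
    (hlam : lam ≤ lamV) (hrr : lamV ≤ rr)
    (h1 : (lamV + g) * q ≤ b * (t + V' (ks j) * q - (t + V' (ks 0) * q)))
    (h2 : (rr + g) * q ≤ b * (t + R * q - (t + V' (ks 0) * q))) (h3 : (8 * b + 8 * rr) * q ≤ μ)
    (h4 : L (r₀ + 1) (t + V' (ks 0) * q) (t + V' (ks 0) * q) + lamV * q + δ * lam * q / 8 ≤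
      L (r₀ + 1) (t + V' (ks j) * q) (t + V' (ks j) * q)) (hlam0 : 0 < lam)
    (hblb : ∀ k < N', V' (ks 0) + g₂ ≤ V' k → |V' k| ≤ R → V' k + g₂ ≤ R → X * q ≤ μ →
      X * q ≤ L r₀ (t + V' k * q) (t + V' k * q) →
      e₀ + L (r₀ + 1) (t + V' k * q) (t + V' k * q) < 1 →
      L (r₀ + 1) (t + V' k * q) (t + V' k * q) + L r₀ (t + V' k * q) (t + V' k * q) +
        X * q ≤ 1 + π₀ →
      BlB S c r₀ (c (r₀ + 1)) (t + V' (ks 0) * q) (t + V' k * q) D D
        (L (r₀ + 1) (t + V' k * q) (t + V' k * q) - 2 * (η * q))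
        (L r₀ (t + V' k * q) (t + V' k * q) - 2 * (η * q))
        (L r₀ (t + V' k * q) (t + V' k * q) -
          L (r₀ + 1) (t + V' k * q) (t + V' k * q) + X * q)
        (NzF Ψ c r₀ (c (r₀ + 1)) D D D w (t + V' (ks 0) * q) (p₁ 0) (p₂ 0) (eN 0) (uN 0) (pN 0)))
    (hlab : ∀ k < N', ∃ E Eu : ℝ, AlW S c r₀ (c (r₀ + 1)) D (t + V' k * q)
      (L (r₀ + 1) (t + V' k * q) (t + V' k * q)) (L r₀ (t + V' k * q) (t + V' k * q)) E Eu
      (L r₀ (t + V' k * q) (t + V' k * q))) :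
    AlO S c L D N' V' (ks 0) (ks j) R h δ lamV rr ℓ g₂ X η μ e₀ π₀ q t Ψ w (p₁ 0) (p₂ 0) (eN 0)
      (uN 0) (pN 0) (p₁ j) (p₂ j) (eN j) (uN j) (pN j) where
  wv := H.wv 0 hn
  wq := H.wq
  wR := H.wR
  wl := H.wl
  wu := H.wu
  e1 := H.e1 0 hn
  u1 := H.u1 0 hn
  pN1 := by
    have a1 := H.pN1 0 hn
    have a2 : δ * lam * q ≤ δ * lamV * q :=
      mul_le_mul_of_nonneg_right (mul_le_mul_of_nonneg_left hlam hδ.le) hq.le
    linarith
  nzo := H.nzo 0 hn
  alp := fun nn a1 a2 => H.alp 0 hn j hj lamV rr nn hlam hrr h1 h2 h3 a1 a2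
  ea0 := (H.e0 j hj).le
  pa1 := by
    have a1 := H.pN1 j hj
    linarith
  ea1 := by
    have a1 := H.e1 j hj
    have a2 : 0 < δ * lam * q := by positivity
    linarith
  ua1 := by
    have a1 := H.u1 j hj
    linarith
  nza := H.nzo j hj
  nzq := by
    refine Bas.mono 0 H.nzm ?_
    rintro J - F A ⟨V, z, z', G, hG⟩
    exact ⟨V 0, z 0, z' 0, G 0, (hG.nzp hn hj).nzq⟩
  blb := hblb
  lab := hlab

/-- **The numbers of the windows** for a record: `N` static, `u` thin, of the same slope `b`. -/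
theorem tieR_rec {r : ℕ} {S : PCl (r + 2)} {al : ℝ} {g₀ : ℝ → ℝ}
    {P : List (Fin (r + 2)) × Fin (r + 2) → ℝ → ℝ → ℝ}
    {θ : ℝ} {P₂ : ℕ → List (Fin (r + 2)) × Fin (r + 2) → ℝ → ℝ → ℝ} {θ₂ Eb e₂ : ℕ → ℝ}
    {c : ℕ → Fin (r + 2)} {Pt : ℝ → ℝ → ℝ} {rt : ℝ → ℝ} {hr K₀ g : ℝ} {L T : ℕ → ℝ → ℝ → ℝ}
    {Sl : ℕ → ℝ} {κ : ℕ → Kg} {G : Set ℝ} {S₀ N : ℕ} {A V : ℕ → ℝ} {S₂ N' : ℕ} {V' : ℕ → ℝ}
    {K ε q t : ℝ}
    (R : RecG S al g₀ P θ P₂ θ₂ Eb e₂ c Pt rt hr K₀ g L T Sl κ G S₀ N A V S₂ N' V' K ε q t)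
    {b y k₁ hh X lu φt κ₂ cb : ℝ} {vw : ℕ → ℝ} {ib iw ie : ℕ} (hκ : ∀ l < r, κ l = .one)
    (hbu : Sl r = b) (hbN : Sl (r + 1) = b) (hb : 1 < b) (hε : 0 ≤ ε) (hh0 : 0 ≤ hh)
    (hh1 : hh ≤ 1) (hφ0 : 0 ≤ φt) (hcb : k₁ + 2 ≤ cb * lu) (hlu : 3 ≤ lu)
    (hκ₂ : b - 1 ≤ κ₂ * lu) (hφX : 4 * (b * φt) ≤ X) (hεX : 8 * ε ≤ X) (hφ1 : φt ≤ 1 / 2)
    (hX0 : 0 < X) (hK : cb * lu + lu + k₁ + 4 ≤ K) (hk₁ : 0 ≤ k₁)
    (hib : t + vG y k₁ vw ib * q = t - 2 * (φt * q) - cb * (lu * q))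
    (hiw : t + vG y k₁ vw iw * q = t - 2 * (φt * q))
    (hie : t + vG y k₁ vw ie * q = t - 2 * (φt * q) + lu * q) :
    TieR r (fun k => t + vG y k₁ vw k * q)
      (fun k l => lvN P c (r + 1) (L (r + 1)) l (t + vG y k₁ vw k * q) (t + vG y k₁ vw k * q))
      ib iw ie (hh * q) (b * q) (X / 2 * q + 2 * (ε * q)) (X * q) (t - 2 * (φt * q)) (lu * q)
      (φt * q) κ₂ := by
  have hq := R.q0
  have ht0 := R.t0
  have ht1 := R.t1
  have hεq : 0 ≤ ε * q := mul_nonneg hε hq.le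
  have hφq : 0 ≤ φt * q := mul_nonneg hφ0 hq.le
  have hhq : 0 ≤ hh * q := mul_nonneg hh0 hq.le
  have hhq1 : hh * q ≤ q := by
    have := mul_le_mul_of_nonneg_right hh1 hq.le
    linarith
  have hφq1 : φt * q ≤ q / 2 := by
    have := mul_le_mul_of_nonneg_right hφ1 hq.le
    linarith
  have hk1q : 0 ≤ k₁ * q := mul_nonneg hk₁ hq.le
  have hcbq : k₁ * q + 2 * q ≤ cb * (lu * q) := by
    have := mul_le_mul_of_nonneg_right hcb hq.le
    linarith
  have hluq : 3 * q ≤ lu * q := mul_le_mul_of_nonneg_right hlu hq.le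
  have hKq : cb * (lu * q) + lu * q + k₁ * q + 4 * q ≤ K * q := by
    have := mul_le_mul_of_nonneg_right hK hq.le
    linarith
  have hXq : 4 * (b * (φt * q)) ≤ X * q := by
    have := mul_le_mul_of_nonneg_right hφX hq.le
    linarith
  have hεXq : 8 * (ε * q) ≤ X * q := by
    have := mul_le_mul_of_nonneg_right hεX hq.le
    linarith
  have hXq0 : 0 < X * q := mul_pos hX0 hq
  have hκq : b * q - q ≤ κ₂ * (lu * q) := by
    have := mul_le_mul_of_nonneg_right hκ₂ hq.le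
    linarith
  obtain ⟨o, ho⟩ : ∃ o : ℕ → ℝ, o = fun k => t + vG y k₁ vw k * q := ⟨_, rfl⟩
  have hoE : ∀ k, o k = t + vG y k₁ vw k * q := fun k => by rw [ho]
  have o2 : o 2 = t - k₁ * q := by rw [hoE 2]; simp [vG]; ring
  have o0 : o 0 = t := by rw [hoE 0]; simp [vG]
  have o3 : o 3 = t + q := by rw [hoE 3]; simp [vG]
  rw [← hoE] at hib hiw hie
  have hlv : ∀ l ≤ r + 1, ∀ x : ℝ, lvN P c (r + 1) (L (r + 1)) l x x = L l x x :=
    fun l hl x => by rw [← R.lv_at (by omega) hl]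
  have hbx : ∀ k, k = 0 ∨ k = 2 ∨ k = 3 ∨ k = ib ∨ k = iw ∨ k = ie → |o k - t| ≤ K * q := by
    intro k hk
    rw [abs_le]
    rcases hk with rfl | rfl | rfl | rfl | rfl | rfl
    · rw [o0]; constructor <;> linarith
    · rw [o2]; constructor <;> linarith
    · rw [o3]; constructor <;> linarith
    · rw [hib]; constructor <;> linarith
    · rw [hiw]; constructor <;> linarith
    · rw [hie]; constructor <;> linarith
  have hsl : ∀ l < r + 2, ∀ k, k = 0 ∨ k = 2 ∨ k = 3 ∨ k = ib ∨ k = iw ∨ k = ie →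
      |L l (o k) (o k) - L l t t - Sl l * (o k - t)| ≤ ε * q := fun l hl k hk =>
    R.dL l hl (o k) (hbx k hk)
  have hS1 : ∀ l < r, Sl l = 1 := fun l hl => by
    have h1 := R.kd l (by omega)
    rw [hκ l hl] at h1
    exact h1
  have hlow : ∀ l ≤ r + 1, 0 ≤ L l t t := fun l hl => by
    have h1 := rec_low (r := r + 1) R hl (x := t) (by linarith) (by linarith)
    linarith
  have hot : ∀ k, t + vG y k₁ vw k * q = o k := fun k => by rw [ho]
  have hot2 : (fun k => t + vG y k₁ vw k * q) = o := ho.symm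
  rw [hot2]
  simp only [hot]
  have N3 := abs_le.1 (hsl (r + 1) (by omega) 3 (by tauto))
  have Ne := abs_le.1 (hsl (r + 1) (by omega) ie (by tauto))
  have Nw := abs_le.1 (hsl (r + 1) (by omega) iw (by tauto))
  have u3 := abs_le.1 (hsl r (by omega) 3 (by tauto))
  have ue := abs_le.1 (hsl r (by omega) ie (by tauto))
  rw [hbN] at N3 Ne Nw
  rw [hbu] at u3 ue
  have e3 : o 3 - t = q := by rw [o3]; ring
  have ee : o ie - t = lu * q - 2 * (φt * q) := by rw [hie]; ring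
  have ew : o iw - t = -(2 * (φt * q)) := by rw [hiw]; ring
  rw [e3] at N3 u3
  rw [ee] at Ne ue
  rw [ew] at Nw
  have hb1 : (b - 1) * q ≤ (b - 1) * (lu * q - 2 * (φt * q)) :=
    mul_le_mul_of_nonneg_left (by linarith) (by linarith)
  have z0 : ∀ l, L l (o 0) (o 0) = L l t t := fun l => by rw [o0]
  have hbm := mul_lt_mul_of_pos_right hb hq
  exact
    { o0 := by linarith
      ob2 := by linarith
      o20 := by linarith
      ow := by linarith
      ow0 := by linarith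
      o03 := by linarith
      o3e := by linarith
      o01 := by linarith
      QM := by linarith
      l0 := fun j hj => by
        rw [hlv j hj, z0]
        exact hlow j hj
      lvd := fun k hk j hj => by
        rw [hlv j (by omega), hlv j (by omega), z0]
        have h1 := abs_le.1 (hsl j (by omega) k (by tauto))
        rw [hS1 j hj] at h1
        rw [abs_le]
        constructor <;> linarith
      lu := by
        rw [hlv r (by omega), hlv r (by omega)]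
        linarith
      N3 := by
        rw [hlv _ le_rfl, hlv _ le_rfl, z0]
        linarith
      Ne := by
        rw [hlv _ le_rfl, hlv _ le_rfl, z0]
        linarith
      Nw := by
        rw [hlv _ le_rfl, hlv _ le_rfl, z0]
        linarith
      ζχ := by linarith }

end Pool.TIE19
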