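import Pool.Agent.H60.ALT.Alo
import Pool.Agent.H92.ALT.Sl2

/-!
# Blindness with a gain

`blg`: the slope of a natural label of the family in the direction of the last coordinate of the
base is the slope of each closed label of a later window `v'`; the larger the precision `P` of that
label, the finer the bound, as long as `P` is a level at which the rows of the family are known.
-/

set_option autoImplicit false

namespace Pool.TIE19

open Finset Real MvPolynomial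
open Pool.Agent.H49.Ent Pool.Agent.H32.Dense Pool.STK Pool.KA Pool.KSAT Pool.K2S Pool.PB Pool.S6C
  Pool.GEN Pool.RCD Pool.LA91 Pool.OWN68 Pool.ALT
open Pool.UNJ (ceI)
open Pool.BFL (Pb)
open Pool.GRD (LbP)

/-- **Blindness with a gain**: for the closed labels of precision `P` of the window `v'`. -/
theorem blg (r₀ D D' : ℕ) : ∃ C : ℝ, 1 ≤ C ∧ ∀ {m : ℕ} {S : PCl m} {C₀ : ℝ} (_ : TmC S C₀)
    (_ : ∀ (τ : ℝ) (J : ℕ) (F : Fam m J) (A : F.Ω → Prop), S.St τ J F A → 0 < Pe F.p A)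
    {c : ℕ → Fin m} {κ : Fin m} (_ : Set.InjOn c (Set.Iio (r₀ + 1)))
    {Ψ : Fml m} {w v a p q r n h d p₁ p₂ eN uN pN : ℝ}
    (_ : AlpD S Ψ c r₀ κ D w v a p q r n h d p₁ p₂ eN uN pN)
    {K₀ : ℕ} {v' pκ pu E Eu u : ℝ} (_ : AlW S c r₀ κ K₀ v' pκ pu E Eu u) (_ : K₀ ≤ D')
    (_ : v ≤ v') {sa P η : ℝ} (_ : 0 < η) (_ : p ≤ sa) (_ : sa ≤ P) (_ : P ≤ p + r)
    (_ : d + 6 * η ≤ h * (P - sa) * Real.log 2) (_ : pκ ≤ P) (_ : 2 * η ≤ pu)
    (_ : P + E + 4 * η < 1) (_ : pu + Eu + 4 * η + C * (2 * η) < 1)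
    (_ : u + η + C * (2 * η) < 1) (_ : pu + 3 * η ≤ 1) (_ : P + pu - pN + 3 * η ≤ 1),
    BlB S c r₀ κ v v' D' D' P (pu - 2 * η) (C * (2 * η) + (pu - 2 * η - sa))
      (NzF Ψ c r₀ κ D D D w v p₁ p₂ eN uN pN) := by
  obtain ⟨C, hC, hbb⟩ := blind_bt r₀ (max D D * max 1 D) D'
  refine ⟨C, hC, ?_⟩
  intro m S C₀ htm hpos c κ hinj Ψ w v a p q r n h d p₁ p₂ eN uN pN H K₀ v' pκ pu E Eu u hv hK
    hvv sa P η hη h1 h2 h3 hgap hP hpu m1 m2 m3 m4 m5
  have hCη : 0 < C * (2 * η) := by positivity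
  have hl2 : 0 < Real.log 2 := Real.log_pos one_lt_two
  have hl2' : Real.log 2 < 1 := by
    have := Real.log_two_lt_d9
    linarith
  have hE0 := hv.E0
  have hEu0 := hv.Eu0
  have hpE := hv.pE
  have hpEu := hv.pEu
  have hpk := hv.pk0
  have hn := H.n1
  have hpe := H.peN
  have hpN := H.pNp
  have heN := H.eN0
  have hv0 := H.v0
  have U₁ := hv.upg hpos (K := D') hK (u' := u + η) (p := P) (e := E + 4 * η)
    (by linarith) (by linarith) (by linarith) (by linarith) (by linarith) (by linarith)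
  have U₂ := hv.upu hpos (K := D') hK (u' := u + η) (p := pu - 2 * η) (e := Eu + 4 * η)
    (by linarith) (by linarith) (by linarith) (by linarith) (by linarith) (by linarith)
  have hrow : Bas S (fun J F A => ∀ (V : Type) (z : PtT F → V) (z' : LnT F → V)
      (G : V → MvPolynomial (Option (Fin m)) ℝ),
      NzF Ψ c r₀ κ D D D w v p₁ p₂ eN uN pN J F A V z z' G →
      CH (Pool.Agent.H49.Ent.cond F.p A True) (xa F κ z' ⌊v * J⌋₊ G P)
        (ya F ((range r₀).image c) κ z' ⌊v * J⌋₊ G sa) ≤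
        ((P - sa) * Real.log 2 - (h * (P - sa) * Real.log 2 - d - η)) * J) := by
    refine Bas.mono 0 ((H.row0 hpos h1 h2 h3 hη).and (pos_bas hpos)) ?_
    rintro J - F A ⟨h4, hA⟩ V z z' G hG
    have h5 := h4 V z z' G hG
    have hq := (isLaw_cond F.isLaw hA).nonneg
    have e1 : CH (Pool.Agent.H49.Ent.cond F.p A True) (xa F κ z' ⌊v * J⌋₊ G P)
        (ya F ((range r₀).image c) κ z' ⌊v * J⌋₊ G sa) =
        CH (Pool.Agent.H49.Ent.cond F.p A True)
        (fun ω => ⌊(2 : ℝ) ^ (P * J) * ojet F κ 0 (G (z' (slam F ⌊v * J⌋₊ ω))) ω⌋)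
        (fun ω => (⌊(2 : ℝ) ^ (sa * J) * ojet F κ 0 (G (z' (slam F ⌊v * J⌋₊ ω))) ω⌋,
          (ceI ((range r₀).image c) (fun _ => J) (F.x ω),
            (z' (slam F ⌊v * J⌋₊ ω), F.W ω)))) := by
      refine CH_congr hq (fun ω ω' _ _ e => ?_) (fun ω ω' _ _ e => ?_) (fun ω ω' _ _ e => ?_)
        (fun ω ω' _ _ e => ?_)
      · exact (Prod.ext_iff.mp e).1
      · exact (Prod.ext_iff.mp e).1
      · have e2 := Prod.ext_iff.mp e
        have e3 := Prod.ext_iff.mp e2.2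
        have e4 := Prod.ext_iff.mp e3.2
        exact Prod.ext e2.1 (Prod.ext e4.1 (Prod.ext e3.1 e4.2))
      · have e2 := Prod.ext_iff.mp e
        have e3 := Prod.ext_iff.mp e2.2
        have e4 := Prod.ext_iff.mp e3.2
        exact Prod.ext e2.1 (Prod.ext e4.1 (Prod.ext e3.1 e4.2))
    rw [e1]
    refine h5.trans (le_of_eq ?_)
    ring
  refine hbb htm hpos hinj hv.ful hv.fI0 U₂ hv0 hvv hv.wu (by linarith) (C * (2 * η)) hCη
    (by
      have e1 : pu - (pu - 2 * η) = 2 * η := by ring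
      rw [e1]) (by linarith) (by linarith) _ _ _
    (fun J F A V z z' G hG => ⟨hG.lb.deg, hG.lb.dep, hG.lb.cls⟩)
    (fun J F A B V z z' G hB hG => NzF.hs H.hs J F A B V z z' G hB hG) ?_
  intro ζ χ hζ hχ
  refine blind_p htm hpos (σ := η) (sa := sa) (sb := P) (s := fun _ => pu)
    (gap := h * (P - sa) * Real.log 2 - d - η) hv.ful U₁ U₂ hvv (H.uNn.trans hn) heN.le
    (by linarith) (by linarith) (by linarith) hη h2 le_rfl (by linarith) le_rfl ?_ (by linarith)
    (by linarith) _ (fun J F A V z z' G hG => hG.lb)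
    (fun J F A B V z z' G hB hG => NzF.hs H.hs J F A B V z z' G hB hG) hrow hζ hχ
  have e1 : P - P + (pu - (pu - 2 * η)) + 3 * η = 5 * η := by ring
  rw [e1]
  have k4 : η * Real.log 2 ≤ η := by nlinarith
  linarith

end Pool.TIE19
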