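import Pool.Agent.H19.TIE.Svc
import Pool.Agent.H92.ALT.Jn7

/-!
# The last coordinate has no drop at the windows with a family of small rate: the tie, `u` thin

`cbN_thin_eq`: `u` thin of the same slope as `N`. `cbN_thin_all`: `u` thin.
-/

set_option autoImplicit false

namespace Pool.ASM

open MeasureTheory Set Filter Topology
open Pool.GEN Pool.PKG Pool.SW Pool.ALT Pool.TIE19
open Pool.LA91 (FaQ sumQ HerQ her_sum her_fa aePG_fa aePG_sum)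
open Pool.MIC6
open Pool.V0F (LbU ChUQ AttUQ her_chU aePG_chU her_attU aePG_attU)

/-- **`u` thin of the same slope.** -/
theorem cbN_thin_eq : CbN .thin (fun Sl => Sl 2 = Sl 3) := by
  have hbQ : AePG 4 (sumQ (ChUQ : PropG 4 Unit) (AttUQ : PropG 4 Unit)) :=
    aePG_sum (aePG_chU 4) (her_chU 4) (aePG_attU 4)
  have hhQ : HerQ (sumQ (ChUQ : PropG 4 Unit) (AttUQ : PropG 4 Unit)) :=
    her_sum (her_chU 4) (her_attU 4)
  refine ⟨((Unit ⊕ Unit) ⊕ ((Unit ⊕ Unit) ⊕ (ℕ × ℕ × ℚ × ℚ))) ⊕ (ℕ × ℕ × ℚ × ℚ), inferInstance,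
    sumQ (sumQ (sumQ (ChUQ : PropG 4 Unit) (AttUQ : PropG 4 Unit))
      (sumQ (sumQ (ChUQ : PropG 4 Unit) (AttUQ : PropG 4 Unit)) FaQ)) FaQ,
    aePG_sum (aePG_sum hbQ hhQ (aePG_sum hbQ hhQ (aePG_fa 4)))
      (her_sum hhQ (her_sum hhQ (her_fa 4))) (aePG_fa 4),
    her_sum (her_sum hhQ (her_sum hhQ (her_fa 4))) (her_fa 4), ?_⟩
  intro h hh hh1 Sl hS heq β' hβ D
  have s2 := hS.thin rfl
  have s3 := hS.s3
  obtain ⟨hb, hb0, hb1, hbβ⟩ := hb_of (by linarith) hβ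
  have hκ : ∀ l < 2, (kg4 .one .one .thin .stp) l = .one := fun l hl => by interval_cases l <;> rfl
  have hs : 1 < Sl 3 := by linarith
  have hs0 : 0 < Sl 3 := by linarith
  obtain ⟨κ₂, hκ₂⟩ : ∃ κ₂ : ℝ, κ₂ = (Sl 3 - 1) / Sl 3 * hb / 2 := ⟨_, rfl⟩
  have hp : 0 < (Sl 3 - 1) / Sl 3 * hb := mul_pos (div_pos (by linarith) hs0) hb0
  have hκ0 : 0 < κ₂ := by rw [hκ₂]; linarith
  have hκ1 : κ₂ < (Sl 3 - 1) / Sl 3 * hb := by rw [hκ₂]; linarith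
  obtain ⟨lu, hlu⟩ : ∃ lu : ℝ, lu = max 3 ((Sl 3 - 1) / κ₂) := ⟨_, rfl⟩
  have hlu3 : 3 ≤ lu := by rw [hlu]; exact le_max_left _ _
  have hlu1 : Sl 3 - 1 ≤ κ₂ * lu := by
    have h1 : (Sl 3 - 1) / κ₂ ≤ lu := by rw [hlu]; exact le_max_right _ _
    rw [div_le_iff₀ hκ0] at h1
    linarith
  obtain ⟨a, ha⟩ : ∃ a : ℝ, a = max (Sl 3 + 1) (lu + 1 / 2) := ⟨_, rfl⟩
  have ha1 : Sl 3 + 1 ≤ a := by rw [ha]; exact le_max_left _ _
  have ha2 : lu + 1 / 2 ≤ a := by rw [ha]; exact le_max_right _ _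
  have hv := svNC_E (r := 2) (by norm_num) (y := 3 / 2) (a := a) (h := h) (W := TruW 4)
    (Dv := D) (β' := β') (hb := hb) (κ := kg4 .one .one .thin .stp) (κ₂ := κ₂) (lu := lu) hκ rfl
    rfl hb0 hb1 hbβ hs heq hκ0 hκ1 hlu3 hlu1 le_rfl (by linarith) ha1 ha2
    (vbYb_of (r := 2) (by norm_num) hκ hs hb0 hb1)
  have hz := celZ_nyc (m := 4) (r := 2) (by norm_num) (by norm_num) hκ
    (show Kg.thin ≠ Kg.any from fun h => nomatch h) rfl (by linarith) s3 le_rfl (by linarith)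
    ha1 hv
  rw [admN_eq]
  exact hz.mono id fun _ _ _ _ _ _ _ _ _ _ _ hZ => ⟨trivial, hZ⟩

/-- **`u` thin.** -/
theorem cbN_thin_all : CbN .thin (fun _ => True) := by
  obtain ⟨ι, hι, Q, h1, h2, H⟩ := cbN_thin_ne
  obtain ⟨ι', hι', Q', h1', h2', H'⟩ := cbN_thin_eq
  refine ⟨ι ⊕ ι', inferInstance, sumQ Q Q', aePG_sum h1 h2 h1', her_sum h2 h2', ?_⟩
  intro h hh hh1 Sl hS _ β' hβ D
  rcases eq_or_ne (Sl 2) (Sl 3) with he | he
  · exact (H' h hh hh1 Sl hS he β' hβ D).inr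
  · exact (H h hh hh1 Sl hS he β' hβ D).inl

end Pool.ASM
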