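import Pool.Agent.H19.TIE.Nwx
import Pool.Agent.H19.V0B.Rec

/-!
# The closed polynomials of the frame from the closed gradient of the target

`TieN`: the numbers of the windows. `tie_h`: `TieH` from the conclusion `V0E` of the class theorem of
a counted target, for the label `GN` of a window before the window of the end.
-/

set_option autoImplicit false

namespace Pool.TIE19

open Finset Real MvPolynomial
open Pool.KA Pool.KSAT Pool.PB Pool.GEN Pool.D2R Pool.D2G30 Pool.ISO Pool.CHT Pool.CHX Pool.V1E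
open Pool.PB.Trl (rt rt_mem t_rt)
open Pool.K2S (Sub)
open Pool.AVG57 (upw upw_slam)
open Pool.V0Q (folN)
open Pool.V0B19 (V0E)

/-- **The numbers of the windows.** -/
structure TieN (J r : ℕ) (o : ℕ → ℝ) (lv : ℕ → ℕ → ℝ) (ib iw ie : ℕ) (s : ℕ → ℕ) (MB Q x : ℕ)
    (w u φ κ₂ : ℝ) : Prop where
  o0 : 0 ≤ o ib
  ob2 : o ib ≤ o 2
  o20 : o 2 ≤ o 0
  ow : o iw ≤ o 0
  ow0 : w + 2 * φ ≤ o 0
  o03 : o 0 ≤ o 3
  o3e : o 3 ≤ o ie
  o01 : o 0 ≤ 1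
  Qe : Q = ⌊o 3 * J⌋₊ - ⌊o 0 * J⌋₊
  QM : Q ≤ MB
  sj : ∀ j < r, lv 0 j * J ≤ s j + 1
  lvd : ∀ k, k = 2 ∨ k = ib ∨ k = iw ∨ k = ie → ∀ j < r,
    (lv k j - lv 0 j - (o k - o 0)) * J ≤ x ∧ (lv 0 j - lv k j - (o 0 - o k)) * J ≤ x
  sj' : ∀ j < r, (s j : ℝ) ≤ lv 0 j * J
  lu : (lv 3 r + (o ie - o 3)) * J ≤ lv ie r * J + x
  N3 : (s r : ℝ) + MB ≤ lv 3 (r + 1) * J + x
  Ne : (s r : ℝ) + ((MB : ℝ) - Q) + (o ie - o 0) * J ≤ lv ie (r + 1) * J + x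
  Nw : (s r : ℝ) + ((MB : ℝ) - Q) ≤ lv iw (r + 1) * J + κ₂ * u * J + x

/-- **The closed polynomials of the frame** from the conclusion of the class theorem. -/
theorem tie_h (D Dw r : ℕ) (hDw : D ≤ Dw) (hDw1 : 1 ≤ Dw) : ∃ C : ℕ, ∀ {m J : ℕ} {F : Fam m J}
    {c : ℕ → Fin m} {Dr N M : ℕ} {C₀ a Eb ηm : ℝ} {o η σ : ℕ → ℝ} {lv b : ℕ → ℕ → ℝ} {κ : ℝ}
    {z : ℕ → ℕ → ℕ} {B : F.Ω → Prop} {g₀ : ℕ → ℕ → ℕ}
    {G : ℕ → PtT F → ℕ → MvPolynomial (Option (Fin m)) ℝ}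
    {H : ℕ → LnT F → ℕ → MvPolynomial (Option (Fin m)) ℝ}
    (_ : WinB F c (r + 1) D Dr N M C₀ a Eb ηm o η σ lv b κ z B g₀ G H)
    {ib iw ie MB Q x DE : ℕ} {s : ℕ → ℕ} {sR κ₂ ι φ w u : ℝ} {tie : Prop}
    {GN Cp : PtT F → MvPolynomial (Option (Fin m)) ℝ}
    {X : LnT F → MvPolynomial (Option (Fin m)) ℝ},
    Set.InjOn c (Set.Iio (r + 2)) → 3 ≤ N → ib ≤ N → iw ≤ N → ie ≤ N →
    (∃ q ≤ M, z ib q = ⌊o 2 * J⌋₊ - ⌊o ib * J⌋₊) → (∃ q ≤ M, z 2 q = ⌊o ie * J⌋₊ - ⌊o 2 * J⌋₊) →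
    (∃ q ≤ M, z 3 q = ⌊o ie * J⌋₊ - ⌊o 3 * J⌋₊) → C₀ * (ηm * J) ≤ x →
    TieN J r o lv ib iw ie s MB Q x w u φ κ₂ → DE + 1 ≤ Dw →
    V0E F c r DE sR κ₂ ι φ w u tie ib iw ie g₀ G GN B → (∀ y, DepC c (r + 1) (GN y)) →
    (∀ L, (X L).totalDegree ≤ Dw) → (∀ L, DepC c r (X L)) →
    (∀ ω, B ω → X (slam F ⌊o 0 * J⌋₊ ω) = GN (ptr F J ω) - Cp (ptr F J ω)) →
    TieH F c s r Dw MB Q (C * (x + 1)) (fun k => ⌊o (fr4 k) * J⌋₊) (fun k => g₀ (fr4 k)) B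
      (fun k => G (fr4 k)) Cp := by
  obtain ⟨C₁, hbd⟩ := bal_dd1 D (r + 1)
  obtain ⟨E₁, hE₁⟩ : ∃ E₁ : ℕ, E₁ = (C₁ + 6) * r := ⟨_, rfl⟩
  obtain ⟨E₂, hE₂⟩ : ∃ E₂ : ℕ, E₂ = C₁ + r + 10 := ⟨_, rfl⟩
  refine ⟨C₁ + 4 + E₁ + E₂ + r + 4, ?_⟩
  intro m J F c Dr N M C₀ a Eb ηm o η σ lv b κ z B g₀ G H W ib iw ie MB Q x DE s sR κ₂ ι φ w u tie
    GN Cp X hc hN hib hiw hie hzb hz2 hz3 hCx Nn hDE HV hGN dX pX hXe
  obtain ⟨Wn, mu, hW1, hW2, hmu, hcl⟩ := HV.cl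
  have hJ : (0 : ℝ) ≤ J := Nat.cast_nonneg J
  have hc1 : Set.InjOn c (Set.Iio (r + 1)) := hc.mono fun y hy => by
    rw [Set.mem_Iio] at hy ⊢
    omega
  have hb2 := Nn.ob2
  have h20 := Nn.o20
  have h03 := Nn.o03
  have h3e := Nn.o3e
  have hob := Nn.o0
  have ho2 : 0 ≤ o 2 := hob.trans hb2
  have ho0 : 0 ≤ o 0 := ho2.trans h20
  have ho3 : 0 ≤ o 3 := ho0.trans h03
  have hoe : 0 ≤ o ie := ho3.trans h3e
  have flo : ∀ {y : ℝ}, 0 ≤ y → ((⌊y * J⌋₊ : ℕ) : ℝ) ≤ y * J ∧ y * J < (⌊y * J⌋₊ : ℕ) + 1 :=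
    fun hy => ⟨Nat.floor_le (mul_nonneg hy hJ), Nat.lt_floor_add_one _⟩
  have flm : ∀ {y y' : ℝ}, y ≤ y' → ⌊y * J⌋₊ ≤ ⌊y' * J⌋₊ := fun h =>
    Nat.floor_le_floor (mul_le_mul_of_nonneg_right h hJ)
  obtain ⟨Ob, hOb⟩ : ∃ n : ℕ, n = ⌊o ib * J⌋₊ := ⟨_, rfl⟩
  obtain ⟨O2, hO2⟩ : ∃ n : ℕ, n = ⌊o 2 * J⌋₊ := ⟨_, rfl⟩
  obtain ⟨O0, hO0⟩ : ∃ n : ℕ, n = ⌊o 0 * J⌋₊ := ⟨_, rfl⟩
  obtain ⟨O3, hO3⟩ : ∃ n : ℕ, n = ⌊o 3 * J⌋₊ := ⟨_, rfl⟩
  obtain ⟨Oe, hOe⟩ : ∃ n : ℕ, n = ⌊o ie * J⌋₊ := ⟨_, rfl⟩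
  have m1 : Ob ≤ O2 := by rw [hOb, hO2]; exact flm hb2
  have m2 : O2 ≤ O0 := by rw [hO2, hO0]; exact flm h20
  have m3 : O0 ≤ O3 := by rw [hO0, hO3]; exact flm h03
  have m4 : O3 ≤ Oe := by rw [hO3, hOe]; exact flm h3e
  obtain ⟨fb1, fb2⟩ := flo hob
  obtain ⟨f21, f22⟩ := flo ho2
  obtain ⟨f01, f02⟩ := flo ho0
  obtain ⟨f31, f32⟩ := flo ho3
  obtain ⟨fe1, fe2⟩ := flo hoe
  rw [← hOb] at fb1 fb2
  rw [← hO2] at f21 f22
  rw [← hO0] at f01 f02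
  rw [← hO3] at f31 f32
  rw [← hOe] at fe1 fe2
  have hO0J : O0 ≤ J := by
    have h1 : (O0 : ℝ) ≤ J := f01.trans (by
      have := mul_le_mul_of_nonneg_right Nn.o01 hJ
      linarith)
    exact_mod_cast h1
  have hQe : Q = O3 - O0 := by rw [hO3, hO0]; exact Nn.Qe
  have hQM := Nn.QM
  have cOe0 : (((Oe - O0 : ℕ) : ℕ) : ℝ) = (Oe : ℝ) - O0 := Nat.cast_sub (by omega)
  have cOe2 : (((Oe - O2 : ℕ) : ℕ) : ℝ) = (Oe : ℝ) - O2 := Nat.cast_sub (by omega)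
  have cOe3 : (((Oe - O3 : ℕ) : ℕ) : ℝ) = (Oe : ℝ) - O3 := Nat.cast_sub (by omega)
  have c02 : (((O0 - O2 : ℕ) : ℕ) : ℝ) = (O0 : ℝ) - O2 := Nat.cast_sub (by omega)
  have c2b : (((O2 - Ob : ℕ) : ℕ) : ℝ) = (O2 : ℝ) - Ob := Nat.cast_sub (by omega)
  have cQ : (Q : ℝ) = (O3 : ℝ) - O0 := by rw [hQe]; exact Nat.cast_sub (by omega)
  have cMQ : (((MB - Q : ℕ) : ℕ) : ℝ) = (MB : ℝ) - Q := Nat.cast_sub hQM
  -- the losses
  have hC1 := W.C1
  have hηm0 : 0 ≤ ηm := (W.hη 0 (by omega)).1.trans (W.hη 0 (by omega)).2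
  have hηJ : ηm * J ≤ x := by
    have h1 : ηm * J ≤ C₀ * (ηm * J) := le_mul_of_one_le_left (mul_nonneg hηm0 hJ) hC1
    linarith
  have hfl : ⌊C₀ * (ηm * J)⌋₊ ≤ x := by
    have h3 : ((⌊C₀ * (ηm * J)⌋₊ : ℕ) : ℝ) ≤ x :=
      (Nat.floor_le (mul_nonneg (by linarith) (mul_nonneg hηm0 hJ))).trans hCx
    exact_mod_cast h3
  obtain ⟨y, hy⟩ : ∃ y : ℕ, y = x + 1 := ⟨_, rfl⟩
  have hyR : (y : ℝ) = x + 1 := by rw [hy]; push_cast; rfl
  have hx0 : (0 : ℝ) ≤ x := Nat.cast_nonneg x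
  -- the levels
  have lvS : ∀ k, k = 2 ∨ k = ib ∨ k = iw ∨ k = ie → ∀ j < r,
      lv k j * J ≤ lv 0 j * J + (o k - o 0) * J + x ∧
      lv 0 j * J + (o k - o 0) * J - x ≤ lv k j * J := by
    intro k hk j hj
    obtain ⟨h1, h2⟩ := Nn.lvd k hk j hj
    have e1 : (lv k j - lv 0 j - (o k - o 0)) * (J : ℝ) = lv k j * J - lv 0 j * J -
      (o k - o 0) * J := by ring
    have e2 : (lv 0 j - lv k j - (o 0 - o k)) * (J : ℝ) = lv 0 j * J - lv k j * J +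
      (o k - o 0) * J := by ring
    rw [e1] at h1
    rw [e2] at h2
    constructor <;> linarith
  have dO : ∀ a' b' : ℝ, (a' - b') * (J : ℝ) = a' * J - b' * J := fun a' b' => by ring
  have f1 : ∀ j < r, g₀ ie j ≤ s j + (Oe - O0) + 2 * y := by
    intro j hj
    obtain ⟨-, -, -, h4⟩ := W.g_num hie (show j ≤ r + 1 by omega)
    have h5 := (lvS ie (Or.inr (Or.inr (Or.inr rfl))) j hj).1
    have h6 := Nn.sj j hj
    rw [dO] at h5
    have : ((g₀ ie j : ℕ) : ℝ) ≤ ((s j + (Oe - O0) + 2 * y : ℕ) : ℝ) := by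
      push_cast [cOe0]
      rw [hyR]
      linarith
    exact_mod_cast this
  have f2 : ∀ j < r, g₀ ie j ≤ min (⌊b 2 j * J⌋₊ + (Oe - O2)) (g₀ ie j) + 3 * y := by
    intro j hj
    rcases le_total (⌊b 2 j * J⌋₊ + (Oe - O2)) (g₀ ie j) with h | h
    · rw [min_eq_left h]
      obtain ⟨-, -, -, h4⟩ := W.g_num hie (show j ≤ r + 1 by omega)
      obtain ⟨h1, -, -, -⟩ := W.g_num (show 2 ≤ N by omega) (show j ≤ r + 1 by omega)
      have h5 := (lvS ie (Or.inr (Or.inr (Or.inr rfl))) j hj).1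
      have h6 := (lvS 2 (Or.inl rfl) j hj).2
      rw [dO] at h5 h6
      have : ((g₀ ie j : ℕ) : ℝ) ≤ ((⌊b 2 j * J⌋₊ + (Oe - O2) + 3 * y : ℕ) : ℝ) := by
        push_cast [cOe2]
        rw [hyR]
        linarith
      exact_mod_cast this
    · rw [min_eq_right h]
      omega
  have f3 : ∀ l < r, g₀ 2 l + (O0 - O2) ≤ s l + 2 * y := by
    intro l hl
    obtain ⟨-, -, -, h4⟩ := W.g_num (show 2 ≤ N by omega) (show l ≤ r + 1 by omega)
    have h5 := (lvS 2 (Or.inl rfl) l hl).1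
    have h6 := Nn.sj l hl
    rw [dO] at h5
    have : ((g₀ 2 l + (O0 - O2) : ℕ) : ℝ) ≤ ((s l + 2 * y : ℕ) : ℝ) := by
      push_cast [c02]
      rw [hyR]
      linarith
    exact_mod_cast this
  have f4 : ∀ j < r, s j ≤ min (⌊b ib j * J⌋₊ + (O2 - Ob)) (g₀ 2 j) + (O0 - O2) + 3 * y := by
    intro j hj
    have h6 := Nn.sj' j hj
    rcases le_total (⌊b ib j * J⌋₊ + (O2 - Ob)) (g₀ 2 j) with h | h
    · rw [min_eq_left h]
      obtain ⟨h1, -, -, -⟩ := W.g_num hib (show j ≤ r + 1 by omega)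
      have h5 := (lvS ib (Or.inr (Or.inl rfl)) j hj).2
      rw [dO] at h5
      have : ((s j : ℕ) : ℝ) ≤ ((⌊b ib j * J⌋₊ + (O2 - Ob) + (O0 - O2) + 3 * y : ℕ) : ℝ) := by
        push_cast [c02, c2b]
        rw [hyR]
        linarith
      exact_mod_cast this
    · rw [min_eq_right h]
      obtain ⟨-, -, h3, -⟩ := W.g_num (show 2 ≤ N by omega) (show j ≤ r + 1 by omega)
      have h5 := (lvS 2 (Or.inl rfl) j hj).2
      rw [dO] at h5
      have : ((s j : ℕ) : ℝ) ≤ ((g₀ 2 j + (O0 - O2) + 3 * y : ℕ) : ℝ) := by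
        push_cast [c02]
        rw [hyR]
        linarith
      exact_mod_cast this
  have f5 : ∀ j < r, g₀ iw j ≤ s j + 2 * y := by
    intro j hj
    obtain ⟨-, -, -, h4⟩ := W.g_num hiw (show j ≤ r + 1 by omega)
    have h5 := (lvS iw (Or.inr (Or.inr (Or.inl rfl))) j hj).1
    have h6 := Nn.sj j hj
    have h7 : (o iw - o 0) * (J : ℝ) ≤ 0 :=
      mul_nonpos_of_nonpos_of_nonneg (by linarith [Nn.ow]) hJ
    have : ((g₀ iw j : ℕ) : ℝ) ≤ ((s j + 2 * y : ℕ) : ℝ) := by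
      push_cast
      rw [hyR]
      linarith
    exact_mod_cast this
  have f6 : g₀ 3 r + (Oe - O0) ≤ min (⌊b 3 r * J⌋₊ + (Oe - O3)) (g₀ ie r) + Q + 3 * y := by
    obtain ⟨h1, -, -, h4⟩ := W.g_num (show 3 ≤ N by omega) (show r ≤ r + 1 by omega)
    rcases le_total (⌊b 3 r * J⌋₊ + (Oe - O3)) (g₀ ie r) with h | h
    · rw [min_eq_left h]
      have : ((g₀ 3 r + (Oe - O0) : ℕ) : ℝ) ≤
          ((⌊b 3 r * J⌋₊ + (Oe - O3) + Q + 3 * y : ℕ) : ℝ) := by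
        push_cast [cOe0, cOe3]
        rw [hyR, cQ]
        linarith
      exact_mod_cast this
    · rw [min_eq_right h]
      obtain ⟨-, -, h3, -⟩ := W.g_num hie (show r ≤ r + 1 by omega)
      have h5 := Nn.lu
      have e1 : (lv 3 r + (o ie - o 3)) * (J : ℝ) = lv 3 r * J + (o ie * J - o 3 * J) := by ring
      rw [e1] at h5
      have : ((g₀ 3 r + (Oe - O0) : ℕ) : ℝ) ≤ ((g₀ ie r + Q + 3 * y : ℕ) : ℝ) := by
        push_cast [cOe0]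
        rw [hyR, cQ]
        linarith
      exact_mod_cast this
  have f7 : s r + (MB - Q) + (Oe - O0) ≤
      min (⌊b 3 (r + 1) * J⌋₊ + (Oe - O3)) (g₀ ie (r + 1)) + 3 * y := by
    rcases le_total (⌊b 3 (r + 1) * J⌋₊ + (Oe - O3)) (g₀ ie (r + 1)) with h | h
    · rw [min_eq_left h]
      obtain ⟨h1, -, -, -⟩ := W.g_num (show 3 ≤ N by omega) (show r + 1 ≤ r + 1 by omega)
      have h5 := Nn.N3
      have : ((s r + (MB - Q) + (Oe - O0) : ℕ) : ℝ) ≤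
          ((⌊b 3 (r + 1) * J⌋₊ + (Oe - O3) + 3 * y : ℕ) : ℝ) := by
        push_cast [cOe0, cOe3, cMQ]
        rw [hyR, cQ]
        linarith
      exact_mod_cast this
    · rw [min_eq_right h]
      obtain ⟨-, -, h3, -⟩ := W.g_num hie (show r + 1 ≤ r + 1 by omega)
      have h5 := Nn.Ne
      rw [dO] at h5
      have : ((s r + (MB - Q) + (Oe - O0) : ℕ) : ℝ) ≤ ((g₀ ie (r + 1) + 3 * y : ℕ) : ℝ) := by
        push_cast [cOe0, cMQ]
        rw [hyR]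
        linarith
      exact_mod_cast this
  have f8 : (s r : ℝ) + ((MB : ℝ) - Q) ≤ g₀ iw (r + 1) + κ₂ * u * J + 2 * y := by
    obtain ⟨-, -, h3, -⟩ := W.g_num hiw (show r + 1 ≤ r + 1 by omega)
    have h5 := Nn.Nw
    rw [hyR]
    linarith
  have hWO : Wn ≤ O0 := by
    rw [hO0]
    refine Nat.le_floor (hW2.trans ?_)
    exact mul_le_mul_of_nonneg_right Nn.ow0 hJ
  -- the closed objects
  refine ⟨X, fun L j => MvPolynomial.X (some (c j)) - H ib (upw Ob O0 L) j,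
    fun L j => Polynomial.C (2 ^ g₀ iw j / 2 ^ g₀ iw (r + 1)) * mvt Wn O0 mu L j, dX, pX, ?_, ?_,
    ?_, ?_⟩
  · intro L j
    refine (totalDegree_sub _ _).trans (max_le ?_ ?_)
    · rw [totalDegree_X]
      exact hDw1
    · exact ((W.ev ib hib).ball.degH _ j).trans hDw
  · intro L j hj b₁ b₂ h0 h1
    rw [map_sub, map_sub, eval_X, eval_X, h1 j hj, (W.ev ib hib).ball.depH _ j b₁ b₂ h0
      (fun l hl => h1 l (by omega))]
  · intro L j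
    exact (Polynomial.natDegree_C_mul_le _ _).trans ((mvt_deg hmu L j).trans hDE)
  intro ω hω V hV0 hV
  obtain ⟨Y₁, hY₁⟩ : ∃ Y₁ : ℝ, Y₁ = 2 ^ (E₁ * y) := ⟨_, rfl⟩
  have hY10 : 0 < Y₁ := by rw [hY₁]; positivity
  have hpw : ∀ {a b : ℕ}, a ≤ b → (2 : ℝ) ^ a ≤ 2 ^ b := fun h =>
    pow_le_pow_right₀ (by norm_num) h
  -- two windows
  have hdd : ∀ k k' : ℕ, k ≤ N → k' ≤ N → ⌊o k * J⌋₊ ≤ ⌊o k' * J⌋₊ →
      (∃ q ≤ M, z k q = ⌊o k' * J⌋₊ - ⌊o k * J⌋₊) → ∀ l ≤ r + 1, ∀ U : Option (Fin m) → ℝ,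
      |dd (G k (ptr F J ω) l) (bt F ω) U - dd (G k' (ptr F J ω) l) (bt F ω) U| ≤
        2 ^ (C₁ + x) / 2 ^ min (⌊b k l * J⌋₊ + (⌊o k' * J⌋₊ - ⌊o k * J⌋₊)) (g₀ k' l) *
          nrm c (G k' (ptr F J ω)) (g₀ k') ⌊o k' * J⌋₊ l (bt F ω) U := by
    intro k k' hk hk' hkk hz l hl U
    obtain ⟨q, hq, hz⟩ := hz
    have h1 := hbd (G := G k) (G' := G k') (g₀ := g₀ k') (U := 2 ^ ⌊C₀ * (ηm * J)⌋₊)
      (X := min (⌊b k l * J⌋₊ + (⌊o k' * J⌋₊ - ⌊o k * J⌋₊)) (g₀ k' l)) hc1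
      (by positivity) (W.ev k hk).ball.degG (W.ev k hk).ball.depG (W.ev k' hk').ball ω hω l hl
      (fun b' hb' => W.bal k hk k' hk' q hq hkk hz ω hω l hl b' hb') U
    refine h1.trans (mul_le_mul_of_nonneg_right ?_ (nrm_nonneg _ _ _ _ _ _ _))
    refine div_le_div_of_nonneg_right ?_ (by positivity)
    rw [← pow_add]
    exact hpw (by omega)
  -- the norm at the window of the follower
  have hNe : nrm c (G ie (ptr F J ω)) (g₀ ie) Oe r (bt F ω) V ≤ Y₁ * 2 ^ (Oe - O0) := by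
    have h1 := nrm_fr (c := c) (r := r) (P := G 2 (ptr F J ω)) (G := G ie (ptr F J ω))
      (g := g₀ ie) (a := Oe) (x := bt F ω) (V := V) (W := 2 ^ (Oe - O0)) (Z := 2 ^ (C₁ + 4 * y + 2))
      (by positivity) (by
        calc (4 : ℝ) = 2 ^ 2 := by norm_num
          _ ≤ _ := hpw (by omega)) hV0 (fun j hj => by
        have e1 : (2 : ℝ) ^ (C₁ + 4 * y + 2) / 4 = 2 ^ (C₁ + 4 * y) := by
          rw [pow_add _ _ 2]
          norm_num
        rw [e1]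
        refine (mul_le_mul_of_nonneg_left (hV j hj) (by positivity)).trans ?_
        rw [mul_one_div, div_le_iff₀ (by positivity), ← pow_add, ← pow_add]
        exact hpw (by have := f1 j hj; omega))
      (fun j hj => by
        have e1 : (2 : ℝ) ^ (C₁ + 4 * y + 2) / 4 = 2 ^ (C₁ + 4 * y) := by
          rw [pow_add _ _ 2]
          norm_num
        rw [e1]
        have h2 := hdd 2 ie (by omega) hie (flm (by linarith)) hz2 j (by omega) V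
        rw [← hOe, ← hO2] at h2
        refine (mul_le_mul_of_nonneg_left h2 (by positivity)).trans ?_
        rw [← mul_assoc]
        refine mul_le_mul_of_nonneg_right ?_ (nrm_nonneg _ _ _ _ _ _ _)
        rw [mul_div_assoc', div_le_iff₀ (by positivity), ← pow_add, ← pow_add]
        exact hpw (by have := f2 j hj; omega))
    refine (h1 r le_rfl).trans (mul_le_mul_of_nonneg_right ?_ (by positivity))
    rw [hY₁, ← pow_mul]
    refine hpw ?_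
    have h2 : C₁ + 4 * y + 2 ≤ (C₁ + 6) * y := by
      have : 1 ≤ y := by omega
      nlinarith
    calc (C₁ + 4 * y + 2) * r ≤ (C₁ + 6) * y * r := Nat.mul_le_mul_right _ h2
      _ = E₁ * y := by rw [hE₁]; ring
  obtain ⟨ae, hae⟩ : ∃ ae : ℝ, ae = dd (G ie (ptr F J ω) r) (bt F ω) V := ⟨_, rfl⟩
  obtain ⟨U, hU⟩ : ∃ U, U = up (c r) V ae := ⟨_, rfl⟩
  have hUn : U none = V none := by rw [hU, up_none]
  have hUl : ∀ l < r, U (some (c l)) = V (some (c l)) := fun l hl => by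
    rw [hU]
    exact up_ne (fun he => by
      have := hc1 (Set.mem_Iio.2 (show l < r + 1 by omega))
        (Set.mem_Iio.2 (Nat.lt_succ_self r)) he
      omega) _ _
  have hUr : U (some (c r)) = ae := by rw [hU, up_self]
  have hdU : ∀ {R : MvPolynomial (Option (Fin m)) ℝ}, DepC c r R →
      dd R (bt F ω) U = dd R (bt F ω) V := fun hR => dd_congr hR _ hUn hUl
  have hNU : nrm c (G ie (ptr F J ω)) (g₀ ie) Oe (r + 1) (bt F ω) U ≤ Y₁ * 2 ^ (Oe - O0) := by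
    have h1 : nrm c (G ie (ptr F J ω)) (g₀ ie) Oe (r + 1) (bt F ω) U =
        nrm c (G ie (ptr F J ω)) (g₀ ie) Oe r (bt F ω) V := by
      rw [← nrm_congr ((W.ev ie hie).ball.depG _) hUn hUl]
      unfold nrm
      rw [Finset.sum_range_succ, hUr, hdU ((W.ev ie hie).ball.depG _ r), ← hae,
        sub_self, abs_zero, mul_zero, add_zero]
    rw [h1]
    exact hNe
  have t3 : |dd (G 3 (ptr F J ω) (r + 1)) (bt F ω) U -
      dd (G ie (ptr F J ω) (r + 1)) (bt F ω) U| ≤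
      2 ^ (C₁ + 4 * y) * Y₁ / 2 ^ (s r + (MB - Q)) := by
    have h1 := hdd 3 ie hN hie (flm h3e) hz3 (r + 1) le_rfl U
    rw [← hOe, ← hO3] at h1
    obtain ⟨mn, hmn⟩ : ∃ mn : ℕ, mn = min (⌊b 3 (r + 1) * J⌋₊ + (Oe - O3)) (g₀ ie (r + 1)) :=
      ⟨_, rfl⟩
    rw [← hmn] at h1
    rw [← hmn] at f7
    refine h1.trans ((mul_le_mul_of_nonneg_left hNU (by positivity)).trans ?_)
    have h2 : (2 : ℝ) ^ (Oe - O0) / 2 ^ mn ≤ 2 ^ (3 * y) / 2 ^ (s r + (MB - Q)) :=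
      p2_le' (by omega)
    calc 2 ^ (C₁ + x) / 2 ^ mn * (Y₁ * 2 ^ (Oe - O0)) =
        2 ^ (C₁ + x) * Y₁ * (2 ^ (Oe - O0) / 2 ^ mn) := by ring
      _ ≤ 2 ^ (C₁ + x) * Y₁ * (2 ^ (3 * y) / 2 ^ (s r + (MB - Q))) :=
          mul_le_mul_of_nonneg_left h2 (by positivity)
      _ = 2 ^ (C₁ + x + 3 * y) * Y₁ / 2 ^ (s r + (MB - Q)) := by
          rw [pow_add _ (C₁ + x)]
          ring
      _ ≤ _ := div_le_div_of_nonneg_right (mul_le_mul_of_nonneg_right (hpw (by omega)) hY10.le)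
          (by positivity)
  have t1 : |ae - dd (G 3 (ptr F J ω) r) (bt F ω) V| ≤
      2 ^ (C₁ + 4 * y) * Y₁ * 2 ^ Q / 2 ^ g₀ 3 r := by
    have h1 := hdd 3 ie hN hie (flm h3e) hz3 r (Nat.le_succ r) V
    rw [← hOe, ← hO3, ← hae, abs_sub_comm] at h1
    obtain ⟨mn, hmn⟩ : ∃ mn : ℕ, mn = min (⌊b 3 r * J⌋₊ + (Oe - O3)) (g₀ ie r) := ⟨_, rfl⟩
    rw [← hmn] at h1
    rw [← hmn] at f6
    refine h1.trans ((mul_le_mul_of_nonneg_left hNe (by positivity)).trans ?_)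
    have h2 : (2 : ℝ) ^ (Oe - O0) / 2 ^ mn ≤ 2 ^ (Q + 3 * y) / 2 ^ g₀ 3 r := p2_le' (by omega)
    calc 2 ^ (C₁ + x) / 2 ^ mn * (Y₁ * 2 ^ (Oe - O0)) =
        2 ^ (C₁ + x) * Y₁ * (2 ^ (Oe - O0) / 2 ^ mn) := by ring
      _ ≤ 2 ^ (C₁ + x) * Y₁ * (2 ^ (Q + 3 * y) / 2 ^ g₀ 3 r) :=
          mul_le_mul_of_nonneg_left h2 (by positivity)
      _ = 2 ^ (C₁ + x + 3 * y) * Y₁ * 2 ^ Q / 2 ^ g₀ 3 r := by
          rw [pow_add _ (C₁ + x), pow_add _ Q]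
          ring
      _ ≤ _ := div_le_div_of_nonneg_right (mul_le_mul_of_nonneg_right (mul_le_mul_of_nonneg_right
          (hpw (by omega)) hY10.le) (by positivity)) (by positivity)
  -- the base
  have hNb : ∀ j < r, 2 ^ g₀ iw j *
      |V (some (c j)) - dd (G ib (ptr F J ω) j) (bt F ω) V| ≤ 2 ^ (E₂ * y) := by
    intro j hj
    have h2 := hdd ib 2 hib (by omega) (flm hb2) hzb j (by omega) V
    rw [← hO2, ← hOb] at h2
    obtain ⟨mn, hmn⟩ : ∃ mn : ℕ, mn = min (⌊b ib j * J⌋₊ + (O2 - Ob)) (g₀ 2 j) := ⟨_, rfl⟩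
    rw [← hmn] at h2
    have f4j := f4 j hj
    rw [← hmn] at f4j
    have hn2 : nrm c (G 2 (ptr F J ω)) (g₀ 2) O2 j (bt F ω) V ≤
        ((j : ℝ) + 1) * (2 ^ (2 * y) / 2 ^ (O0 - O2)) := by
      refine nrm_le (by rw [hV0, abs_zero]; positivity) fun l hl => ?_
      refine (hV l (by omega)).trans ?_
      rw [div_div, ← pow_add]
      exact p2_le (by have := f3 l (by omega); omega)
    have hjr : ((j : ℝ) + 1) ≤ r := by exact_mod_cast hj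
    have h3 : |dd (G ib (ptr F J ω) j) (bt F ω) V - dd (G 2 (ptr F J ω) j) (bt F ω) V| ≤
        r * 2 ^ (C₁ + 6 * y) / 2 ^ s j := by
      refine h2.trans ((mul_le_mul_of_nonneg_left hn2 (by positivity)).trans ?_)
      have h4 : (2 : ℝ) ^ (C₁ + x + 2 * y) / 2 ^ (mn + (O0 - O2)) ≤
          2 ^ (C₁ + x + 5 * y) / 2 ^ s j := p2_le' (by omega)
      calc 2 ^ (C₁ + x) / 2 ^ mn * (((j : ℝ) + 1) * (2 ^ (2 * y) / 2 ^ (O0 - O2))) =
          ((j : ℝ) + 1) * (2 ^ (C₁ + x + 2 * y) / 2 ^ (mn + (O0 - O2))) := by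
            rw [pow_add _ (C₁ + x), pow_add _ mn]
            field_simp
        _ ≤ r * (2 ^ (C₁ + x + 5 * y) / 2 ^ s j) :=
            mul_le_mul hjr h4 (by positivity) (Nat.cast_nonneg r)
        _ ≤ r * (2 ^ (C₁ + 6 * y) / 2 ^ s j) := mul_le_mul_of_nonneg_left
            (div_le_div_of_nonneg_right (hpw (by omega)) (by positivity)) (Nat.cast_nonneg r)
        _ = _ := by ring
    have h5 : |V (some (c j)) - dd (G ib (ptr F J ω) j) (bt F ω) V| ≤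
        2 ^ (C₁ + 6 * y + r + 1) / 2 ^ s j := by
      have e1 : V (some (c j)) - dd (G ib (ptr F J ω) j) (bt F ω) V =
          (V (some (c j)) - dd (G 2 (ptr F J ω) j) (bt F ω) V) -
          (dd (G ib (ptr F J ω) j) (bt F ω) V - dd (G 2 (ptr F J ω) j) (bt F ω) V) := by ring
      rw [e1]
      refine (abs_sub _ _).trans ((add_le_add (hV j hj) h3).trans ?_)
      rw [← add_div]
      refine div_le_div_of_nonneg_right ?_ (by positivity)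
      have h6 : ((r : ℝ) + 1) ≤ 2 ^ (r + 1) := by
        have : r + 1 < 2 ^ (r + 1) := Nat.lt_two_pow_self
        exact_mod_cast this.le
      have h7 : (1 : ℝ) ≤ 2 ^ (C₁ + 6 * y) := one_le_pow₀ (by norm_num)
      calc 1 + (r : ℝ) * 2 ^ (C₁ + 6 * y) ≤ (r + 1) * 2 ^ (C₁ + 6 * y) := by linarith
        _ ≤ 2 ^ (r + 1) * 2 ^ (C₁ + 6 * y) := mul_le_mul_of_nonneg_right h6 (by positivity)
        _ = _ := by
            rw [← pow_add]
            congr 1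
            ring
    refine (mul_le_mul_of_nonneg_left h5 (by positivity)).trans ?_
    rw [mul_div_assoc', div_le_iff₀ (by positivity), ← pow_add, ← pow_add]
    refine hpw ?_
    have := f5 j hj
    rw [hE₂]
    have h8 : 1 ≤ y := by omega
    nlinarith
  -- the natural components
  have hfb : ∀ yy, ∀ j < r, folN G GN ib ie r (r + 1) yy j = G ib yy j := fun yy j hj => by
    unfold folN
    rw [if_pos hj]
  have hfr : ∀ yy, folN G GN ib ie r (r + 1) yy r = G ie yy r := fun yy => by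
    unfold folN
    rw [if_neg (lt_irrefl r), if_pos (Nat.lt_succ_self r)]
  have hfN : ∀ yy, folN G GN ib ie r (r + 1) yy (r + 1) = GN yy := fun yy => by
    unfold folN
    rw [if_neg (by omega), if_neg (lt_irrefl (r + 1))]
  have hg := gnh_sum (F := F) (c := c) (i := r + 1) hc1 (g₀ iw)
    (G := folN G GN ib ie r (r + 1)) (G' := G ie) (fun yy l => by
      unfold folN
      split_ifs with h1 h2
      · exact (W.ev ib hib).ball.depG yy l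
      · exact (W.ev ie hie).ball.depG yy l
      · exact (hGN yy).mono (by omega)) (W.ev ie hie).ball.depG ω (V := U) (by rw [hUn, hV0])
  rw [Finset.sum_range_succ, hfN, hfr, hUr, hdU ((W.ev ie hie).ball.depG _ r), ← hae, sub_self,
    mul_zero, mul_zero, add_zero] at hg
  have hg2 : ∑ j ∈ range r, gnh F c (r + 1) (g₀ iw) (folN G GN ib ie r (r + 1)) (G ie) ω j *
      (2 ^ g₀ iw j * (U (some (c j)) - dd (folN G GN ib ie r (r + 1) (ptr F J ω) j) (bt F ω) U)) =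
      ∑ j ∈ range r, gnh F c (r + 1) (g₀ iw) (folN G GN ib ie r (r + 1)) (G ie) ω j *
      (2 ^ g₀ iw j * (V (some (c j)) - dd (G ib (ptr F J ω) j) (bt F ω) V)) := by
    refine Finset.sum_congr rfl fun j hj => ?_
    have hj' := Finset.mem_range.1 hj
    rw [hfb _ j hj', hUl j hj', hdU (((W.ev ib hib).ball.depG _ j).mono (by omega))]
  rw [hg2] at hg
  obtain ⟨gn, hgn⟩ : ∃ gn : ℕ → ℝ, gn = fun j =>
    gnh F c (r + 1) (g₀ iw) (folN G GN ib ie r (r + 1)) (G ie) ω j := ⟨_, rfl⟩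
  obtain ⟨mj, hmj⟩ : ∃ mj : ℕ → ℝ, mj = fun j =>
    (mu (slam F Wn ω) j).eval (rt F Wn ω) := ⟨_, rfl⟩
  obtain ⟨vj, hvj⟩ : ∃ vj : ℕ → ℝ, vj = fun j =>
    V (some (c j)) - dd (G ib (ptr F J ω) j) (bt F ω) V := ⟨_, rfl⟩
  have hgm : ∀ j < r, |gn j - mj j| ≤ 2 ^ (-(κ₂ * u * J)) := fun j hj => by
    rw [hgn, hmj]
    exact hcl ω hω j hj
  have hvb : ∀ j < r, 2 ^ g₀ iw j * |vj j| ≤ 2 ^ (E₂ * y) := fun j hj => by
    rw [hvj]
    exact hNb j hj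
  have hgs : 2 ^ g₀ iw (r + 1) * dd (G ie (ptr F J ω) (r + 1) - GN (ptr F J ω)) (bt F ω) U =
      ∑ j ∈ range r, gn j * (2 ^ g₀ iw j * vj j) := by
    rw [hg, hgn, hvj]
  -- the sum of the closed numbers
  have hsumY : ∑ j ∈ range r, ((Polynomial.C (2 ^ g₀ iw j / 2 ^ g₀ iw (r + 1)) *
      mvt Wn O0 mu (slam F O0 ω) j).eval (rt F O0 ω)) *
      dd (MvPolynomial.X (some (c j)) - H ib (upw Ob O0 (slam F O0 ω)) j) (bt F ω) V =
      (∑ j ∈ range r, mj j * (2 ^ g₀ iw j * vj j)) / 2 ^ g₀ iw (r + 1) := by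
    rw [Finset.sum_div]
    refine Finset.sum_congr rfl fun j hj => ?_
    have hj' := Finset.mem_range.1 hj
    have hcl' := (W.ev ib hib).cls ω hω j (by omega)
    rw [← hOb] at hcl'
    rw [Polynomial.eval_mul, Polynomial.eval_C, mvt_eval hWO hO0J, dd_sub, Pool.V1E.dd_X,
      upw_slam F (m1.trans m2) hO0J, ← hcl', hmj, hvj]
    ring
  have herr : |(∑ j ∈ range r, gn j * (2 ^ g₀ iw j * vj j)) / 2 ^ g₀ iw (r + 1) -
      (∑ j ∈ range r, mj j * (2 ^ g₀ iw j * vj j)) / 2 ^ g₀ iw (r + 1)| ≤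
      2 ^ ((E₂ + 2 + r) * y) / 2 ^ (s r + (MB - Q)) := by
    rw [← sub_div, ← Finset.sum_sub_distrib, abs_div, abs_of_pos (show (0 : ℝ) <
      2 ^ g₀ iw (r + 1) by positivity)]
    have h1 : |∑ j ∈ range r, (gn j * (2 ^ g₀ iw j * vj j) - mj j * (2 ^ g₀ iw j * vj j))| ≤
        r * (2 ^ (-(κ₂ * u * J)) * 2 ^ (E₂ * y)) := by
      refine (Finset.abs_sum_le_sum_abs _ _).trans ?_
      calc ∑ j ∈ range r, |gn j * (2 ^ g₀ iw j * vj j) - mj j * (2 ^ g₀ iw j * vj j)| ≤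
          ∑ _j ∈ range r, (2 : ℝ) ^ (-(κ₂ * u * J)) * 2 ^ (E₂ * y) := by
            refine Finset.sum_le_sum fun j hj => ?_
            have hj' := Finset.mem_range.1 hj
            rw [← sub_mul, abs_mul, abs_mul, abs_of_pos (show (0 : ℝ) < 2 ^ g₀ iw j by
              positivity)]
            exact mul_le_mul (hgm j hj') (hvb j hj') (by positivity)
              (Real.rpow_pos_of_pos (by norm_num) _).le
        _ = _ := by rw [Finset.sum_const, Finset.card_range, nsmul_eq_mul]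
    have h2 : (2 : ℝ) ^ (-(κ₂ * u * J)) / 2 ^ g₀ iw (r + 1) ≤
        2 ^ (2 * y) / 2 ^ (s r + (MB - Q)) := by
      rw [div_le_div_iff₀ (by positivity) (by positivity), ← Real.rpow_natCast 2 (s r + (MB - Q)),
        ← Real.rpow_natCast 2 (2 * y), ← Real.rpow_natCast 2 (g₀ iw (r + 1)),
        ← Real.rpow_add (by norm_num), ← Real.rpow_add (by norm_num)]
      refine Real.rpow_le_rpow_of_exponent_le (by norm_num) ?_
      push_cast [cMQ]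
      linarith
    have h6 : (r : ℝ) ≤ 2 ^ (r * y) := by
      have h7 : r < 2 ^ r := Nat.lt_two_pow_self
      have h8 : (r : ℝ) ≤ 2 ^ r := by exact_mod_cast h7.le
      exact h8.trans (hpw (Nat.le_mul_of_pos_right _ (by omega)))
    calc |∑ j ∈ range r, (gn j * (2 ^ g₀ iw j * vj j) - mj j * (2 ^ g₀ iw j * vj j))| /
          2 ^ g₀ iw (r + 1) ≤ r * (2 ^ (-(κ₂ * u * J)) * 2 ^ (E₂ * y)) / 2 ^ g₀ iw (r + 1) :=
          div_le_div_of_nonneg_right h1 (by positivity)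
      _ = r * 2 ^ (E₂ * y) * (2 ^ (-(κ₂ * u * J)) / 2 ^ g₀ iw (r + 1)) := by ring
      _ ≤ 2 ^ (r * y) * 2 ^ (E₂ * y) * (2 ^ (2 * y) / 2 ^ (s r + (MB - Q))) := by
          refine mul_le_mul (mul_le_mul_of_nonneg_right h6 (by positivity)) h2 ?_ (by positivity)
          exact div_nonneg (Real.rpow_pos_of_pos (by norm_num) _).le (by positivity)
      _ = 2 ^ ((E₂ + 2 + r) * y) / 2 ^ (s r + (MB - Q)) := by
          rw [mul_div_assoc', ← pow_add, ← pow_add]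
          congr 2
          ring
  have hXV : dd (GN (ptr F J ω)) (bt F ω) U - dd (Cp (ptr F J ω)) (bt F ω) U =
      dd (X (slam F O0 ω)) (bt F ω) V := by
    rw [← dd_sub, hO0, ← hXe ω hω, hdU (pX _)]
  refine ⟨ae, ?_, ?_⟩
  · show |ae - dd (G 3 (ptr F J ω) r) (bt F ω) V| ≤
      2 ^ ((C₁ + 4 + E₁ + E₂ + r + 4) * (x + 1)) * 2 ^ Q / 2 ^ g₀ 3 r
    refine t1.trans (div_le_div_of_nonneg_right (mul_le_mul_of_nonneg_right ?_ (by positivity))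
      (by positivity))
    rw [hY₁, ← pow_add, ← hy]
    refine hpw ?_
    have h8 : 1 ≤ y := by omega
    nlinarith
  · show |dd (G 3 (ptr F J ω) (r + 1) - Cp (ptr F J ω)) (bt F ω) (up (c r) V ae) -
      (dd (X (slam F ⌊o 0 * J⌋₊ ω)) (bt F ω) V + ∑ j ∈ range r,
        ((Polynomial.C (2 ^ g₀ iw j / 2 ^ g₀ iw (r + 1)) *
          mvt Wn O0 mu (slam F ⌊o 0 * J⌋₊ ω) j).eval (rt F ⌊o 0 * J⌋₊ ω)) *
          dd (MvPolynomial.X (some (c j)) - H ib (upw Ob O0 (slam F ⌊o 0 * J⌋₊ ω)) j)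
            (bt F ω) V)| ≤
      2 ^ ((C₁ + 4 + E₁ + E₂ + r + 4) * (x + 1)) / 2 ^ (s r + (MB - Q))
    rw [← hO0, hsumY, ← hXV, ← hU, dd_sub]
    have e1 : dd (G 3 (ptr F J ω) (r + 1)) (bt F ω) U - dd (Cp (ptr F J ω)) (bt F ω) U -
        (dd (GN (ptr F J ω)) (bt F ω) U - dd (Cp (ptr F J ω)) (bt F ω) U +
          (∑ j ∈ range r, mj j * (2 ^ g₀ iw j * vj j)) / 2 ^ g₀ iw (r + 1)) =
        (dd (G 3 (ptr F J ω) (r + 1)) (bt F ω) U - dd (G ie (ptr F J ω) (r + 1)) (bt F ω) U) +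
        ((∑ j ∈ range r, gn j * (2 ^ g₀ iw j * vj j)) / 2 ^ g₀ iw (r + 1) -
          (∑ j ∈ range r, mj j * (2 ^ g₀ iw j * vj j)) / 2 ^ g₀ iw (r + 1)) := by
      rw [← hgs, dd_sub]
      field_simp
      ring
    rw [e1]
    refine (abs_add_le _ _).trans ((add_le_add t3 herr).trans ?_)
    rw [← add_div]
    refine div_le_div_of_nonneg_right ?_ (by positivity)
    rw [hY₁, ← pow_add, ← hy]
    have h8 : 1 ≤ y := by omega
    obtain ⟨K, hK⟩ : ∃ K : ℕ, K = (C₁ + 4 + E₁ + E₂ + r + 3) * y := ⟨_, rfl⟩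
    have h9 : (2 : ℝ) ^ (C₁ + 4 * y + E₁ * y) ≤ 2 ^ K := hpw (by rw [hK]; nlinarith)
    have h10 : (2 : ℝ) ^ ((E₂ + 2 + r) * y) ≤ 2 ^ K := hpw (by rw [hK]; nlinarith)
    have h11 : (2 : ℝ) ^ (K + 1) ≤ 2 ^ ((C₁ + 4 + E₁ + E₂ + r + 4) * y) :=
      hpw (by rw [hK]; nlinarith)
    rw [pow_succ] at h11
    linarith

end Pool.TIE19
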