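import Pool.Agent.H73.D2.Tnt
import Pool.Agent.H57.AVG.Adm

/-!
# The closed gradient of the target `N - P(p, u)` from a closed polynomial of the frame

`nwX`: the derivatives of a closed polynomial in the directions of the frame, along the line. `TieH`:
the difference of the charts is a closed polynomial of the frame and a sum of closed numbers times
closed polynomials of the frame, up to the error. `nu_tieN`: the closed gradient `ClU` from `TieH`.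
-/

set_option autoImplicit false

namespace Pool.TIE19

open Finset Real MvPolynomial
open Pool.KA Pool.KSAT Pool.PB Pool.GEN Pool.D2R Pool.D2G30 Pool.ISO Pool.CHT Pool.CHX Pool.V1E
open Pool.PB.Trl (rt rt_mem t_rt)
open Pool.K2S (Sub)
open Pool.AVG57 (upw upw_slam)

/-- **The derivative of a closed polynomial** in the direction `i` of the frame, along the line. -/
noncomputable def nwX {m J : ℕ} (F : Fam m J) (c : ℕ → Fin m) (s : ℕ → ℕ) (r w q₀ : ℕ)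
    (H₀ : LnT F → ℕ → MvPolynomial (Option (Fin m)) ℝ)
    (X : LnT F → MvPolynomial (Option (Fin m)) ℝ) (L : LnT F) (i : Fin r) : Polynomial ℝ :=
  MvPolynomial.aeval (hL c s r w (frH F r q₀ H₀ L) L)
    (pderiv (some i) (pull c s (frH F r q₀ H₀ L) r (X L)))

theorem nwX_deg {m J : ℕ} {F : Fam m J} {c : ℕ → Fin m} {s : ℕ → ℕ} {r w q₀ D K : ℕ}
    {H₀ : LnT F → ℕ → MvPolynomial (Option (Fin m)) ℝ}
    {X : LnT F → MvPolynomial (Option (Fin m)) ℝ} (hH : ∀ L l, (H₀ L l).totalDegree ≤ D)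
    (L : LnT F) (hX : (X L).totalDegree ≤ K) (i : Fin r) :
    (nwX F c s r w q₀ H₀ X L i).natDegree ≤ K * (D + 1) ^ r * (D + 1) := by
  unfold nwX
  have hd : ∀ l, (frH F r q₀ H₀ L l).totalDegree ≤ D := trn_deg (hH _)
  have h1 : ∀ o', (hL c s r w (frH F r q₀ H₀ L) L o').natDegree ≤ D + 1 := by
    intro o'
    cases o' with
    | none =>
      show (lc w L none).natDegree ≤ D + 1
      exact (natDegree_lc _ _ _).trans (by omega)
    | some j =>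
      show (Polynomial.C (2 ^ s j) * (lc w L (some (c j)) -
        MvPolynomial.aeval (lc w L) (frH F r q₀ H₀ L j))).natDegree ≤ _
      refine (Polynomial.natDegree_C_mul_le _ _).trans
        ((Polynomial.natDegree_sub_le _ _).trans
        (max_le ((natDegree_lc _ _ _).trans (by omega)) ?_))
      have h1 := natDegree_aev (K := 1) (D := D) (frH F r q₀ H₀ L j)
        (lc w L) (natDegree_lc _ _) (hd j)
      omega
  have h3 : (pderiv (some i) (pull c s (frH F r q₀ H₀ L) r (X L))).totalDegree ≤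
      K * (D + 1) ^ r := (pd_deg _ _).trans (deg_pull hd hX)
  exact natDegree_aev _ _ h1 h3

theorem nwX_eval {m J : ℕ} {F : Fam m J} {c : ℕ → Fin m} {s : ℕ → ℕ} {r w q₀ : ℕ}
    {H₀ : LnT F → ℕ → MvPolynomial (Option (Fin m)) ℝ}
    {X : LnT F → MvPolynomial (Option (Fin m)) ℝ}
    {G : PtT F → ℕ → MvPolynomial (Option (Fin m)) ℝ} (hw : w ≤ J)
    (hc : Set.InjOn c (Set.Iio r)) (hG : ∀ y l, DepC c l (G y l)) {ω : F.Ω}
    (hfr : frH F r q₀ H₀ (slam F w ω) = trn r (G (ptr F J ω)))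
    (hX : DepC c r (X (slam F w ω))) (i : Fin r) :
    (nwX F c s r w q₀ H₀ X (slam F w ω) i).eval (rt F w ω) =
      dd (X (slam F w ω)) (bt F ω) (fvec F c s r G ω i) := by
  obtain ⟨P, hP⟩ : ∃ P, P = trn r (G (ptr F J ω)) := ⟨_, rfl⟩
  have hPd : ∀ l, DepC c l (P l) := by
    rw [hP]
    exact trn_dep (hG _)
  obtain ⟨p0, p1⟩ := hp_yp (s := s) hc hPd (bt F ω)
  unfold nwX
  rw [hfr, ← hP, Pool.D2G30.eval_aev]
  have e2 : (fun o' => (hL c s r w P (slam F w ω) o').eval (rt F w ω)) =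
      yp c s r P (bt F ω) := funext fun o' => hL_yp hw _ ω o'
  rw [e2, pd_pull, dd_pt hX p0 p1]
  unfold fvec
  rw [hP]

/-- **A number of an earlier window** along the line. -/
noncomputable def mvt {m J : ℕ} {F : Fam m J} (W w : ℕ) (μ : LnT F → ℕ → Polynomial ℝ) (L : LnT F)
    (j : ℕ) : Polynomial ℝ :=
  (μ (upw W w L) j).comp (Polynomial.C (2 ^ W) * lc w L none -
    Polynomial.C (((upw W w L).2.2 : ℕ) : ℝ))

theorem mvt_deg {m J : ℕ} {F : Fam m J} {W w K : ℕ} {μ : LnT F → ℕ → Polynomial ℝ}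
    (h : ∀ L j, (μ L j).natDegree ≤ K) (L : LnT F) (j : ℕ) : (mvt W w μ L j).natDegree ≤ K := by
  unfold mvt
  refine Polynomial.natDegree_comp_le.trans ?_
  have h1 : (Polynomial.C (2 ^ W) * lc w L none -
      Polynomial.C (((upw W w L).2.2 : ℕ) : ℝ)).natDegree ≤ 1 := by
    refine (Polynomial.natDegree_sub_le _ _).trans (max_le ?_ ?_)
    · exact (Polynomial.natDegree_C_mul_le _ _).trans (natDegree_lc _ _ _)
    · rw [Polynomial.natDegree_C]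
      exact Nat.zero_le _
  calc (μ (upw W w L) j).natDegree * _ ≤ K * 1 := Nat.mul_le_mul (h _ _) h1
    _ = K := mul_one _

theorem mvt_eval {m J : ℕ} {F : Fam m J} {W w : ℕ} {μ : LnT F → ℕ → Polynomial ℝ} (hW : W ≤ w)
    (hw : w ≤ J) (ω : F.Ω) (j : ℕ) :
    (mvt W w μ (slam F w ω) j).eval (rt F w ω) = (μ (slam F W ω) j).eval (rt F W ω) := by
  unfold mvt
  rw [upw_slam F hW hw, Polynomial.eval_comp, Polynomial.eval_sub, Polynomial.eval_mul,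
    Polynomial.eval_C, Polynomial.eval_C, eval_lc F hw ω none]
  have h1 : bt F ω none = F.t ω := rfl
  rw [h1, rt_eq F (hW.trans hw) ω]

/-- **The closed polynomials of the frame** of the difference of the charts. -/
def TieH {m J : ℕ} (F : Fam m J) (c : ℕ → Fin m) (s : ℕ → ℕ) (r D MB Q x : ℕ) (o : ℕ → ℕ)
    (g₀ : ℕ → ℕ → ℕ) (B : F.Ω → Prop) (G : ℕ → PtT F → ℕ → MvPolynomial (Option (Fin m)) ℝ)
    (Cp : PtT F → MvPolynomial (Option (Fin m)) ℝ) : Prop :=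
  ∃ (X : LnT F → MvPolynomial (Option (Fin m)) ℝ) (Y : LnT F → ℕ → MvPolynomial (Option (Fin m)) ℝ)
    (μ : LnT F → ℕ → Polynomial ℝ), (∀ L, (X L).totalDegree ≤ D) ∧ (∀ L, DepC c r (X L)) ∧
    (∀ L j, (Y L j).totalDegree ≤ D) ∧ (∀ L, ∀ j < r, DepC c r (Y L j)) ∧
    (∀ L j, (μ L j).natDegree ≤ D) ∧
    ∀ ω, B ω → ∀ V : Option (Fin m) → ℝ, V none = 0 →
      (∀ j < r, |V (some (c j)) - dd (G 0 (ptr F J ω) j) (bt F ω) V| ≤ 1 / 2 ^ s j) →
      ∃ ae : ℝ, |ae - dd (G 2 (ptr F J ω) r) (bt F ω) V| ≤ 2 ^ x * 2 ^ Q / 2 ^ g₀ 2 r ∧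
        |dd (G 2 (ptr F J ω) (r + 1) - Cp (ptr F J ω)) (bt F ω) (up (c r) V ae) -
          (dd (X (slam F (o 1) ω)) (bt F ω) V + ∑ j ∈ range r,
            (μ (slam F (o 1) ω) j).eval (rt F (o 1) ω) * dd (Y (slam F (o 1) ω) j) (bt F ω) V)| ≤
          2 ^ x / 2 ^ (s r + (MB - Q))

/-- **The closed gradient** from `TieH`. -/
theorem nu_tieN (D r C' : ℕ) : ∃ C : ℕ, ∀ {m J : ℕ} {F : Fam m J} {c : ℕ → Fin m}
    {n M ar MB q₀ Q x p e su : ℕ} {s : ℕ → ℕ} {qe : Fin r → ℕ} {o : ℕ → ℕ}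
    {z g gc gT g₀ : ℕ → ℕ → ℕ} {B : F.Ω → Prop}
    {G T : ℕ → PtT F → ℕ → MvPolynomial (Option (Fin m)) ℝ}
    {H TH : ℕ → LnT F → ℕ → MvPolynomial (Option (Fin m)) ℝ}
    {Ht CL : LnT F → MvPolynomial (Option (Fin m)) ℝ}
    {Cp : PtT F → MvPolynomial (Option (Fin m)) ℝ},
    NwDU F c r D n M ar MB q₀ Q x p e su s qe o z g gc gT g₀ B G T H TH Ht CL Cp →
    TieH F c s r D MB Q (C' * (x + 1)) o g₀ B G Cp → ClU F c s r D C MB Q x o B G Cp := by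
  obtain ⟨C₁, hdd⟩ := nvp_dd D r
  obtain ⟨C₂, hC₂, hh⟩ := nu_h D r
  obtain ⟨C₃, hC₃⟩ := pow_unbounded_of_one_lt C₂ (one_lt_two (α := ℝ))
  refine ⟨C₁ + C' + C₃ + 7, ?_⟩
  intro m J F c n M ar MB q₀ Q x p e su s qe o z g gc gT g₀ B G T H TH Ht CL Cp W WN
  obtain ⟨X, Y, μ, dX, pX, dY, pY, dμ, hT⟩ := WN
  refine ⟨fun L i => Polynomial.C (2 ^ s r) * (nwX F c s r (o 1) q₀ (H 0)
    (fun L => X L - nW c r (H 1 L) (CL L)) L i + ∑ j ∈ range r, μ L j *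
      nwX F c s r (o 1) q₀ (H 0) (fun L => Y L j) L i), ?_, ?_⟩
  · intro L i
    refine (Polynomial.natDegree_C_mul_le _ _).trans ((Polynomial.natDegree_add_le _ _).trans
      (max_le ?_ ?_))
    · have h2 : (X L - nW c r (H 1 L) (CL L)).totalDegree ≤ (D + 1) * (D + 1) :=
        (totalDegree_sub _ _).trans (max_le ((dX L).trans (by nlinarith))
          (deg_nW (W.dH 1 L) (W.dCL L)))
      refine (nwX_deg (D := D) (K := (D + 1) * (D + 1))
        (X := fun L => X L - nW c r (H 1 L) (CL L)) (W.dH 0) L h2 i).trans ?_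
      have h3 : (D + 1) * (D + 1) * (D + 1) ^ r * (D + 1) = (D + 1) ^ (r + 3) := by ring
      rw [h3]
      exact Nat.pow_le_pow_right (by omega) (by omega)
    · refine Polynomial.natDegree_sum_le_of_forall_le _ _ fun j _ => ?_
      refine Polynomial.natDegree_mul_le.trans ?_
      have h1 := nwX_deg (D := D) (K := D) (X := fun L => Y L j) (c := c) (s := s) (w := o 1)
        (q₀ := q₀) (W.dH 0) L (dY L j) i
      have h2 := dμ L j
      have h3 : D * (D + 1) ^ r * (D + 1) ≤ D * (D + 1) ^ (r + 1) := le_of_eq (by ring)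
      have h4 : D ≤ D * (D + 1) ^ (r + 1) := Nat.le_mul_of_pos_right _ (by positivity)
      have h5 : D * (D + 1) ^ (r + 1) + D * (D + 1) ^ (r + 1) ≤ (D + 1) ^ (r + 4) := by
        have e1 : (D + 1) ^ (r + 4) = (D + 1) ^ 3 * (D + 1) ^ (r + 1) := by ring
        rw [e1, ← add_mul]
        refine Nat.mul_le_mul_right _ ?_
        nlinarith [Nat.zero_le (D * D * D), Nat.zero_le (D * D)]
      omega
  intro ω hω i
  have h1J : o 1 ≤ J := by have := W.oJ; have := W.o3; have := W.o2; omega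
  have hQM := W.QM
  have Fr := W.toNvP.frd (D' := D) (x' := 2 * x + 2) le_rfl le_rfl
  have hfr := Fr.fr hω
  obtain ⟨L, hLe⟩ : ∃ L, L = slam F (o 1) ω := ⟨_, rfl⟩
  obtain ⟨V, hV⟩ : ∃ V, V = fvec F c s r (G 0) ω i := ⟨_, rfl⟩
  obtain ⟨P, hP⟩ : ∃ P, P = trn r (G 0 (ptr F J ω)) := ⟨_, rfl⟩
  have hPd : ∀ l, DepC c l (P l) := by
    rw [hP]
    exact trn_dep (W.pG 0 _)
  have hPe : ∀ l < r, P l = G 0 (ptr F J ω) l := fun l hl => by
    rw [hP]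
    exact trn_eq hl
  have hVv : V = vec c s P (yp c s r P (bt F ω)) (some i) := by
    rw [hV, hP]
    rfl
  have hV0 : V none = 0 := by
    rw [hVv, vec_none, if_neg (by simp)]
  obtain ⟨p0, p1⟩ := hp_yp (s := s) W.hcr hPd (bt F ω)
  have hVc : ∀ j < r, |V (some (c j)) - dd (G 0 (ptr F J ω) j) (bt F ω) V| ≤ 1 / 2 ^ s j := by
    intro j hj
    have h1 := vec_nat (s := s) W.hcr hPd (yp c s r P (bt F ω)) (some i) hj
    rw [← hVv, dd_pt (hPd j) p0 (fun l hl => p1 l (by omega)), hPe j hj] at h1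
    rw [h1]
    split_ifs
    · rw [abs_of_pos (by positivity)]
    · rw [abs_zero]
      positivity
  obtain ⟨ae, ha1, ha2⟩ := hT ω hω V hV0 hVc
  -- the polynomial at the sample
  have hnWd : DepC c r (nW c r (H 1 L) (CL L)) := dep_nW W.hc1 (W.pH 1 L) (W.pCL L)
  have eT : (Polynomial.C (2 ^ s r) * (nwX F c s r (o 1) q₀ (H 0)
      (fun L => X L - nW c r (H 1 L) (CL L)) (slam F (o 1) ω) i + ∑ j ∈ range r,
        μ (slam F (o 1) ω) j * nwX F c s r (o 1) q₀ (H 0) (fun L => Y L j) (slam F (o 1) ω) i)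
      ).eval (rt F (o 1) ω) = 2 ^ s r * (dd (X L) (bt F ω) V -
        dd (nW c r (G 1 (ptr F J ω)) (Cp (ptr F J ω))) (bt F ω) V + ∑ j ∈ range r,
          (μ L j).eval (rt F (o 1) ω) * dd (Y L j) (bt F ω) V) := by
    rw [Polynomial.eval_mul, Polynomial.eval_C, Polynomial.eval_add, Polynomial.eval_finsetSum]
    congr 1
    rw [nwX_eval (X := fun L => X L - nW c r (H 1 L) (CL L)) h1J W.hcr (W.pG 0) hfr (by
      intro b b' h0 h1
      show eval b (X (slam F (o 1) ω) - nW c r (H 1 (slam F (o 1) ω)) (CL (slam F (o 1) ω))) =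
        eval b' (X (slam F (o 1) ω) - nW c r (H 1 (slam F (o 1) ω)) (CL (slam F (o 1) ω)))
      rw [← hLe, map_sub, map_sub, pX L b b' h0 h1, hnWd b b' h0 h1]) i, ← hV]
    have e1 : dd ((fun L => X L - nW c r (H 1 L) (CL L)) (slam F (o 1) ω)) (bt F ω) V =
        dd (X L) (bt F ω) V - dd (nW c r (G 1 (ptr F J ω)) (Cp (ptr F J ω))) (bt F ω) V := by
      show dd (X (slam F (o 1) ω) - nW c r (H 1 (slam F (o 1) ω)) (CL (slam F (o 1) ω)))
        (bt F ω) V = _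
      rw [dd_sub, W.clA hω, hLe]
    rw [e1]
    congr 1
    refine Finset.sum_congr rfl fun j hj => ?_
    rw [Polynomial.eval_mul, nwX_eval (X := fun L => Y L j) h1J W.hcr (W.pG 0) hfr
      (pY _ j (Finset.mem_range.1 hj)) i, ← hV, ← hLe]
  obtain ⟨a2, ha2d⟩ : ∃ a : ℝ, a = dd (G 2 (ptr F J ω) r) (bt F ω) V := ⟨_, rfl⟩
  rw [← ha2d] at ha1
  have hne : ∀ l < r, c l ≠ c r := fun l hl he => by
    have := W.hc1 (Set.mem_Iio.2 (show l < r + 1 by omega))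
      (Set.mem_Iio.2 (Nat.lt_succ_self r)) he
    omega
  have hupup : ∀ v v' : ℝ, up (c r) (up (c r) V v) v' = up (c r) V v' := by
    intro v v'
    funext o'
    unfold up
    split_ifs <;> rfl
  obtain ⟨n2, k12, -, -⟩ := hdd W.toNvP ω hω V hV0 hVc
  have k4 := hh W ω hω V
  rw [← ha2d] at k4
  have hC2 := W.hC2 ω hω (bt F ω) (bt_box W.ch2 (by omega) hω _)
  obtain ⟨K, hK⟩ : ∃ K : ℝ, K = eval (bt F ω) (pderiv (some (c r)) (Cp (ptr F J ω))) := ⟨_, rfl⟩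
  rw [← hK] at hC2
  have e4 := dd_up (G 2 (ptr F J ω) (r + 1)) (c r) (bt F ω) (up (c r) V ae) a2
  rw [hupup, up_self] at e4
  have e5 : dd (nfw r (G 2 (ptr F J ω)) (Cp (ptr F J ω))) (bt F ω) (up (c r) V a2) =
      dd (G 2 (ptr F J ω) (r + 1)) (bt F ω) (up (c r) V a2) -
        dd (Cp (ptr F J ω)) (bt F ω) (up (c r) V a2) := dd_nfw _ _
  have e9 := dd_up (Cp (ptr F J ω)) (c r) (bt F ω) (up (c r) V ae) a2
  rw [hupup, up_self, ← hK] at e9
  rw [dd_sub, ← hLe] at ha2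
  obtain ⟨Sg, hSg⟩ : ∃ Sg : ℝ, Sg = dd (X L) (bt F ω) V + ∑ j ∈ range r,
    (μ L j).eval (rt F (o 1) ω) * dd (Y L j) (bt F ω) V := ⟨_, rfl⟩
  rw [← hSg] at ha2
  obtain ⟨n1, hn1⟩ : ∃ n1 : ℝ, n1 =
    dd (nW c r (G 1 (ptr F J ω)) (Cp (ptr F J ω))) (bt F ω) V := ⟨_, rfl⟩
  have eT' : (Polynomial.C (2 ^ s r) * (nwX F c s r (o 1) q₀ (H 0)
      (fun L => X L - nW c r (H 1 L) (CL L)) (slam F (o 1) ω) i + ∑ j ∈ range r,
        μ (slam F (o 1) ω) j * nwX F c s r (o 1) q₀ (H 0) (fun L => Y L j) (slam F (o 1) ω) i)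
      ).eval (rt F (o 1) ω) = 2 ^ s r * (Sg - n1) := by
    rw [eT, hSg, hn1]
    ring
  show |(Polynomial.C (2 ^ s r) * (nwX F c s r (o 1) q₀ (H 0)
      (fun L => X L - nW c r (H 1 L) (CL L)) (slam F (o 1) ω) i + ∑ j ∈ range r,
        μ (slam F (o 1) ω) j * nwX F c s r (o 1) q₀ (H 0) (fun L => Y L j) (slam F (o 1) ω) i)
      ).eval (rt F (o 1) ω) - 2 ^ s r * dd (nW c r (G 2 (ptr F J ω)) (Cp (ptr F J ω)) -
        nW c r (G 1 (ptr F J ω)) (Cp (ptr F J ω))) (bt F ω) (fvec F c s r (G 0) ω i)| ≤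
      2 ^ ((C₁ + C' + C₃ + 7) * (x + 1)) / 2 ^ (MB - Q)
  rw [eT', dd_sub, ← hV, ← hn1]
  obtain ⟨nA, hnA⟩ : ∃ nA : ℝ, nA = dd (nW c r (G 2 (ptr F J ω)) (Cp (ptr F J ω))) (bt F ω) V :=
    ⟨_, rfl⟩
  rw [← hnA] at k4 ⊢
  have e6 : 2 ^ s r * (Sg - n1) - 2 ^ s r * (nA - n1) =
      2 ^ s r * ((dd (nfw r (G 2 (ptr F J ω)) (Cp (ptr F J ω))) (bt F ω) (up (c r) V a2) - nA) -
        (dd (G 2 (ptr F J ω) (r + 1)) (bt F ω) (up (c r) V ae) -
          dd (Cp (ptr F J ω)) (bt F ω) (up (c r) V ae) - Sg) +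
        (eval (bt F ω) (pderiv (some (c r)) (G 2 (ptr F J ω) (r + 1))) - K) * (ae - a2)) := by
    rw [e5]
    linear_combination (2 ^ s r : ℝ) * (e4 - e9)
  rw [e6, abs_mul, abs_of_pos (show (0 : ℝ) < 2 ^ s r by positivity)]
  -- the numbers
  obtain ⟨Y₁, hY₁⟩ : ∃ Y₁ : ℝ, Y₁ = 2 ^ (C₁ * (x + 1)) := ⟨_, rfl⟩
  obtain ⟨Y₂, hY₂⟩ : ∃ Y₂ : ℝ, Y₂ = 2 ^ (C' * (x + 1)) := ⟨_, rfl⟩
  rw [← hY₁] at n2
  rw [← hY₂] at ha1 ha2
  have hY10 : 0 < Y₁ := by rw [hY₁]; positivity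
  have hY20 : 0 < Y₂ := by rw [hY₂]; positivity
  obtain ⟨ι, hι⟩ : ∃ ι : ℝ, ι = 1 / 2 ^ (s r + (MB - Q)) := ⟨_, rfl⟩
  have hι0 : 0 < ι := by rw [hι]; positivity
  have hMB : (2 : ℝ) ^ (s r + MB) = 2 ^ (s r + (MB - Q)) * 2 ^ Q := by
    rw [← pow_add]
    congr 1
    omega
  have hQ0 : (0 : ℝ) < 2 ^ Q := by positivity
  have t1 : |dd (G 2 (ptr F J ω) (r + 1)) (bt F ω) (up (c r) V ae) -
      dd (Cp (ptr F J ω)) (bt F ω) (up (c r) V ae) - Sg| ≤ Y₂ * ι := by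
    rw [hι, mul_one_div]
    exact ha2
  have t3 : |(eval (bt F ω) (pderiv (some (c r)) (G 2 (ptr F J ω) (r + 1))) - K) *
      (ae - a2)| ≤ 2 ^ x * Y₂ * ι := by
    rw [abs_mul]
    refine (mul_le_mul hC2 ha1 (abs_nonneg _) (by positivity)).trans (le_of_eq ?_)
    rw [hι, hMB, pow_add 2 (g₀ 2 r) x]
    field_simp
  have t4 : |dd (nfw r (G 2 (ptr F J ω)) (Cp (ptr F J ω))) (bt F ω)
        (up (c r) V a2) - nA| ≤ 2 ^ (C₃ + x) * Y₁ * ι := by
    refine (k4.trans (mul_le_mul_of_nonneg_left n2 (by positivity))).trans ?_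
    have e7 : C₂ * (2 ^ x / 2 ^ (s r + MB)) * (Y₁ * 2 ^ Q) = C₂ * (2 ^ x * Y₁ * ι) := by
      rw [hι, hMB]
      field_simp
    rw [e7, pow_add]
    calc C₂ * (2 ^ x * Y₁ * ι) ≤ 2 ^ C₃ * (2 ^ x * Y₁ * ι) :=
          mul_le_mul_of_nonneg_right hC₃.le (by positivity)
      _ = _ := by ring
  have hsum := (abs_add_le _ _).trans (add_le_add ((abs_sub _ _).trans (add_le_add t4 t1)) t3)
  refine (mul_le_mul_of_nonneg_left hsum (by positivity)).trans ?_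
  have e8 : (2 : ℝ) ^ s r * ι = 1 / 2 ^ (MB - Q) := by
    rw [hι, pow_add]
    field_simp
  have hpw : ∀ {a b : ℕ}, a ≤ b → (2 : ℝ) ^ a ≤ 2 ^ b := fun h =>
    pow_le_pow_right₀ (by norm_num) h
  obtain ⟨Y₃, hY₃⟩ : ∃ Y₃ : ℝ, Y₃ = 2 ^ (C₃ + x) * (Y₁ * Y₂) := ⟨_, rfl⟩
  have hY1' : 1 ≤ Y₁ := by rw [hY₁]; exact one_le_pow₀ (by norm_num)
  have hY2' : 1 ≤ Y₂ := by rw [hY₂]; exact one_le_pow₀ (by norm_num)
  have hp1 : (1 : ℝ) ≤ 2 ^ (C₃ + x) := one_le_pow₀ (by norm_num)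
  have hp2 : (2 : ℝ) ^ x ≤ 2 ^ (C₃ + x) := hpw (by omega)
  have hYY1 : Y₁ ≤ Y₁ * Y₂ := le_mul_of_one_le_right hY10.le hY2'
  have hYY2 : Y₂ ≤ Y₁ * Y₂ := le_mul_of_one_le_left hY20.le hY1'
  have hYY : 0 < Y₁ * Y₂ := by positivity
  have b1 : 2 ^ (C₃ + x) * Y₁ * ι ≤ Y₃ * ι := by
    refine mul_le_mul_of_nonneg_right ?_ hι0.le
    rw [hY₃]
    exact mul_le_mul_of_nonneg_left hYY1 (by positivity)
  have b2 : Y₂ * ι ≤ Y₃ * ι := by
    refine mul_le_mul_of_nonneg_right (hYY2.trans ?_) hι0.le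
    rw [hY₃]
    exact le_mul_of_one_le_left hYY.le hp1
  have b3 : 2 ^ x * Y₂ * ι ≤ Y₃ * ι := by
    refine mul_le_mul_of_nonneg_right ?_ hι0.le
    rw [hY₃]
    exact mul_le_mul hp2 hYY2 hY20.le (by positivity)
  have b5 : 2 ^ (C₃ + x) * Y₁ * ι + Y₂ * ι + 2 ^ x * Y₂ * ι ≤ 4 * Y₃ * ι := by
    have : 0 < Y₃ * ι := by
      rw [hY₃]
      positivity
    linarith
  refine (mul_le_mul_of_nonneg_left b5 (by positivity)).trans ?_
  have e9 : 2 ^ s r * (4 * Y₃ * ι) = 4 * Y₃ * (2 ^ s r * ι) := by ring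
  rw [e9, e8, mul_one_div]
  refine div_le_div_of_nonneg_right ?_ (by positivity)
  have e10 : 4 * Y₃ = 2 ^ (2 + (C₃ + x) + C₁ * (x + 1) + C' * (x + 1)) := by
    rw [hY₃, hY₁, hY₂]
    simp only [pow_add]
    ring
  rw [e10]
  exact hpw (by nlinarith)

end Pool.TIE19
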