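import Pool.Agent.H19.STAT.Sys2

/-!
# Visible records of a cell

`VR`: a visible base record `r₀`, such that the context at `(0, 0)` has at most `C₁ M z` bits given
it. `rcv i j`: the base record and the labels at the point of the places which come before `(i, j)`:
the places `(i - a - e, j - e)`. It is a function of the exact point, and of the context and the
time. The records are nested, and `rcv i j` has at most `2 C₁ M z` bits given the base record, for
all places: so the mean of the growth of one step over a box of side `M` is bounded.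
-/

set_option autoImplicit false

namespace Pool.STAT

open Finset
open Pool.Agent.H49.Ent Pool.Agent.H32.Dense Pool.STK

namespace NDat2

/-- **A visible base record.** -/
structure VR (D : NDat2) (M z : ℕ) (C₁ : ℝ) (q : D.Ω → ℝ) {R₀ : Type} (r₀ : D.Ω → R₀) :
    Prop where
  pt : Det q D.pt r₀
  c : ∀ i ≤ M, ∀ j ≤ M, Det q (fun ω => (D.c i j ω, D.T ω)) r₀
  few : CH q (D.c 0 0) (fun ω => (r₀ ω, D.T ω)) ≤ C₁ * M * z

/-- The places before `(i, j)`. -/
def Cone (i j : ℕ) (t : ℕ × ℕ) : Prop := t.2 ≤ j ∧ t.1 + j ≤ i + t.2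

open Classical in
/-- **The visible record** at `(i, j)`. -/
noncomputable def rcv (D : NDat2) {R₀ : Type} (r₀ : D.Ω → R₀) (i j : ℕ) (ω : D.Ω) :
    R₀ × (ℕ × ℕ → Option D.S) :=
  (r₀ ω, fun t => if Cone i j t then some (D.s t.1 t.2 ω) else none)

variable {D : NDat2} {R₀ : Type} {r₀ : D.Ω → R₀} {q : D.Ω → ℝ}

theorem rcv_base (i j : ℕ) : Det q (D.rcv r₀ i j) r₀ := fun _ _ _ _ h => (Prod.ext_iff.1 h).1

/-- The records are nested. -/
theorem rcv_mono {i j i' j' : ℕ} (h1 : j ≤ j') (h2 : i + j' ≤ i' + j) :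
    Det q (D.rcv r₀ i' j') (D.rcv r₀ i j) := by
  classical
  intro ω ω' _ _ h
  refine Prod.ext (Prod.ext_iff.1 h).1 ?_
  funext t
  have h3 := congrFun (Prod.ext_iff.1 h).2 t
  simp only [rcv] at h3 ⊢
  by_cases ht : Cone i j t
  · have ht' : Cone i' j' t := by
      unfold Cone at ht ⊢
      omega
    rw [if_pos ht'] at h3
    rw [if_pos ht, if_pos ht]
    rw [if_pos ht'] at h3
    exact h3
  · rw [if_neg ht, if_neg ht]

theorem rcv_i (i j : ℕ) : Det q (D.rcv r₀ (i + 1) j) (D.rcv r₀ i j) :=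
  rcv_mono le_rfl (by omega)

theorem rcv_ij (i j : ℕ) : Det q (D.rcv r₀ (i + 1) (j + 1)) (D.rcv r₀ i j) :=
  rcv_mono (by omega) (by omega)

/-- The label at a place before `(i, j)` is a function of the record. -/
theorem rcv_s {i j : ℕ} {t : ℕ × ℕ} (ht : Cone i j t) : Det q (D.rcv r₀ i j) (D.s t.1 t.2) := by
  classical
  intro ω ω' _ _ h
  have h3 := congrFun (Prod.ext_iff.1 h).2 t
  simp only [rcv] at h3
  rw [if_pos ht, if_pos ht] at h3
  exact Option.some.inj h3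

theorem rcv_s_self (i j : ℕ) : Det q (D.rcv r₀ i j) (D.s i j) :=
  rcv_s (t := (i, j)) ⟨le_rfl, le_rfl⟩

/-- **The record is a function of the exact point.** -/
theorem rcv_pt {M : ℕ} (hp : Det q D.pt r₀) (hs : ∀ i ≤ M, ∀ j ≤ M, Det q D.pt (D.s i j))
    {i j : ℕ} (hi : i ≤ M) (hj : j ≤ M) : Det q D.pt (D.rcv r₀ i j) := by
  classical
  intro ω ω' a b h
  refine Prod.ext (hp ω ω' a b h) ?_
  funext t
  simp only [rcv]
  by_cases ht : Cone i j t
  · rw [if_pos ht, if_pos ht]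
    unfold Cone at ht
    rw [hs t.1 (by omega) t.2 (by omega) ω ω' a b h]
  · rw [if_neg ht, if_neg ht]

section cell

variable {n K J a₀ w₀ z M : ℕ} {lam gam : ℕ → ℝ} {κ C₁ : ℝ}

theorem Ok2.c_row (hO : D.Ok2 n K J a₀ w₀ z M lam gam κ C₁ q) {i j k : ℕ} (hi : i + k ≤ M)
    (hj : j ≤ M) : Det q (D.c (i + k) j) (D.c i j) := by
  induction k with
  | zero => exact fun _ _ _ _ h => h
  | succ k ih =>
    intro ω ω' a b h
    exact ih (by omega) ω ω' a b (hO.c_i (i + k) (by omega) j hj ω ω' a b h)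

theorem Ok2.c_diag (hO : D.Ok2 n K J a₀ w₀ z M lam gam κ C₁ q) {i j k : ℕ} (hi : i + k ≤ M)
    (hj : j + k ≤ M) : Det q (D.c (i + k) (j + k)) (D.c i j) := by
  induction k with
  | zero => exact fun _ _ _ _ h => h
  | succ k ih =>
    intro ω ω' a b h
    exact ih (by omega) (by omega) ω ω' a b
      (hO.c_ij (i + k) (by omega) (j + k) (by omega) ω ω' a b h)

/-- The context at a place before `(i, j)` is a function of the context at `(i, j)`. -/
theorem Ok2.c_cone (hO : D.Ok2 n K J a₀ w₀ z M lam gam κ C₁ q) {i j : ℕ} (hi : i ≤ M)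
    (hj : j ≤ M) {t : ℕ × ℕ} (ht : Cone i j t) : Det q (D.c i j) (D.c t.1 t.2) := by
  obtain ⟨a, b⟩ := t
  unfold Cone at ht
  simp only at ht ⊢
  obtain ⟨e, he⟩ : ∃ e, e = j - b := ⟨_, rfl⟩
  obtain ⟨k, hk⟩ : ∃ k, k = i - e - a := ⟨_, rfl⟩
  have e1 : i = a + k + e := by omega
  have e2 : j = b + e := by omega
  subst e1
  rw [e2]
  intro ω ω' p p' h
  exact hO.c_row (by omega) (by omega) ω ω' p p' (hO.c_diag (by omega) (by omega) ω ω' p p' h)

/-- **The record is a function of the context and of the time.** -/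
theorem rcv_c (hO : D.Ok2 n K J a₀ w₀ z M lam gam κ C₁ q)
    (hr : ∀ i ≤ M, ∀ j ≤ M, Det q (fun ω => (D.c i j ω, D.T ω)) r₀) {i j : ℕ} (hi : i ≤ M)
    (hj : j ≤ M) : Det q (fun ω => (D.c i j ω, D.T ω)) (D.rcv r₀ i j) := by
  classical
  intro ω ω' a b h
  refine Prod.ext (hr i hi j hj ω ω' a b h) ?_
  funext t
  simp only [rcv]
  by_cases ht : Cone i j t
  · rw [if_pos ht, if_pos ht]
    have h1 := hO.c_cone hi hj ht ω ω' a b (Prod.ext_iff.1 h).1
    unfold Cone at ht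
    rw [hO.s_c t.1 (by omega) t.2 (by omega) ω ω' a b (Prod.ext h1 (Prod.ext_iff.1 h).2)]
  · rw [if_neg ht, if_neg ht]

theorem Ok2.few_row (hO : D.Ok2 n K J a₀ w₀ z M lam gam κ C₁ q) {i j k : ℕ} (hi : i + k ≤ M)
    (hj : j ≤ M) : CH q (D.c (i + k) j) (D.c i j) ≤ k * (C₁ * z) := by
  have hq := hO.isLaw.nonneg
  induction k with
  | zero =>
    have : CH q (D.c (i + 0) j) (D.c i j) = 0 := CH_eq_zero hq (fun _ _ _ _ h => h)
    rw [this]
    simp
  | succ k ih =>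
    have h1 := ih (by omega)
    have h2 := hO.i_few (i + k) (by omega) j hj
    have h3 := CH_le_add hq (D.c (i + (k + 1)) j) (D.c (i + k) j) (D.c i j)
    have h4 : CH q (D.c (i + (k + 1)) j) (fun ω => (D.c (i + k) j ω, D.c i j ω)) ≤
        CH q (D.c (i + k + 1) j) (D.c (i + k) j) :=
      CH_mono_cond hq fun _ _ _ _ h => (Prod.ext_iff.mp h).1
    push_cast
    linarith

theorem Ok2.few_diag (hO : D.Ok2 n K J a₀ w₀ z M lam gam κ C₁ q) {i j k : ℕ} (hi : i + k ≤ M)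
    (hj : j + k ≤ M) : CH q (D.c (i + k) (j + k)) (D.c i j) ≤ k * (C₁ * z) := by
  have hq := hO.isLaw.nonneg
  induction k with
  | zero =>
    have : CH q (D.c (i + 0) (j + 0)) (D.c i j) = 0 := CH_eq_zero hq (fun _ _ _ _ h => h)
    rw [this]
    simp
  | succ k ih =>
    have h1 := ih (by omega) (by omega)
    have h2 := hO.ij_few (i + k) (by omega) (j + k) (by omega)
    have h3 := CH_le_add hq (D.c (i + (k + 1)) (j + (k + 1))) (D.c (i + k) (j + k)) (D.c i j)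
    have h4 : CH q (D.c (i + (k + 1)) (j + (k + 1)))
        (fun ω => (D.c (i + k) (j + k) ω, D.c i j ω)) ≤
        CH q (D.c (i + k + 1) (j + k + 1)) (D.c (i + k) (j + k)) :=
      CH_mono_cond hq fun _ _ _ _ h => (Prod.ext_iff.mp h).1
    push_cast
    linarith

/-- Every context has few bits given the context at `(0, 0)`. -/
theorem Ok2.few_zero (hO : D.Ok2 n K J a₀ w₀ z M lam gam κ C₁ q) (hC₁ : 0 ≤ C₁) {i j : ℕ}
    (hi : i ≤ M) (hj : j ≤ M) : CH q (D.c i j) (D.c 0 0) ≤ M * (C₁ * z) := by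
  have hq := hO.isLaw.nonneg
  have hz : (0 : ℝ) ≤ C₁ * z := mul_nonneg hC₁ (Nat.cast_nonneg z)
  rcases le_total j i with h | h
  · obtain ⟨k, rfl⟩ := Nat.exists_eq_add_of_le' h
    have h1 := hO.few_row (i := 0) (j := 0) (k := k) (by omega) (by omega)
    have h2 := hO.few_diag (i := k) (j := 0) (k := j) (by omega) (by omega)
    rw [Nat.zero_add] at h1 h2
    have h3 := CH_le_add hq (D.c (k + j) j) (D.c k 0) (D.c 0 0)
    have h4 : CH q (D.c (k + j) j) (fun ω => (D.c k 0 ω, D.c 0 0 ω)) ≤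
        CH q (D.c (k + j) j) (D.c k 0) :=
      CH_mono_cond hq fun _ _ _ _ h => (Prod.ext_iff.mp h).1
    have h5 : ((k + j : ℕ) : ℝ) * (C₁ * z) ≤ M * (C₁ * z) :=
      mul_le_mul_of_nonneg_right (by exact_mod_cast hi) hz
    push_cast at h5
    linarith
  · obtain ⟨k, rfl⟩ := Nat.exists_eq_add_of_le' h
    have h2 := hO.few_diag (i := 0) (j := 0) (k := k + i) (by omega) (by omega)
    rw [Nat.zero_add] at h2
    have h1 : CH q (D.c i (k + i)) (D.c 0 0) ≤ CH q (D.c (k + i) (k + i)) (D.c 0 0) := by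
      refine CH_mono_left hq fun ω ω' a b h => ?_
      exact hO.c_cone (i := k + i) (j := k + i) (by omega) (by omega) (t := (i, k + i))
        ⟨le_rfl, by simp⟩ ω ω' a b (Prod.ext_iff.1 h).1
    have h5 : ((k + i : ℕ) : ℝ) * (C₁ * z) ≤ M * (C₁ * z) :=
      mul_le_mul_of_nonneg_right (by exact_mod_cast hj) hz
    linarith

/-- **All records have at most `2 C₁ M z` bits given the base record.** -/
theorem rcv_tot (hO : D.Ok2 n K J a₀ w₀ z M lam gam κ C₁ q) (hC₁ : 0 ≤ C₁)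
    (hV : D.VR M z C₁ q r₀) {i j : ℕ} (hi : i ≤ M) (hj : j ≤ M) :
    CH q (D.rcv r₀ i j) (fun ω => (r₀ ω, D.T ω)) ≤ 2 * C₁ * M * z := by
  have hq := hO.isLaw.nonneg
  have h1 : CH q (D.rcv r₀ i j) (fun ω => (r₀ ω, D.T ω)) ≤
      CH q (D.c i j) (fun ω => (r₀ ω, D.T ω)) :=
    CH_mono_left hq fun ω ω' a b h => by
      have h2 := Prod.ext_iff.1 h
      exact rcv_c hO hV.c hi hj ω ω' a b (Prod.ext h2.1 (Prod.ext_iff.1 h2.2).2)
  have h2 := CH_le_add hq (D.c i j) (D.c 0 0) (fun ω => (r₀ ω, D.T ω))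
  have h3 : CH q (D.c i j) (fun ω => (D.c 0 0 ω, (r₀ ω, D.T ω))) ≤ CH q (D.c i j) (D.c 0 0) :=
    CH_mono_cond hq fun _ _ _ _ h => (Prod.ext_iff.mp h).1
  have h4 := hO.few_zero hC₁ hi hj
  have h5 := hV.few
  nlinarith

/-- **One step**: the growth is a difference of the potential `CH (rcv) (r₀, T)`. -/
theorem rcv_step (hq : ∀ ω, 0 ≤ q ω) {i j u v : ℕ} (hu : u ≤ i) :
    CH q (D.rcv r₀ (i - u) (j + v)) (fun ω => (D.rcv r₀ i j ω, D.T ω)) ≤
      CH q (D.rcv r₀ (i + v) (j + v)) (fun ω => (r₀ ω, D.T ω)) -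
        CH q (D.rcv r₀ i j) (fun ω => (r₀ ω, D.T ω)) := by
  have h1 : CH q (D.rcv r₀ (i - u) (j + v)) (fun ω => (D.rcv r₀ i j ω, D.T ω)) ≤
      CH q (D.rcv r₀ (i + v) (j + v)) (fun ω => (D.rcv r₀ i j ω, D.T ω)) :=
    CH_mono_left hq fun ω ω' a b h =>
      rcv_mono (q := q) le_rfl (by omega) ω ω' a b (Prod.ext_iff.1 h).1
  have h2 := CH_chain hq (D.rcv r₀ (i + v) (j + v)) (D.rcv r₀ i j) (fun ω => (r₀ ω, D.T ω))
  have h3 : CH q (fun ω => (D.rcv r₀ (i + v) (j + v) ω, D.rcv r₀ i j ω))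
      (fun ω => (r₀ ω, D.T ω)) = CH q (D.rcv r₀ (i + v) (j + v)) (fun ω => (r₀ ω, D.T ω)) := by
    refine CH_congr hq ?_ ?_ (fun _ _ _ _ h => h) (fun _ _ _ _ h => h)
    · exact fun _ _ _ _ h => (Prod.ext_iff.1 (Prod.ext_iff.1 h).1).1
    · intro ω ω' a b h
      exact Prod.ext (Prod.ext_iff.1 h).1
        (rcv_mono (q := q) (by omega) (by omega) ω ω' a b (Prod.ext_iff.1 h).1)
  have h4 : CH q (D.rcv r₀ (i + v) (j + v)) (fun ω => (D.rcv r₀ i j ω, (r₀ ω, D.T ω))) =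
      CH q (D.rcv r₀ (i + v) (j + v)) (fun ω => (D.rcv r₀ i j ω, D.T ω)) := by
    refine CH_congr hq (fun _ _ _ _ h => (Prod.ext_iff.1 h).1)
      (fun _ _ _ _ h => (Prod.ext_iff.1 h).1) ?_ ?_
    · exact fun _ _ _ _ h => Prod.ext (Prod.ext_iff.1 h).1
        (Prod.ext_iff.1 (Prod.ext_iff.1 h).2).2
    · intro ω ω' a b h
      exact Prod.ext (Prod.ext_iff.1 h).1
        (Prod.ext (rcv_base i j ω ω' a b (Prod.ext_iff.1 h).1) (Prod.ext_iff.1 h).2)
  linarith

end cell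

end NDat2

end Pool.STAT
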