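import Pool.Agent.H19.TIE.Rnd

/-!
# The record of a label

The rounding of the label at `(i, j)` on the cell of the time of length `2 ^ (-(a₀ + i z))` is a
function of the label and of the time. It has few bits given the line and the cell, and the label
has few bits given the rounding and the exact time.
-/

set_option autoImplicit false

namespace Pool.TIE

open Finset MvPolynomial
open Pool.Agent.H49.Ent Pool.Agent.H32.Dense Pool.STK Pool.STAT Pool.STAT.CLO
open Pool.STAT.Glu (dilB DilP Bt Et)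

namespace Rnd

/-- The degree in natural coordinates. -/
def cD (n K : ℕ) : ℕ := dd n K (n + 1) * (dd n K (n + 1) + 1) ^ (n + 1)

/-- The precision of the rounding. -/
noncomputable def dl (n K : ℕ) : ℝ := 1 / ((ex (n + 1) (cD n K)).card + 1)

theorem dl_pos (n K : ℕ) : 0 < dl n K := by
  unfold dl
  positivity

theorem dl_card {n K l : ℕ} (hl : l ≤ n + 1) : (ex l (cD n K)).card * dl n K ≤ 1 := by
  unfold dl
  rw [mul_one_div, div_le_one (by positivity)]
  have h1 : (ex l (cD n K)).card ≤ (ex (n + 1) (cD n K)).card := Finset.card_le_card (ex_mono hl)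
  have h2 : ((ex l (cD n K)).card : ℝ) ≤ (ex (n + 1) (cD n K)).card := by exact_mod_cast h1
  linarith

section geo

variable {n K : ℕ} {S : ℕ → PN} (hS : TriN S) (hK : ∀ l, (S l).totalDegree ≤ K) (g : ℕ → ℕ)

include hS hK

theorem deg1 {l : ℕ} (hl : l ≤ n) : (ntl g (rnd g (dl n K) S) (S l)).totalDegree ≤ cD n K := by
  refine (ntl_deg (rnd_tri hS g _) g (n := n) (B := dd n K (n + 1)) (l := l) (by omega)
    (fun k hk => (rnd_deg hS g _ hK k (by omega)).trans (dd_mono (by omega))) (hS l) (hK l)).trans ?_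
  exact Nat.mul_le_mul_right _ (dd_mono (n := n) (K := K) (Nat.zero_le (n + 1)))

theorem deg2 {l : ℕ} (hl : l ≤ n) :
    (ntl g (rnd g (dl n K) S) (rnd g (dl n K) S l - S l)).totalDegree ≤ cD n K := by
  refine (ntl_deg (rnd_tri hS g _) g (n := n) (B := dd n K (n + 1)) (l := l) (by omega)
    (fun k hk => (rnd_deg hS g _ hK k (by omega)).trans (dd_mono (by omega)))
    (AdxRow.vars_sub_le (rnd_tri hS g _ l) (hS l)) (K := dd n K (n + 1)) ?_).trans le_rfl
  exact (totalDegree_sub _ _).trans (max_le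
    ((rnd_deg hS g _ hK l (by omega)).trans (dd_mono (by omega)))
    ((hK l).trans (dd_mono (n := n) (K := K) (Nat.zero_le (n + 1)))))

/-- The rounded system is near. -/
theorem near_pt {l : ℕ} (h0 : l ≠ 0) (hl : l ≤ n) {ρ : ℝ} (hρ : 1 ≤ ρ) {b : ℕ → ℝ}
    (hb : ∀ j < l, |nc g (rnd g (dl n K) S) b j| ≤ ρ) :
    |eval b (rnd g (dl n K) S l) - eval b (S l)| ≤ ρ ^ cD n K / 2 ^ g l := by
  have h1 := rnd_near hS g (dl n K) (dl_pos n K) h0 (deg1 hS hK g hl)
  rw [← map_sub, eval_nat (rnd_tri hS g _) g b]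
  refine (eval_le hρ (ntl_vars (rnd_tri hS g _) g (AdxRow.vars_sub_le (rnd_tri hS g _ l) (hS l)))
    (deg2 hS hK g hl) hb).trans ?_
  have h2 : n1 (ntl g (rnd g (dl n K) S) (rnd g (dl n K) S l - S l)) ≤ 1 / 2 ^ g l :=
    h1.trans (div_le_div_of_nonneg_right (dl_card (by omega)) (by positivity))
  have h3 : (0 : ℝ) ≤ ρ ^ cD n K := by positivity
  calc n1 (ntl g (rnd g (dl n K) S) (rnd g (dl n K) S l - S l)) * ρ ^ cD n K ≤
        1 / 2 ^ g l * ρ ^ cD n K := mul_le_mul_of_nonneg_right h2 h3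
    _ = _ := by ring

end geo

/-- The radii. -/
noncomputable def rr (c : ℕ) : ℕ → ℝ
  | 0 => 3
  | k + 1 => rr c k + 1 + rr c k ^ c

theorem rr_ge (c k : ℕ) : 3 ≤ rr c k := by
  induction k with
  | zero => exact le_rfl
  | succ k ih =>
    have : 0 ≤ rr c k ^ c := pow_nonneg (by linarith) c
    show 3 ≤ rr c k + 1 + rr c k ^ c
    linarith

theorem rr_mono (c : ℕ) {k k' : ℕ} (h : k ≤ k') : rr c k ≤ rr c k' := by
  induction k', h using Nat.le_induction with
  | base => exact le_rfl
  | succ m _ ih =>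
    have h1 := rr_ge c m
    have : 0 ≤ rr c m ^ c := pow_nonneg (by linarith) c
    show rr c k ≤ rr c m + 1 + rr c m ^ c
    linarith

/-- Natural coordinates of a point of the box of `S` over the rounded system. -/
theorem nc_box {n K : ℕ} {S : ℕ → PN} (hS : TriN S) (hK : ∀ l, (S l).totalDegree ≤ K)
    (g : ℕ → ℕ) {m : ℕ} (hm : m ≤ n + 1) {b : ℕ → ℝ}
    (h0 : |nc g (rnd g (dl n K) S) b 0| ≤ 3)
    (hb : ∀ l, 1 ≤ l → l < m → |b l - eval b (S l)| ≤ 1 / 2 ^ g l) (j : ℕ) (hj : j < m) :
    |nc g (rnd g (dl n K) S) b j| ≤ rr (cD n K) j := by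
  induction j using Nat.strong_induction_on with
  | _ j ih =>
    rcases Nat.eq_zero_or_pos j with rfl | hj0
    · exact h0
    · obtain ⟨k, rfl⟩ : ∃ k, j = k + 1 := ⟨j - 1, by omega⟩
      have hr := rr_ge (cD n K) k
      have h1 := near_pt hS hK g (l := k + 1) (by omega) (by omega) (by linarith : 1 ≤ rr (cD n K) k)
        (b := b) fun i hi => (ih i hi (by omega)).trans (rr_mono _ (by omega))
      have h2 := hb (k + 1) (by omega) hj
      rw [nc_le]
      have h3 : |b (k + 1) - eval b (rnd g (dl n K) S (k + 1))| ≤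
          |b (k + 1) - eval b (S (k + 1))| +
            |eval b (rnd g (dl n K) S (k + 1)) - eval b (S (k + 1))| := by
        have := abs_sub (b (k + 1) - eval b (S (k + 1)))
          (eval b (rnd g (dl n K) S (k + 1)) - eval b (S (k + 1)))
        rwa [sub_sub_sub_cancel_right] at this
      refine (h3.trans (add_le_add h2 h1)).trans ?_
      rw [← add_div]
      refine div_le_div_of_nonneg_right ?_ (by positivity)
      show 1 + rr (cD n K) k ^ cD n K ≤ rr (cD n K) k + 1 + rr (cD n K) k ^ cD n K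
      linarith

/-- A point of the natural box of the rounded system is in the dilated box of `S`. -/
theorem box_in {n K : ℕ} {S : ℕ → PN} (hS : TriN S) (hK : ∀ l, (S l).totalDegree ≤ K)
    (g : ℕ → ℕ) {m : ℕ} (hm : m ≤ n + 1) {b : ℕ → ℝ}
    (hb : ∀ j < m, |nc g (rnd g (dl n K) S) b j| ≤ 1) (l : ℕ) (l1 : 1 ≤ l) (l2 : l < m) :
    |b l - eval b (S l)| ≤ 2 / 2 ^ g l := by
  have h1 := near_pt hS hK g (l := l) (by omega) (by omega) le_rfl (b := b)
    fun i hi => hb i (by omega)
  rw [one_pow] at h1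
  have h2 := nc_le.1 (hb l l2)
  have h3 := abs_add_le (b l - eval b (rnd g (dl n K) S l))
    (eval b (rnd g (dl n K) S l) - eval b (S l))
  rw [sub_add_sub_cancel] at h3
  refine (h3.trans (add_le_add h2 h1)).trans (le_of_eq ?_)
  ring

/-- Two systems with the same rounding before `l`, near to the same polynomial: the next digits
differ by a constant. -/
theorem few_int (n K : ℕ) : ∃ L : ℝ, 0 ≤ L ∧ ∀ (g : ℕ → ℕ) (S S' : ℕ → PN) (l : ℕ), TriN S →
    TriN S' → (∀ l, (S l).totalDegree ≤ K) → (∀ l, (S' l).totalDegree ≤ K) → l ≠ 0 → l ≤ n →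
    (∀ k < l, rnd g (dl n K) S k = rnd g (dl n K) S' k) → ∀ C₀ : ℝ, 0 ≤ C₀ →
    (∀ b : ℕ → ℝ, (∀ j < l, |nc g (rnd g (dl n K) S) b j| ≤ 1) →
      |eval b (S l) - eval b (S' l)| ≤ C₀ / 2 ^ g l) → ∀ k,
    |((⌊(ntl g (rnd g (dl n K) S) (S l)).coeff k / (dl n K / 2 ^ g l)⌋ -
      ⌊(ntl g (rnd g (dl n K) S') (S' l)).coeff k / (dl n K / 2 ^ g l)⌋ : ℤ) : ℝ)| ≤
        L * C₀ + 1 := by
  obtain ⟨C, hC, hc⟩ : ∃ C : ℕ → ℝ, (∀ i, 1 ≤ C i) ∧ ∀ i, ∀ (F : PN) (S : ℝ),
      F.vars ⊆ range i → F.totalDegree ≤ cD n K →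
      (∀ y : ℕ → ℝ, (∀ j < i, |y j| ≤ 1) → |eval y F| ≤ S) → n1 F ≤ C i * S := by
    choose C hC using fun i => n1_of_cube i (cD n K)
    exact ⟨C, fun i => (hC i).1, fun i => (hC i).2⟩
  obtain ⟨C', hC'⟩ : ∃ C' : ℝ, C' = ∑ j ∈ range (n + 1), C j := ⟨_, rfl⟩
  have h1 : ∀ i ≤ n, C i ≤ C' := fun i hi => by
    rw [hC']
    exact Finset.single_le_sum (f := C) (fun j _ => zero_le_one.trans (hC j))
      (mem_range.2 (by omega))
  have hC'0 : 0 ≤ C' := zero_le_one.trans ((hC 0).trans (h1 0 (Nat.zero_le _)))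
  refine ⟨C' / dl n K, div_nonneg hC'0 (dl_pos n K).le, ?_⟩
  intro g S S' l hS hS' hK hK' hl hln h C₀ hC₀ hb k
  obtain ⟨P, hP⟩ : ∃ P, P = rnd g (dl n K) S := ⟨_, rfl⟩
  have hPt : TriN P := by rw [hP]; exact rnd_tri hS g _
  have e1 : ntl g (rnd g (dl n K) S') (S' l) = ntl g P (S' l) :=
    ntl_congr (rnd_tri hS' g _) hPt g (fun k hk => by rw [hP]; exact (h k hk).symm) (hS' l)
  rw [e1, ← hP]
  rw [← hP] at hb
  have hd1 : (ntl g P (S l)).totalDegree ≤ cD n K := by rw [hP]; exact deg1 hS hK g hln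
  have hd2 : (ntl g P (S' l)).totalDegree ≤ cD n K := by
    rw [← e1]
    exact deg1 hS' hK' g hln
  have h2 : n1 (ntl g P (S l) - ntl g P (S' l)) ≤ C' * (C₀ / 2 ^ g l) := by
    refine (hc l _ (C₀ / 2 ^ g l) (AdxRow.vars_sub_le (ntl_vars hPt g (hS l))
      (ntl_vars hPt g (hS' l))) ((totalDegree_sub _ _).trans (max_le hd1 hd2))
      fun y hy => ?_).trans (mul_le_mul_of_nonneg_right (h1 l hln) (by positivity))
    rw [map_sub]
    have e2 : ∀ F : PN, eval y (ntl g P F) = eval (fun j => eval y (nuc g P j)) F := fun F =>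
      AdxRow.evl_bnd y _ F
    rw [e2, e2]
    refine hb _ fun j hj => ?_
    rw [nc_nuc hPt]
    exact hy j hj
  have h3 : |(ntl g P (S l)).coeff k - (ntl g P (S' l)).coeff k| ≤ C' * (C₀ / 2 ^ g l) := by
    rw [← coeff_sub]
    exact (coeff_le _ k).trans h2
  have hδ := dl_pos n K
  have hD : 0 < dl n K / 2 ^ g l := by positivity
  have h4 : |(ntl g P (S l)).coeff k / (dl n K / 2 ^ g l) -
      (ntl g P (S' l)).coeff k / (dl n K / 2 ^ g l)| ≤ C' / dl n K * C₀ := by
    rw [← sub_div, abs_div, abs_of_pos hD, div_le_iff₀ hD]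
    refine h3.trans (le_of_eq ?_)
    field_simp
  have e3 := Int.floor_le ((ntl g P (S l)).coeff k / (dl n K / 2 ^ g l))
  have e4 := Int.lt_floor_add_one ((ntl g P (S l)).coeff k / (dl n K / 2 ^ g l))
  have e5 := Int.floor_le ((ntl g P (S' l)).coeff k / (dl n K / 2 ^ g l))
  have e6 := Int.lt_floor_add_one ((ntl g P (S' l)).coeff k / (dl n K / 2 ^ g l))
  rw [abs_le] at h4 ⊢
  push_cast
  constructor <;> linarith [h4.1, h4.2]

end Rnd

open Rnd

/-- The centre of the cell. -/
noncomputable def tcc (D : NDat2) (J a : ℕ) (ω : D.Ω) : ℝ :=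
  (((D.T ω / 2 ^ (J - a) : ℕ) : ℝ) + 1 / 2) / 2 ^ a

/-- The label at `(i, j)` on the cell. -/
noncomputable def Sc (D : NDat2) (J a i j : ℕ) (ω : D.Ω) : ℕ → PN :=
  Function.update (D.Ψ i j ω) 0 (C (tcc D J a ω))

/-- The precisions. -/
def gc (D : NDat2) (a i j : ℕ) : ℕ → ℕ := Function.update (D.g i j) 0 (a + 1)

/-- **The record** at `(i, j)`. -/
noncomputable def rec (D : NDat2) (n K J a i j : ℕ) (ω : D.Ω) (l : Fin (n + 1)) : PN :=
  rnd (gc D a i j) (dl n K) (Sc D J a i j ω) l

theorem Sc_tri {D : NDat2} (hG : ∀ i j x, TriN (D.G i j x)) (J a i j : ℕ) (ω : D.Ω) :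
    TriN (Sc D J a i j ω) := by
  intro k
  unfold Sc
  by_cases h : k = 0
  · subst h
    rw [Function.update_self]
    exact AdxRow.vars_C_le _
  · rw [Function.update_of_ne h]
    exact hG _ _ _ k

theorem Sc_deg {D : NDat2} {K : ℕ} (hG : ∀ i j x l, (D.G i j x l).totalDegree ≤ K)
    (J a i j : ℕ) (ω : D.Ω) (k : ℕ) : (Sc D J a i j ω k).totalDegree ≤ K := by
  unfold Sc
  by_cases h : k = 0
  · subst h
    rw [Function.update_self, totalDegree_C]
    exact Nat.zero_le _
  · rw [Function.update_of_ne h]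
    exact hG _ _ _ k

theorem gc_ne {D : NDat2} {a i j k : ℕ} (h : k ≠ 0) : gc D a i j k = D.g i j k :=
  Function.update_of_ne h _ _

theorem Sc_ne {D : NDat2} {J a i j k : ℕ} {ω : D.Ω} (h : k ≠ 0) :
    Sc D J a i j ω k = D.Ψ i j ω k := Function.update_of_ne h _ _

/-- The time coordinate over the rounded system. -/
theorem nc_time {D : NDat2} {n K J a i j : ℕ} {ω : D.Ω} {b : ℕ → ℝ} :
    nc (gc D a i j) (rnd (gc D a i j) (dl n K) (Sc D J a i j ω)) b 0 =
      2 ^ (a + 1) * (b 0 - tcc D J a ω) := by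
  unfold nc gc
  rw [Function.update_self, rnd_zero]
  unfold Sc
  rw [Function.update_self, eval_C]

theorem time_le {D : NDat2} {J a : ℕ} (ha : a ≤ J) {ω : D.Ω} (hX : D.X ω 0 = (D.T ω : ℝ) / 2 ^ J) :
    |D.X ω 0 - tcc D J a ω| ≤ 1 / 2 ^ (a + 1) := by
  have hm : (D.T ω / 2 ^ (J - a)) * 2 ^ (J - a) + D.T ω % 2 ^ (J - a) = D.T ω :=
    Nat.div_add_mod' _ _
  have hlt : D.T ω % 2 ^ (J - a) < 2 ^ (J - a) := Nat.mod_lt _ (by positivity)
  obtain ⟨c, hc⟩ : ∃ c, c = D.T ω / 2 ^ (J - a) := ⟨_, rfl⟩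
  obtain ⟨r, hr⟩ : ∃ r, r = D.T ω % 2 ^ (J - a) := ⟨_, rfl⟩
  rw [← hc, ← hr] at hm
  rw [← hr] at hlt
  have h2 : (2 : ℝ) ^ J = 2 ^ (J - a) * 2 ^ a := by rw [← pow_add, Nat.sub_add_cancel ha]
  have h3 : (D.T ω : ℝ) = c * 2 ^ (J - a) + r := by
    rw [← hm]
    push_cast
    ring
  have hP : (0 : ℝ) < 2 ^ (J - a) := by positivity
  have h4 : (r : ℝ) < 2 ^ (J - a) := by exact_mod_cast hlt
  have h5 : (0 : ℝ) ≤ r := Nat.cast_nonneg _
  have e : D.X ω 0 - tcc D J a ω = (r / 2 ^ (J - a) - 1 / 2) / 2 ^ a := by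
    unfold tcc
    rw [hX, h3, h2, ← hc]
    field_simp
    ring
  rw [e, abs_div, abs_of_pos (by positivity : (0 : ℝ) < 2 ^ a), pow_succ,
    div_le_div_iff₀ (by positivity) (by positivity)]
  have h6 : (r : ℝ) / 2 ^ (J - a) ≤ 1 := by
    rw [div_le_one hP]
    exact h4.le
  have h7 : (0 : ℝ) ≤ (r : ℝ) / 2 ^ (J - a) := by positivity
  have h8 : |(r : ℝ) / 2 ^ (J - a) - 1 / 2| ≤ 1 / 2 := by
    rw [abs_le]
    constructor <;> linarith
  have h9 : (0 : ℝ) < 2 ^ a := by positivity
  nlinarith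

/-- **The record.** -/
theorem rec_thm (n K : ℕ) : ∃ C : ℝ, 0 ≤ C ∧
    ∀ (J a₀ w₀ z M : ℕ) (lam gam : ℕ → ℝ) (κ C₁ : ℝ) (D : NDat2) (q : D.Ω → ℝ), 1 ≤ z →
      D.Ok2 n K J a₀ w₀ z M lam gam κ C₁ q → ∀ i ≤ M, ∀ j ≤ M,
      Det q (fun ω => (D.s i j ω, D.T ω)) (rec D n K J (a₀ + i * z) i j) ∧
      CH q (rec D n K J (a₀ + i * z) i j) (D.wn J (a₀ + i * z)) ≤ C ∧
      CH q (D.s i j) (fun ω => (rec D n K J (a₀ + i * z) i j ω, D.T ω)) ≤ C₁ * (C + 1) * z := by
  classical
  obtain ⟨L, hL0, hL⟩ := few_int n K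
  obtain ⟨Cd, hCd, hdil⟩ := dilB n K
  obtain ⟨C₀, hC₀⟩ : ∃ C₀ : ℝ, C₀ = 2 * (Cd * 2 ^ (K * (K + 1) ^ (n + 1))) := ⟨_, rfl⟩
  have hC₀0 : 0 ≤ C₀ := by rw [hC₀]; positivity
  obtain ⟨dE, hdE⟩ : ∃ dE : ℕ → ℕ, dE = fun l => (ex l (cD n K)).card := ⟨_, rfl⟩
  obtain ⟨Lg, hLg⟩ : ∃ Lg : ℝ, Lg = Real.log (2 * (L * C₀ + 1) + 1) := ⟨_, rfl⟩
  have hLg0 : 0 ≤ Lg := by
    rw [hLg]
    refine Real.log_nonneg ?_
    have : 0 ≤ L * C₀ := mul_nonneg hL0 hC₀0
    linarith
  obtain ⟨ρ, hρ⟩ : ∃ ρ : ℝ, ρ = 2 * rr (cD n K) n ^ cD n K := ⟨_, rfl⟩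
  have hrr := rr_ge (cD n K) n
  have hρ1 : 1 ≤ ρ := by
    rw [hρ]
    have : (1 : ℝ) ≤ rr (cD n K) n ^ cD n K := one_le_pow₀ (by linarith)
    linarith
  refine ⟨(∑ l ∈ range (n + 1), dE l * Lg) + Real.log ρ, ?_, ?_⟩
  · have h1 : 0 ≤ ∑ l ∈ range (n + 1), (dE l : ℝ) * Lg :=
      Finset.sum_nonneg fun l _ => mul_nonneg (Nat.cast_nonneg _) hLg0
    linarith [Real.log_nonneg hρ1]
  intro J a₀ w₀ z M lam gam κ C₁ D q hz hO i hi j hj
  obtain ⟨a, ha⟩ : ∃ a, a = a₀ + i * z := ⟨_, rfl⟩
  rw [← ha]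
  have hq := hO.isLaw
  have hthin := hO.thin
  have htop := hO.top
  have e1 : i * z ≤ M * z := Nat.mul_le_mul_right _ hi
  have e2 : (M + 1) * z = M * z + z := by ring
  have e3 : j * z ≤ M * z := Nat.mul_le_mul_right _ hj
  have haJ : a ≤ J := by omega
  have hwa : w₀ + j * z ≤ a := by omega
  obtain ⟨g, hg⟩ : ∃ g, g = gc D a i j := ⟨_, rfl⟩
  obtain ⟨S, hSd⟩ : ∃ S : D.Ω → ℕ → PN, S = Sc D J a i j := ⟨_, rfl⟩
  have hSt : ∀ ω, TriN (S ω) := fun ω => by rw [hSd]; exact Sc_tri hO.G_tri J a i j ω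
  have hSK : ∀ ω l, (S ω l).totalDegree ≤ K := fun ω l => by
    rw [hSd]; exact Sc_deg hO.G_deg J a i j ω l
  have hgl : ∀ l, l ≠ 0 → g l = D.g i j l := fun l hl => by rw [hg]; exact gc_ne hl
  have hSl : ∀ ω l, l ≠ 0 → S ω l = D.Ψ i j ω l := fun ω l hl => by rw [hSd]; exact Sc_ne hl
  have hnt : ∀ ω (b : ℕ → ℝ), nc g (rnd g (dl n K) (S ω)) b 0 =
      2 ^ (a + 1) * (b 0 - tcc D J a ω) := fun ω b => by
    rw [hg, hSd]
    exact nc_time
  have hrec : ∀ ω (l : Fin (n + 1)), rec D n K J a i j ω l = rnd g (dl n K) (S ω) l := fun ω l => by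
    rw [hg, hSd]
    rfl
  have htl : ∀ ω, |D.X ω 0 - tcc D J a ω| ≤ 1 / 2 ^ (a + 1) := fun ω =>
    time_le haJ (hO.X_zero ω)
  have hp2 : (2 : ℝ) ^ (a + 1) = 2 * 2 ^ a := by rw [pow_succ]; ring
  have hpa : (0 : ℝ) < 2 ^ a := by positivity
  have hn0 : ∀ i j ω ω', D.s i j ω = D.s i j ω' → D.Ψ i j ω = D.Ψ i j ω' := fun i j ω ω' h => by
    unfold NDat2.Ψ
    rw [h]
  refine ⟨?_, ?_, ?_⟩
  · intro ω ω' _ _ h
    obtain ⟨h1, h2⟩ := Prod.ext_iff.1 h
    have h3 : S ω = S ω' := by
      rw [hSd]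
      unfold Sc tcc
      have h2' : D.T ω = D.T ω' := h2
      rw [hn0 i j ω ω' h1, h2']
    funext l
    rw [hrec, hrec, h3]
  · -- few bits given the line and the cell
    obtain ⟨cp, hcp⟩ : ∃ cp : ℕ → D.Ω → ℕ → PN, cp = fun m ω l =>
      if l < m then rnd g (dl n K) (S ω) l else 0 := ⟨_, rfl⟩
    have hsame : ∀ ω ω', 0 < q ω → 0 < q ω' → D.wn J a ω = D.wn J a ω' →
        D.Φ i j ω = D.Φ i j ω' ∧ tcc D J a ω = tcc D J a ω' := by
      intro ω ω' p1 p2 h
      have h1 : D.wn J (w₀ + j * z) ω = D.wn J (w₀ + j * z) ω' :=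
        Pool.STAT.Glu.wn_det hwa haJ ω ω' p1 p2 h
      have h2 := hO.c_wn i hi j hj ω ω' p1 p2 h1
      have h3 : D.T ω / 2 ^ (J - a) = D.T ω' / 2 ^ (J - a) := (Prod.ext_iff.1 h).2
      refine ⟨?_, ?_⟩
      · unfold NDat2.Φ
        rw [h2]
      · unfold tcc
        rw [h3]
    have key : ∀ m, m ≤ n + 1 → CH q (cp m) (D.wn J a) ≤ ∑ l ∈ range m, dE l * Lg := by
      intro m
      induction m with
      | zero =>
        intro _
        rw [Finset.range_zero, Finset.sum_empty]
        refine le_of_eq (CH_eq_zero hq.nonneg fun ω ω' _ _ _ => ?_)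
        rw [hcp]
        funext l
        simp only [Nat.not_lt_zero, if_false]
      | succ l ih =>
        intro hl
        have ih := ih (by omega)
        rw [Finset.sum_range_succ]
        obtain ⟨E, hE⟩ : ∃ E, E = ex l (cD n K) := ⟨_, rfl⟩
        obtain ⟨x, hx⟩ : ∃ x : D.Ω → (ℕ →₀ ℕ) → ℤ, x = fun ω k =>
          ⌊(ntl g (rnd g (dl n K) (S ω)) (S ω l)).coeff k / (dl n K / 2 ^ g l)⌋ := ⟨_, rfl⟩
        obtain ⟨xv, hxv⟩ : ∃ xv : D.Ω → Fin E.card → ℤ, xv = fun ω k =>
          x ω (E.equivFin.symm k).1 := ⟨_, rfl⟩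
        have hlow : ∀ ω ω', cp l ω = cp l ω' → ∀ k < l, rnd g (dl n K) (S ω) k =
            rnd g (dl n K) (S ω') k := by
          intro ω ω' h k hk
          have := congrFun h k
          rw [hcp] at this
          simpa only [if_pos hk] using this
        have hsupp : l ≠ 0 → ∀ ω k, k ∉ E → x ω k = 0 := by
          intro hl0 ω k hk
          rw [hx]
          have h1 : (ntl g (rnd g (dl n K) (S ω)) (S ω l)).coeff k = 0 :=
            notMem_support_iff.1 fun h2 => hk (by
              rw [hE]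
              exact supp_ex (ntl_vars (rnd_tri (hSt ω) g _) g (hSt ω l))
                (deg1 (hSt ω) (hSK ω) g (by omega)) h2)
          show ⌊_⌋ = _
          rw [h1, zero_div, Int.floor_zero]
        -- the digits
        have hb1 : CH q xv (fun ω => (cp l ω, D.wn J a ω)) ≤ dE l * Lg ∨ l = 0 := by
          by_cases hl0 : l = 0
          · exact Or.inr hl0
          left
          have h1 := CH_le_vec hq.nonneg hq.sum_one xv (fun ω => (cp l ω, D.wn J a ω))
            (fun _ => L * C₀ + 1) (by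
              intro ω ω' p1 p2 h k
              obtain ⟨h1, h2⟩ := Prod.ext_iff.1 h
              have h3 := hsame ω ω' p1 p2 h2
              rw [hxv, hx]
              refine hL g (S ω) (S ω') l (hSt ω) (hSt ω') (hSK ω) (hSK ω') hl0 (by omega)
                (hlow ω ω' h1) C₀ hC₀0 (fun b hb => ?_) _
              -- both are near to the line side
              have hnear : ∀ ω'' : D.Ω, 0 < q ω'' → tcc D J a ω'' = tcc D J a ω →
                  (∀ k < l, rnd g (dl n K) (S ω) k = rnd g (dl n K) (S ω'') k) →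
                  D.Φ i j ω'' = D.Φ i j ω →
                  |eval b (S ω'' l) - eval b (D.Φ i j ω l)| ≤ C₀ / 2 / 2 ^ g l := by
                intro ω'' p3 ht hr hΦ
                have hb' : ∀ j < l, |nc g (rnd g (dl n K) (S ω'')) b j| ≤ 1 := by
                  intro k hk
                  have := hb k hk
                  unfold nc at this ⊢
                  rwa [← hr k hk]
                have hb2 := box_in (hSt ω'') (hSK ω'') g (m := l) (by omega) hb'
                have htime : |b 0 - D.X ω'' 0| ≤ 1 / 2 ^ a := by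
                  have h4 := hb' 0 (by omega)
                  rw [hnt, abs_mul, abs_of_pos (by positivity : (0 : ℝ) < 2 ^ (a + 1)), mul_comm,
                    ← le_div_iff₀ (by positivity)] at h4
                  have h5 := htl ω''
                  have h6 := abs_sub (b 0 - tcc D J a ω'') (D.X ω'' 0 - tcc D J a ω'')
                  rw [sub_sub_sub_cancel_right] at h6
                  refine h6.trans ((add_le_add h4 h5).trans (le_of_eq ?_))
                  rw [hp2]
                  field_simp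
                  norm_num
                have h7 := hdil (D.Ψ i j ω'') (D.g i j) (D.Ψ i j ω'' l - D.Φ i j ω'' l) l
                  (fun t => |t - D.X ω'' 0| ≤ 1 / 2 ^ a) (1 / 2 ^ D.g i j l) 2 (hO.G_tri _ _ _)
                  (fun k => hO.G_deg _ _ _ k) (by omega)
                  (AdxRow.vars_sub_le (hO.G_tri _ _ _ l) (hO.P_tri _ _ _ l))
                  ((totalDegree_sub _ _).trans (max_le (hO.G_deg _ _ _ l) (hO.P_deg _ _ _ l)))
                  (by norm_num) (fun b' hb' => by
                    rw [map_sub]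
                    exact hO.agr i hi j hj ω'' p3 l (by omega) (by omega) b' ⟨by
                      rw [← ha]
                      exact hb'.1, hb'.2⟩) b ⟨htime, fun k k1 k2 => by
                    have h8 := hb2 k k1 k2
                    rwa [hSl ω'' k (by omega), hgl k (by omega)] at h8⟩
                rw [map_sub] at h7
                rw [hSl ω'' l hl0, ← hΦ]
                refine h7.trans (le_of_eq ?_)
                rw [hC₀, hgl l hl0]
                ring
              have n1' := hnear ω p1 rfl (fun _ _ => rfl) rfl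
              have n2 := hnear ω' p2 h3.2.symm (hlow ω ω' h1) h3.1.symm
              have n3 := abs_sub (eval b (S ω l) - eval b (D.Φ i j ω l))
                (eval b (S ω' l) - eval b (D.Φ i j ω l))
              rw [sub_sub_sub_cancel_right] at n3
              refine n3.trans ((add_le_add n1' n2).trans (le_of_eq ?_))
              ring)
          refine h1.trans (le_of_eq ?_)
          rw [hdE, hE]
          congr 1
          rw [Ex_const hq.sum_one, ← hLg]
        have h2 : CH q (cp (l + 1)) (D.wn J a) ≤ CH q (cp l) (D.wn J a) +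
            CH q (cp (l + 1)) (fun ω => (cp l ω, D.wn J a ω)) :=
          CH_le_add hq.nonneg (cp (l + 1)) (cp l) (D.wn J a)
        have h3 : CH q (cp (l + 1)) (fun ω => (cp l ω, D.wn J a ω)) ≤ dE l * Lg := by
          rcases hb1 with hb1 | hb1
          · by_cases hl0 : l = 0
            · subst hl0
              refine (le_of_eq (CH_eq_zero hq.nonneg fun ω ω' p1 p2 h => ?_)).trans
                (mul_nonneg (Nat.cast_nonneg _) hLg0)
              obtain ⟨_, h2⟩ := Prod.ext_iff.1 h
              have h3 := hsame ω ω' p1 p2 h2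
              rw [hcp]
              funext k
              by_cases hk : k < 1
              · have hk0 : k = 0 := by omega
                subst hk0
                simp only [if_pos hk]
                rw [rnd_zero, rnd_zero, hSd]
                unfold Sc
                rw [Function.update_self, Function.update_self, h3.2]
              · simp only [zero_add, if_neg hk]
            refine le_trans (CH_mono_left hq.nonneg fun ω ω' p1 p2 h => ?_) hb1
            obtain ⟨h1, h2⟩ := Prod.ext_iff.1 h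
            obtain ⟨h3, _⟩ := Prod.ext_iff.1 h2
            have hlo := hlow ω ω' h3
            have hxx : ∀ k, x ω k = x ω' k := by
              intro k
              by_cases hk : k ∈ E
              · have h4 : xv ω (E.equivFin ⟨k, hk⟩) = xv ω' (E.equivFin ⟨k, hk⟩) := congrFun h1 _
                rw [hxv] at h4
                simpa using h4
              · rw [hsupp hl0 ω k hk, hsupp hl0 ω' k hk]
            have h5 : rnd g (dl n K) (S ω) l = rnd g (dl n K) (S ω') l :=
              rnd_det (hSt ω) (hSt ω') g _ hl0 hlo fun k => by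
                have := hxx k
                rw [hx] at this
                exact this
            rw [hcp]
            funext k
            by_cases hk : k < l + 1
            · simp only [if_pos hk]
              rcases Nat.lt_succ_iff_lt_or_eq.1 hk with h6 | rfl
              · exact hlo k h6
              · exact h5
            · simp only [if_neg hk]
          · subst hb1
            refine (le_of_eq (CH_eq_zero hq.nonneg fun ω ω' p1 p2 h => ?_)).trans
              (mul_nonneg (Nat.cast_nonneg _) hLg0)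
            obtain ⟨_, h2⟩ := Prod.ext_iff.1 h
            have h3 := hsame ω ω' p1 p2 h2
            rw [hcp]
            funext k
            by_cases hk : k < 1
            · have hk0 : k = 0 := by omega
              subst hk0
              simp only [if_pos hk]
              rw [rnd_zero, rnd_zero, hSd]
              unfold Sc
              rw [Function.update_self, Function.update_self, h3.2]
            · simp only [zero_add, if_neg hk]
        linarith
    have h1 : CH q (rec D n K J a i j) (D.wn J a) ≤ CH q (cp (n + 1)) (D.wn J a) := by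
      refine CH_mono_left hq.nonneg fun ω ω' _ _ h => ?_
      have h2 := (Prod.ext_iff.1 h).1
      funext l
      rw [hrec, hrec]
      have h3 := congrFun h2 (l : ℕ)
      rw [hcp] at h3
      simpa only [if_pos l.2] using h3
    have h2 := key (n + 1) le_rfl
    have h3 := Real.log_nonneg hρ1
    linarith
  · -- the label
    have h1 := hO.net i hi j hj (Real.log ρ) (Real.log_nonneg hρ1) ((Fin (n + 1) → PN) × ℕ)
      (fun ω => (rec D n K J a i j ω, D.T ω)) (fun ω ω' _ _ h => (Prod.ext_iff.1 h).2) (by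
        intro ω ω' p1 p2 h l l1 l2 b hb
        obtain ⟨h1, h2⟩ := Prod.ext_iff.1 h
        have h2' : D.T ω = D.T ω' := h2
        have hr : ∀ k ≤ n, rnd g (dl n K) (S ω) k = rnd g (dl n K) (S ω') k := by
          intro k hk
          have h3 : rec D n K J a i j ω ⟨k, by omega⟩ = rec D n K J a i j ω' ⟨k, by omega⟩ :=
            congrFun h1 ⟨k, by omega⟩
          rw [hrec, hrec] at h3
          exact h3
        have ht : tcc D J a ω = tcc D J a ω' := by
          unfold tcc
          rw [h2']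
        have h0 : |nc g (rnd g (dl n K) (S ω)) b 0| ≤ 3 := by
          rw [hnt, abs_mul, abs_of_pos (by positivity : (0 : ℝ) < 2 ^ (a + 1))]
          have h4 : |b 0 - D.X ω 0| ≤ 1 / 2 ^ a := by
            rw [ha]
            exact hb.1
          have h5 := htl ω
          have h6 := abs_add_le (b 0 - D.X ω 0) (D.X ω 0 - tcc D J a ω)
          rw [sub_add_sub_cancel] at h6
          have h7 : |b 0 - tcc D J a ω| ≤ 3 / 2 ^ (a + 1) := by
            refine h6.trans ((add_le_add h4 h5).trans (le_of_eq ?_))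
            rw [hp2]
            field_simp
            norm_num
          rw [le_div_iff₀ (by positivity)] at h7
          linarith
        have hbox : ∀ m, 1 ≤ m → m < l → |b m - eval b (S ω m)| ≤ 1 / 2 ^ g m := by
          intro m m1 m2
          rw [hSl ω m (by omega), hgl m (by omega)]
          exact hb.2 m m1 m2
        have hnc := nc_box (hSt ω) (hSK ω) g (m := l) (by omega) h0 hbox
        have hnc1 : ∀ k < l, |nc g (rnd g (dl n K) (S ω)) b k| ≤ rr (cD n K) n := fun k hk =>
          (hnc k hk).trans (rr_mono _ (by omega))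
        have hnc2 : ∀ k < l, |nc g (rnd g (dl n K) (S ω')) b k| ≤ rr (cD n K) n := by
          intro k hk
          have := hnc1 k hk
          unfold nc at this ⊢
          rwa [← hr k (by omega)]
        have n1' := near_pt (hSt ω) (hSK ω) g (l := l) (by omega) (by omega)
          (by linarith : 1 ≤ rr (cD n K) n) hnc1
        have n2 := near_pt (hSt ω') (hSK ω') g (l := l) (by omega) (by omega)
          (by linarith : 1 ≤ rr (cD n K) n) hnc2
        rw [← hr l l2] at n2
        have n3 := abs_sub (eval b (rnd g (dl n K) (S ω) l) - eval b (S ω' l))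
          (eval b (rnd g (dl n K) (S ω) l) - eval b (S ω l))
        rw [sub_sub_sub_cancel_left] at n3
        have n4 := n3.trans (add_le_add n2 n1')
        rw [hSl ω l (by omega), hSl ω' l (by omega), hgl l (by omega)] at n4
        refine n4.trans ?_
        rw [← add_div]
        refine div_le_div_of_nonneg_right ?_ (by positivity)
        have e : rr (cD n K) n ^ cD n K + rr (cD n K) n ^ cD n K = ρ := by
          rw [hρ]
          ring
        rw [e]
        have hz1 : (1 : ℝ) ≤ z := by exact_mod_cast hz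
        calc ρ = Real.exp (Real.log ρ * 1) := by rw [mul_one, Real.exp_log (by linarith)]
          _ ≤ Real.exp (Real.log ρ * z) := Real.exp_le_exp.2
              (mul_le_mul_of_nonneg_left hz1 (Real.log_nonneg hρ1)))
    refine h1.trans ?_
    have hC1 : 0 ≤ C₁ * z ∨ True := Or.inr trivial
    have hC₁0 : 0 ≤ C₁ := by
      by_contra hneg
      push Not at hneg
      have := hO.hom i hi j hj
      by_cases hn : 1 ≤ n
      · have h2 := (abs_nonneg _).trans (this n hn le_rfl)
        have hz1 : (1 : ℝ) ≤ z := by exact_mod_cast hz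
        nlinarith
      · have hn' : n = 0 := by omega
        have h3 := CH_nonneg hq.nonneg (D.s i j) (fun ω => (rec D n K J a i j ω, D.T ω))
        have h4 : 0 ≤ Real.log ρ := Real.log_nonneg hρ1
        have h5 : C₁ * (Real.log ρ + 1) * z < 0 := by
          have hz1 : (1 : ℝ) ≤ z := by exact_mod_cast hz
          have : C₁ * (Real.log ρ + 1) < 0 := mul_neg_of_neg_of_pos hneg (by linarith)
          nlinarith
        linarith
    refine mul_le_mul_of_nonneg_right (mul_le_mul_of_nonneg_left ?_ hC₁0) (Nat.cast_nonneg _)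
    have h1 : 0 ≤ ∑ l ∈ range (n + 1), (dE l : ℝ) * Lg :=
      Finset.sum_nonneg fun l _ => mul_nonneg (Nat.cast_nonneg _) hLg0
    linarith

end Pool.TIE
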