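import Pool.Agent.H55.GEN.Glu

/-!
# Rounding of a triangular system

`rnd g δ S`: the coefficients of `S l` in the natural coordinates of the rounded system before `l`
are rounded down to multiples of `δ / 2 ^ (g l)`.
-/

set_option autoImplicit false

namespace Pool.TIE

open Finset MvPolynomial
open Pool.STK Pool.STAT Pool.STAT.CLO
open Pool.STAT.Glu (ncN eval_ncN ncN_deg ncN_vars)

namespace Rnd

/-- Rounding of the coefficients. -/
noncomputable def rq (δ : ℝ) (F : PN) : PN :=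
  ∑ k ∈ F.support, monomial k (δ * ⌊F.coeff k / δ⌋)

theorem coeff_rq (δ : ℝ) (F : PN) (k : ℕ →₀ ℕ) : (rq δ F).coeff k = δ * ⌊F.coeff k / δ⌋ := by
  classical
  unfold rq
  rw [coeff_sum]
  simp only [coeff_monomial]
  rw [Finset.sum_ite_eq' F.support k]
  split_ifs with h
  · rfl
  · rw [notMem_support_iff.1 h, zero_div, Int.floor_zero, Int.cast_zero, mul_zero]

theorem rq_supp (δ : ℝ) (F : PN) : (rq δ F).support ⊆ F.support := by
  intro k hk
  rw [mem_support_iff, coeff_rq] at hk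
  by_contra h
  rw [notMem_support_iff.1 h, zero_div, Int.floor_zero, Int.cast_zero, mul_zero] at hk
  exact hk rfl

theorem rq_vars {δ : ℝ} {F : PN} {i : ℕ} (h : F.vars ⊆ range i) : (rq δ F).vars ⊆ range i := by
  intro j hj
  obtain ⟨k, hk, hj'⟩ := (mem_vars_iff_mem_support _).1 hj
  exact h ((mem_vars_iff_mem_support _).2 ⟨k, rq_supp δ F hk, hj'⟩)

theorem rq_deg {δ : ℝ} {F : PN} {K : ℕ} (h : F.totalDegree ≤ K) : (rq δ F).totalDegree ≤ K :=
  (totalDegree_le_of_support_subset (rq_supp δ F)).trans h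

theorem rq_near {δ : ℝ} (hδ : 0 < δ) {F : PN} {i K : ℕ} (hv : F.vars ⊆ range i)
    (hK : F.totalDegree ≤ K) : n1 (rq δ F - F) ≤ (ex i K).card * δ := by
  refine n1_le ?_ fun k _ => ?_
  · intro k hk
    by_contra h
    have h1 : F.coeff k = 0 := notMem_support_iff.1 fun h2 => h (supp_ex hv hK h2)
    rw [mem_support_iff, coeff_sub, coeff_rq, h1, zero_div, Int.floor_zero, Int.cast_zero,
      mul_zero, sub_zero] at hk
    exact hk rfl
  · rw [coeff_sub, coeff_rq]
    have e1 := Int.floor_le (F.coeff k / δ)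
    have e2 := Int.lt_floor_add_one (F.coeff k / δ)
    rw [le_div_iff₀ hδ] at e1
    rw [div_lt_iff₀ hδ] at e2
    rw [abs_le]
    constructor <;> nlinarith

theorem rq_congr {δ : ℝ} {F F' : PN} (h : ∀ k, ⌊F.coeff k / δ⌋ = ⌊F'.coeff k / δ⌋) :
    rq δ F = rq δ F' := by
  refine MvPolynomial.ext _ _ fun k => ?_
  rw [coeff_rq, coeff_rq, h]

/-! ### The system -/

/-- Truncation. -/
noncomputable def trn (P : ℕ → PN) (l k : ℕ) : PN := if k < l then P k else 0

/-- The natural polynomial of `F` over `P`. -/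
noncomputable def ntl (g : ℕ → ℕ) (P : ℕ → PN) (F : PN) : PN := bind₁ (nuc g P) F

/-- One step of the rounding. -/
noncomputable def rst (g : ℕ → ℕ) (δ : ℝ) (P : ℕ → PN) (F : PN) (l : ℕ) : PN :=
  bind₁ (ncN g P) (rq (δ / 2 ^ g l) (ntl g P F))

/-- The rounded system. -/
noncomputable def rnd (g : ℕ → ℕ) (δ : ℝ) (S : ℕ → PN) : ℕ → PN :=
  fixm fun P l => if l = 0 then S 0 else rst g δ (trn P l) (S l) l

theorem rnd_eq (g : ℕ → ℕ) (δ : ℝ) (S : ℕ → PN) (l : ℕ) : rnd g δ S l =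
    if l = 0 then S 0 else rst g δ (trn (rnd g δ S) l) (S l) l := by
  unfold rnd
  refine AdxRow.fixm_eq (S := fun P l => if l = 0 then S 0 else rst g δ (trn P l) (S l) l)
    (fun i f f' h => ?_) l
  have h1 : trn f i = trn f' i := by
    funext k
    unfold trn
    split_ifs with hk
    · exact h k hk
    · rfl
  beta_reduce
  rw [h1]

theorem trn_tri {P : ℕ → PN} {l : ℕ} (h : ∀ k < l, (P k).vars ⊆ range k) : TriN (trn P l) := by
  intro k
  unfold trn
  split_ifs with hk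
  · exact h k hk
  · rw [vars_0]
    exact Finset.empty_subset _

theorem nuc_trn {P P' : ℕ → PN} (hP : TriN P) (hP' : TriN P') (g : ℕ → ℕ) {l : ℕ}
    (h : ∀ k < l, P k = P' k) (k : ℕ) (hk : k < l) : nuc g P k = nuc g P' k := by
  induction k using Nat.strong_induction_on with
  | _ k ih =>
    rw [AdxRow.nuc_eq hP, AdxRow.nuc_eq hP', h k hk]
    congr 1
    exact AdxRow.bnd_congr fun j hj => ih j (mem_range.1 (hP' k hj))
      (by have := mem_range.1 (hP' k hj); omega)

theorem ntl_congr {P P' : ℕ → PN} (hP : TriN P) (hP' : TriN P') (g : ℕ → ℕ) {l : ℕ}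
    (h : ∀ k < l, P k = P' k) {F : PN} (hF : F.vars ⊆ range l) : ntl g P F = ntl g P' F :=
  AdxRow.bnd_congr fun k hk => nuc_trn hP hP' g h k (mem_range.1 (hF hk))

theorem ntl_vars {P : ℕ → PN} (hP : TriN P) (g : ℕ → ℕ) {l : ℕ} {F : PN}
    (hF : F.vars ⊆ range l) : (ntl g P F).vars ⊆ range l :=
  AdxRow.vars_bnd hF fun k hk => (AdxRow.nuc_vars hP g k).trans (Finset.range_mono (by omega))

theorem rst_vars {P : ℕ → PN} (hP : TriN P) (g : ℕ → ℕ) (δ : ℝ) {l : ℕ} {F : PN}
    (hF : F.vars ⊆ range l) : (rst g δ P F l).vars ⊆ range l :=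
  AdxRow.vars_bnd (rq_vars (ntl_vars hP g hF)) fun k hk => (ncN_vars hP k).trans
    (Finset.range_mono (by omega))

theorem rst_congr {P P' : ℕ → PN} (hP : TriN P) (hP' : TriN P') (g : ℕ → ℕ) (δ : ℝ) {l : ℕ}
    (h : ∀ k < l, P k = P' k) {F : PN} (hF : F.vars ⊆ range l) :
    rst g δ P F l = rst g δ P' F l := by
  unfold rst
  rw [ntl_congr hP hP' g h hF]
  refine AdxRow.bnd_congr fun k hk => ?_
  have hk' := mem_range.1 (rq_vars (ntl_vars hP' g hF) hk)
  unfold ncN
  rw [h k hk']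

/-- The natural polynomial of the rounded polynomial. -/
theorem ntl_rst {P : ℕ → PN} (hP : TriN P) (g : ℕ → ℕ) (δ : ℝ) (F : PN) (l : ℕ) :
    ntl g P (rst g δ P F l) = rq (δ / 2 ^ g l) (ntl g P F) := by
  refine MvPolynomial.funext fun y => ?_
  unfold rst
  unfold ntl
  rw [AdxRow.evl_bnd, AdxRow.evl_bnd]
  congr 2
  funext k
  rw [eval_ncN]
  exact congrFun (nc_nuc hP g y) k

section main

variable {S : ℕ → PN} (hS : TriN S) (g : ℕ → ℕ) (δ : ℝ)

include hS

theorem rnd_tri : TriN (rnd g δ S) := by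
  intro l
  induction l using Nat.strong_induction_on with
  | _ l ih =>
    rw [rnd_eq]
    split_ifs with h
    · rw [h]
      exact hS 0
    · exact rst_vars (trn_tri ih) g δ (hS l)

theorem rnd_eq' {l : ℕ} (hl : l ≠ 0) : rnd g δ S l = rst g δ (rnd g δ S) (S l) l := by
  rw [rnd_eq, if_neg hl]
  exact rst_congr (trn_tri fun k _ => rnd_tri hS g δ k) (rnd_tri hS g δ) g δ
    (fun k hk => if_pos hk) (hS l)

omit hS in
theorem rnd_zero : rnd g δ S 0 = S 0 := by rw [rnd_eq, if_pos rfl]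

theorem rnd_near (hδ : 0 < δ) {l c : ℕ} (hl : l ≠ 0) (hc : (ntl g (rnd g δ S) (S l)).totalDegree ≤ c) :
    n1 (ntl g (rnd g δ S) (rnd g δ S l - S l)) ≤ (ex l c).card * δ / 2 ^ g l := by
  have h1 : ntl g (rnd g δ S) (rnd g δ S l - S l) =
      rq (δ / 2 ^ g l) (ntl g (rnd g δ S) (S l)) - ntl g (rnd g δ S) (S l) := by
    have e : ntl g (rnd g δ S) (rnd g δ S l - S l) =
        ntl g (rnd g δ S) (rnd g δ S l) - ntl g (rnd g δ S) (S l) := by
      unfold ntl
      rw [map_sub]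
    rw [e]
    congr 1
    conv_lhs => rw [show ntl g (rnd g δ S) (rnd g δ S l) =
      ntl g (rnd g δ S) (rst g δ (rnd g δ S) (S l) l) from by rw [← rnd_eq' hS g δ hl]]
    exact ntl_rst (rnd_tri hS g δ) g δ _ l
  rw [h1]
  refine (rq_near (by positivity) (ntl_vars (rnd_tri hS g δ) g (hS l)) hc).trans (le_of_eq ?_)
  ring

end main

/-- The degrees. -/
def dd (n K : ℕ) : ℕ → ℕ
  | 0 => K
  | l + 1 => K + dd n K l + K * (dd n K l + 1) ^ (n + 1) * (dd n K l + 1)

theorem dd_mono {n K : ℕ} {l l' : ℕ} (h : l ≤ l') : dd n K l ≤ dd n K l' := by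
  induction l', h using Nat.le_induction with
  | base => exact le_rfl
  | succ m _ ih =>
    refine ih.trans ?_
    show dd n K m ≤ K + dd n K m + _
    omega

theorem ntl_deg {P : ℕ → PN} (hP : TriN P) (g : ℕ → ℕ) {n B l K : ℕ} {F : PN} (hl : l ≤ n + 1)
    (hB : ∀ k < l, (P k).totalDegree ≤ B) (hF : F.vars ⊆ range l) (hK : F.totalDegree ≤ K) :
    (ntl g P F).totalDegree ≤ K * (B + 1) ^ (n + 1) := by
  have h1 : ntl g P F = ntl g (trn P l) F := ntl_congr hP (trn_tri fun k _ => hP k) g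
    (fun k hk => (if_pos hk).symm) hF
  rw [h1]
  refine (Dgb.deg_bind (B := (B + 1) ^ (n + 1)) fun k hk => ?_).trans (Nat.mul_le_mul_right _ hK)
  have hk' := mem_range.1 (hF hk)
  refine (Dgb.deg_nuc (n := k) (K := B) (trn_tri fun k _ => hP k) (fun j hj => ?_) g k
    le_rfl).trans (Nat.pow_le_pow_right (Nat.succ_pos _) (by omega))
  unfold trn
  split_ifs with h2
  · exact hB j h2
  · rw [totalDegree_zero]
    exact Nat.zero_le _

theorem rnd_deg {S : ℕ → PN} (hS : TriN S) (g : ℕ → ℕ) (δ : ℝ) {n K : ℕ}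
    (hK : ∀ l, (S l).totalDegree ≤ K) (l : ℕ) (hl : l ≤ n + 1) :
    (rnd g δ S l).totalDegree ≤ dd n K l := by
  induction l using Nat.strong_induction_on with
  | _ l ih =>
    rcases Nat.eq_zero_or_pos l with rfl | h0
    · rw [rnd_zero]
      exact hK 0
    · obtain ⟨m, rfl⟩ : ∃ m, l = m + 1 := ⟨l - 1, by omega⟩
      have hB : ∀ k < m + 1, (rnd g δ S k).totalDegree ≤ dd n K m := fun k hk =>
        (ih k hk (by omega)).trans (dd_mono (by omega))
      rw [rnd_eq' hS g δ (by omega)]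
      have h1 := ntl_deg (rnd_tri hS g δ) g (n := n) hl hB (hS (m + 1)) (hK (m + 1))
      have h2 : (rst g δ (rnd g δ S) (S (m + 1)) (m + 1)).totalDegree ≤
          K * (dd n K m + 1) ^ (n + 1) * (dd n K m + 1) := by
        unfold rst
        refine (Dgb.deg_bind (B := dd n K m + 1) fun k hk => ?_).trans
          (Nat.mul_le_mul_right _ (rq_deg h1))
        have hk' := mem_range.1 (rq_vars (ntl_vars (rnd_tri hS g δ) g (hS (m + 1))) hk)
        unfold ncN
        refine (totalDegree_mul _ _).trans ?_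
        rw [totalDegree_C, zero_add]
        refine (totalDegree_sub _ _).trans (max_le ?_ ((hB k hk').trans (Nat.le_succ _)))
        rw [totalDegree_X]
        omega
      refine h2.trans ?_
      show _ ≤ K + dd n K m + K * (dd n K m + 1) ^ (n + 1) * (dd n K m + 1)
      omega

/-- **The rounding determines the next polynomial.** -/
theorem rnd_det {S S' : ℕ → PN} (hS : TriN S) (hS' : TriN S') (g : ℕ → ℕ) (δ : ℝ) {l : ℕ}
    (hl : l ≠ 0) (h : ∀ k < l, rnd g δ S k = rnd g δ S' k)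
    (hx : ∀ k, ⌊(ntl g (rnd g δ S) (S l)).coeff k / (δ / 2 ^ g l)⌋ =
      ⌊(ntl g (rnd g δ S') (S' l)).coeff k / (δ / 2 ^ g l)⌋) : rnd g δ S l = rnd g δ S' l := by
  rw [rnd_eq' hS g δ hl, rnd_eq' hS' g δ hl]
  unfold rst
  rw [rq_congr hx]
  refine AdxRow.bnd_congr fun k hk => ?_
  have hk' := mem_range.1 (rq_vars (ntl_vars (rnd_tri hS' g δ) g (hS' l)) hk)
  unfold ncN
  rw [h k hk']

end Rnd

end Pool.TIE
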