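import Pool.Agent.H19.TIE.Dnt
import Pool.Agent.H92.ALT.Sl8
import Pool.Agent.H42.V0B.Lji
import Pool.Agent.H19.V0B.Ral

/-!
# The slope hypothesis with a closed gradient from the class theorem of a counted target

`TtB`: the closed polynomials of the frame in a class. `slhT_cl`, `recNy_slhT`: the slope hypothesis
with a closed gradient from `TtB`. `ttb_of`: `TtB` from natural labels with companions and the output of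
the class theorem.
-/

set_option autoImplicit false

namespace Pool.TIE19

open Finset Real MvPolynomial
open Pool.Agent.H49.Ent Pool.Agent.H32.Dense Pool.STK Pool.KA Pool.KSAT Pool.K2S Pool.PB Pool.S6C
open Pool.GEN Pool.CHT Pool.CHX Pool.ISO Pool.D2R Pool.D2G30 Pool.END18 Pool.D2Con Pool.V1E
open Pool.LBT (ThrOf)
open Pool.LEV (Law)
open Pool.AVG57 (upw upw_slam)
open Pool.V0B19 (V0E V0Z nzD le_nzD)
open Pool.ALT (Fml DpI NzF NzL XiF)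
open Pool.V0N (NzP nzp_dif)
open Pool.NPZ (NzW)
open Pool.PN18 (Fm2)
open Pool.GRD (LbP)

/-- **The closed polynomials of the frame** for a family of polynomials `P` with the property `Ξ`, in a
class, on a part of mass at least `1 / K₄` of each event with the windows `WG`. -/
def TtB {m : ℕ} (S : PCl m) (c : ℕ → Fin m) (r D Dw C' Dr N N₂ : ℕ) (R : ℕ → Prop)
    (C a Eb ε₀ η₀ χ mb : ℝ) (Pt : ℝ → ℝ → ℝ) (o : ℕ → ℝ) (lv be : ℕ → ℕ → ℝ) (κ K₄ : ℝ)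
    (Ξ : XiN m) : Prop :=
  Bas S (fun J F B => ∀ (b : ℕ → ℕ → ℝ) (z : ℕ → ℕ → ℕ) (gc gT g₀ : ℕ → ℕ → ℕ)
    (G : ℕ → PtT F → ℕ → MvPolynomial (Option (Fin m)) ℝ)
    (H : ℕ → LnT F → ℕ → MvPolynomial (Option (Fin m)) ℝ)
    (T : ℕ → PtT F → ℕ → MvPolynomial (Option (Fin m)) ℝ)
    (TH : ℕ → LnT F → ℕ → MvPolynomial (Option (Fin m)) ℝ)
    (Gt : ℕ → PtT F → MvPolynomial (Option (Fin m)) ℝ)
    (Ht : ℕ → LnT F → MvPolynomial (Option (Fin m)) ℝ)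
    (CL : LnT F → MvPolynomial (Option (Fin m)) ℝ)
    (Cp : PtT F → MvPolynomial (Option (Fin m)) ℝ),
    WG c (r + 1) D Dr N N₂ R C a Eb ε₀ η₀ Pt o lv be F b κ z B gc gT g₀ G H T TH Gt Ht →
    Ξ J F B g₀ G H Ht CL Cp →
    ∃ B₂ : F.Ω → Prop, Sub B₂ B ∧ Pe F.p B ≤ K₄ * Pe F.p B₂ ∧
      TieH F c (sN (lv 0) J r) r Dw ⌊mb * J⌋₊ (⌊o 3 * J⌋₊ - ⌊o 0 * J⌋₊) (C' * (⌊χ * J⌋₊ + 1))
        (fun k => ⌊o (fr4 k) * J⌋₊) (fun k => g₀ (fr4 k)) B₂ (fun k => G (fr4 k)) Cp)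

/-- **The slope hypothesis with a closed gradient**, from the closed polynomials of the frame. -/
theorem slhT_cl (Dw r C' : ℕ) : ∃ CT : ℕ, ∀ {m : ℕ} {S : PCl m} {c : ℕ → Fin m} {D Dr N N₂ : ℕ}
    {R : ℕ → Prop} {C a Eb ε₀ η₀ ζ χ mb : ℝ} {Pt : ℝ → ℝ → ℝ} {o : ℕ → ℝ} {lv be : ℕ → ℕ → ℝ}
    {κ κ₁ K₃ K₄ : ℝ} {Ξ : XiN m}, 1 ≤ N → 3 ≤ N₂ → D ≤ Dw →
    Set.InjOn c (Set.Iio (r + 2)) → (∀ l < r, R l) → 1 ≤ C → 0 < η₀ →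
    3 * (C * η₀) ≤ Pt a (o 0) → 0 ≤ lv 1 (r + 1) →
    o 1 + 4 * (C * η₀) ≤ a → a ≤ 1 →
    (¬ R r → lv 1 r + (a - o 1) ≤ be 1 r + ζ) →
    mb + (o 3 - o 0) < o 0 - o 2 → o 3 - o 0 < mb → η₀ ≤ o 3 - o 0 →
    η₀ ≤ o 1 - o 3 → 0 ≤ ζ →
    C * η₀ + 2 * (ζ + 3 * (C * η₀)) + η₀ < χ →
    (∀ k ≤ 3, ∀ j < r, |lv k j - o k - (lv 0 j - o 0)| ≤ ζ) →
    lv 0 r + (o 3 - o 0) ≤ lv 3 r + ζ → lv 3 r + (o 1 - o 3) ≤ lv 1 r + ζ →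
    lv 0 (r + 1) + mb ≤ lv 3 (r + 1) + ζ →
    lv 0 (r + 1) + (o 1 - o 0) + (mb - (o 3 - o 0)) ≤ lv 1 (r + 1) + ζ →
    lv 0 (r + 1) + (a - o 0) + (mb - (o 3 - o 0)) ≤ Pt a (o 0) + ζ →
    (∀ (J : ℕ) (F : Fam m J) (B B' : F.Ω → Prop) g₀ G H Ht CL Cp, Sub B' B →
      Ξ J F B g₀ G H Ht CL Cp → Ξ J F B' g₀ G H Ht CL Cp) →
    0 < K₃ → 0 ≤ κ₁ → κ * K₃ ≤ κ₁ →
    SlHU S c r D Dw Dr N N₂ R C a Eb ε₀ η₀ χ mb Pt o lv be κ K₃ Ξ →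
    TtB S c r D Dw C' Dr N N₂ R C a Eb ε₀ η₀ χ mb Pt o lv be κ₁ K₄ Ξ →
    SlHU S c r D Dw Dr N N₂ R C a Eb ε₀ η₀ χ mb Pt o lv be κ (K₃ * K₄)
      (fun J F B g₀ G H Ht CL Cp => Ξ J F B g₀ G H Ht CL Cp ∧
        XiCl c r Dw CT χ mb o lv J F B g₀ G H Ht CL Cp) := by
  obtain ⟨CT, hclo⟩ := nu_tieN Dw r C'
  refine ⟨CT, ?_⟩
  intro m S c D Dr N N₂ R C a Eb ε₀ η₀ ζ χ mb Pt o lv be κ κ₁ K₃ K₄ Ξ hN1 hN hDD hc hR hC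
    hη₀ hPt0 hlv1 hoa ha hbe h01 h12 h12' h23 hζ hχ hn hu2 hu3 h2 h3 hPa hXs hK₃ hκ₁ hκ hS hB
  obtain ⟨J₀, hnv⟩ := wg_nvp (Eb := Eb) (ε₀ := ε₀) (D := D) (Dr := Dr) hN1 hN hc hR hC hη₀
    hPt0 hlv1 hoa ha hbe h01 h12 h12' h23 hζ hχ hn hu2 hu3 h2 h3 hPa
  refine Bas.mono J₀ (hS.and (bas_big hB K₃)) ?_
  rintro J hJ F B ⟨w1, w2⟩ b z gc gT g₀ G H T TH Gt Ht W
  obtain ⟨B₂, CL, Cp, hB₂, hPB₂, hNw, hΞ⟩ := w1 b z gc gT g₀ G H T TH Gt Ht W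
  have W₂ := W.res (κ₁ := 1 / K₃) (κ₂ := κ₁) hB₂ (by
    rw [one_div_mul_eq_div, div_le_iff₀ hK₃, mul_comm]
    exact hPB₂) hκ₁ (by
    rw [mul_one_div, le_div_iff₀ hK₃]
    exact hκ)
  obtain ⟨B₃, hB₃, hPB₃, hTie⟩ := w2 B₂ hB₂ hPB₂ b z gc gT g₀ G H T TH Gt Ht CL Cp W₂ hΞ
  refine ⟨B₃, CL, Cp, fun ω hω => hB₂ ω (hB₃ ω hω), ?_, hNw.mono hB₃ le_rfl le_rfl,
    hXs _ _ _ _ _ _ _ _ _ _ hB₃ hΞ, ?_⟩
  · rw [mul_assoc]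
    exact hPB₂.trans (mul_le_mul_of_nonneg_left hPB₃ hK₃.le)
  have hP := ((hnv J hJ F b κ z (fun _ => ⌊mb * J⌋₊ + (⌊o 3 * J⌋₊ - ⌊o 0 * J⌋₊)) B gc gT g₀ G H
    T TH Gt Ht (fun _ => le_rfl) W).sub (B' := B₃) fun ω hω => hB₂ ω (hB₃ ω hω)).deg hDD
  have hC' : NwCU F c r Dw ⌊mb * J⌋₊ (⌊o 3 * J⌋₊ - ⌊o 0 * J⌋₊) ⌊χ * J⌋₊ ⌊lv 0 r * J⌋₊
      (sN (lv 0) J r r) (fun k => ⌊o (fr4 k) * J⌋₊) (fun k => g₀ (fr4 k)) B₃
      (fun k => G (fr4 k)) (Ht 0) CL Cp := by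
    rw [sN_r]
    exact hNw.mono hB₃ le_rfl le_rfl
  exact hclo (⟨hP, hC'⟩ : NwDU F c r Dw 3 N₂ ⌊a * J⌋₊ ⌊mb * J⌋₊ (⌊o 0 * J⌋₊ - ⌊o 2 * J⌋₊)
    (⌊o 3 * J⌋₊ - ⌊o 0 * J⌋₊) ⌊χ * J⌋₊ ⌊prF C a η₀ Pt (fun k => lv k (r + 1)) o * J⌋₊
    ⌊(Eb + 2 * η₀) * J⌋₊ ⌊lv 0 r * J⌋₊ (sN (lv 0) J r) _
    (fun k => ⌊o (fr4 k) * J⌋₊) (fun k => z (fr4 k)) (fun k l => ⌊b (fr4 k) l * J⌋₊)
    (gX gc) (gX gT) (fun k => g₀ (fr4 k)) B₃ (fun k => G (fr4 k)) (tX F c G T)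
    (fun k => H (fr4 k)) (fun k => TH (fr4 k)) (Ht 0) CL Cp) hTie

/-- **The slope hypothesis with a closed gradient** at one scale, from the closed polynomials of the
frame. -/
theorem recNy_slhT (Dw r C' : ℕ) : ∃ CT : ℕ, ∀ {m : ℕ} {S : PCl m}
    {P P₂ : List (Fin m) × Fin m → ℝ → ℝ → ℝ} {θ θ₂ : ℝ} {c : ℕ → Fin m}
    {Pt : ℝ → ℝ → ℝ} {R : ℕ → Prop} {S₂ D Dr : ℕ} {vw₀ vw : ℕ → ℝ}
    {su s y A k₁ K Eb e₂ ε q t C h X κ κ₁ K₃ K₄ : ℝ} {Ξ : XiN m},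
    RecNy S P P₂ θ θ₂ c r Pt R S₂ 1 3 vw₀ su s y A k₁ K Eb e₂ ε q t → ∀ N₁ N₂ : ℕ, 1 ≤ N₁ → 3 ≤ N₂ →
    1 ≤ su → 1 < s → 1 ≤ C → 0 < h → 3 * C * ε < h → 10 * (C * h) < X → X ≤ 1 / 4 →
    D ≤ Dw →
    (∀ (J : ℕ) (F : Fam m J) (B B' : F.Ω → Prop) g₀ G H Ht CL Cp, Sub B' B →
      Ξ J F B g₀ G H Ht CL Cp → Ξ J F B' g₀ G H Ht CL Cp) →
    0 < K₃ → 0 ≤ κ₁ → κ * K₃ ≤ κ₁ →
    SlHU S c r D Dw Dr N₁ N₂ R C (t + A * q) Eb (3 * ε * q) (h * q) (X * q) (s * q) Pt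
      (fun k => t + vG y k₁ vw k * q)
      (fun k l => lvN P c (r + 1) Pt l (t + vG y k₁ vw k * q) (t + vG y k₁ vw k * q))
      (fun k l => bet P c l (t + A * q) (t + vG y k₁ vw k * q)) κ K₃ Ξ →
    TtB S c r D Dw C' Dr N₁ N₂ R C (t + A * q) Eb (3 * ε * q) (h * q) (X * q) (s * q) Pt
      (fun k => t + vG y k₁ vw k * q)
      (fun k l => lvN P c (r + 1) Pt l (t + vG y k₁ vw k * q) (t + vG y k₁ vw k * q))
      (fun k l => bet P c l (t + A * q) (t + vG y k₁ vw k * q)) κ₁ K₄ Ξ →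
    SlHU S c r D Dw Dr N₁ N₂ R C (t + A * q) Eb (3 * ε * q) (h * q) (X * q) (s * q) Pt
      (fun k => t + vG y k₁ vw k * q)
      (fun k l => lvN P c (r + 1) Pt l (t + vG y k₁ vw k * q) (t + vG y k₁ vw k * q))
      (fun k l => bet P c l (t + A * q) (t + vG y k₁ vw k * q)) κ (K₃ * K₄)
      (fun J F B g₀ G H Ht CL Cp => Ξ J F B g₀ G H Ht CL Cp ∧
        XiCl c r Dw CT (X * q) (s * q) (fun k => t + vG y k₁ vw k * q)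
        (fun k l => lvN P c (r + 1) Pt l (t + vG y k₁ vw k * q) (t + vG y k₁ vw k * q))
        J F B g₀ G H Ht CL Cp) := by
  obtain ⟨CT, hcl⟩ := slhT_cl Dw r C'
  refine ⟨CT, ?_⟩
  intro m S P P₂ θ θ₂ c Pt Rr S₂ D Dr vw₀ vw su s y A k₁ K Eb e₂ ε q t C h X κ κ₁ K₃ K₄ Ξ R
    N₁ N₂ hN₁ hN₂ hsu hs hC hh hε1 hhX hX4 hDw hXs hK₃ hκ₁ hκ hSl hU
  have hC0 : 0 < C := by linarith
  have a4 : h ≤ C * h := le_mul_of_one_le_left hh.le hC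
  have hXp : 0 < X := by
    have : 0 < C * h := by positivity
    linarith
  have hq := R.q0
  have hε0 := R.ε0
  have hkk := R.kk
  have hkK := R.kK
  obtain ⟨hy1, hyA, hsA⟩ := R.yA
  have hsq : q < s * q := lt_mul_of_one_lt_left hq hs
  have hyq : 3 / 2 * q ≤ y * q := mul_le_mul_of_nonneg_right hy1 hq.le
  have hyAq : y * q + q / 2 ≤ A * q := by
    have := mul_le_mul_of_nonneg_right hyA hq.le
    linarith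
  have hsAq : s * q + q ≤ A * q := by
    have := mul_le_mul_of_nonneg_right hsA hq.le
    linarith
  have hk1q : A * q + q ≤ k₁ * q := by
    have := mul_le_mul_of_nonneg_right hkk hq.le
    linarith
  have hKq : 2 * (A * q) + k₁ * q + 4 * q ≤ K * q := by
    have := mul_le_mul_of_nonneg_right hkK hq.le
    linarith
  have hsy : s * q + y * q ≤ s * (y * q) + q := by
    have h1 : 0 ≤ (s - 1) * (y - 1) * q :=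
      mul_nonneg (mul_nonneg (by linarith) (by linarith)) hq.le
    nlinarith
  have hsuy : su * q + y * q ≤ su * (y * q) + q := by
    have h1 : 0 ≤ (su - 1) * (y - 1) * q :=
      mul_nonneg (mul_nonneg (by linarith) (by linarith)) hq.le
    nlinarith
  have hεq : 0 ≤ ε * q := mul_nonneg hε0 hq.le
  have hεq3 : 3 * (ε * q) ≤ h * q := by
    have h1 : ε ≤ C * ε := le_mul_of_one_le_left hε0 hC
    have := mul_le_mul_of_nonneg_right (show 3 * ε ≤ h by linarith) hq.le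
    linarith
  have hhq : 0 < h * q := mul_pos hh hq
  have b3 : 4 * (X * q) ≤ q := by
    have := mul_le_mul_of_nonneg_right hX4 hq.le
    linarith
  have b4 : h * q ≤ C * (h * q) := by
    have := mul_le_mul_of_nonneg_right a4 hq.le
    linarith
  have b7 : 10 * (C * (h * q)) < X * q := by
    have := mul_lt_mul_of_pos_right hhX hq
    linarith
  obtain ⟨o, ho⟩ : ∃ o : ℕ → ℝ, o = fun k => t + vG y k₁ vw k * q := ⟨_, rfl⟩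
  have hoE : ∀ k, o k = t + vG y k₁ vw k * q := fun k => by rw [ho]
  have o2 : o 2 = t - k₁ * q := by rw [hoE 2]; simp [vG]; ring
  have o0 : o 0 = t := by rw [hoE 0]; simp [vG]
  have o3 : o 3 = t + q := by rw [hoE 3]; simp [vG]
  have o1 : o 1 = t + y * q := by rw [hoE 1]; simp [vG]
  obtain ⟨a, ha⟩ : ∃ a : ℝ, a = t + A * q := ⟨_, rfl⟩
  have R2 : ∀ k ≤ 1, o k ≤ Pt (o k) (o k) ∧ a ≤ Pt a (o k) := fun k hk => by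
    have h1 := R.low k hk
    have h2 : vG y k₁ vw₀ k = vG y k₁ vw k := by interval_cases k <;> simp [vG]
    rw [h2] at h1
    rw [hoE k, ha]
    exact h1
  have R3 := R.stp
  have R5 := R.beu
  have hot : ∀ k, t + vG y k₁ vw k * q = o k := fun k => by rw [ho]
  have hot2 : (fun k => t + vG y k₁ vw k * q) = o := ho.symm
  rw [hot2] at hU hSl ⊢
  simp only [hot, ← ha] at R3 R5 hU hSl ⊢
  have hlr : ∀ x y : ℝ, lvN P c (r + 1) Pt (r + 1) x y = Pt x y := fun x y => by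
    unfold lvN
    rw [if_neg (lt_irrefl (r + 1))]
  have hbx : ∀ k ≤ 3, |o k - t| ≤ K * q := by
    intro k hk
    rw [abs_le]
    interval_cases k
    · rw [o0]; constructor <;> linarith
    · rw [o1]; constructor <;> linarith
    · rw [o2]; constructor <;> linarith
    · rw [o3]; constructor <;> linarith
  have hax : |a - t| ≤ K * q := by
    rw [abs_le, ha]
    constructor <;> linarith
  have ht0 := R.t0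
  have ht1 := R.t1
  have hlt := R.lvr
  have e1 := abs_le.1 (hlt (o 3) (hbx 3 (by norm_num)))
  have e2 := abs_le.1 (hlt (o 1) (hbx 1 (by norm_num)))
  have e3 := abs_le.1 (R.lvu (o 3) (hbx 3 (by norm_num)))
  have e4 := abs_le.1 (R.lvu (o 1) (hbx 1 (by norm_num)))
  have hsuq : q ≤ su * q := le_mul_of_one_le_left hq.le hsu
  rw [o3] at e1 e3
  rw [o1] at e2 e4
  have R20 := R2 0 (by omega)
  have R21 := R2 1 le_rfl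
  rw [o0] at R20
  rw [o1] at R21
  refine hcl (m := m) (S := S) (c := c) (Pt := Pt) (a := a)
    (Eb := Eb) (ε₀ := 3 * ε * q) (η₀ := h * q) (χ := X * q) (mb := s * q) (κ := κ) (ζ := h * q)
    (o := o) (κ₁ := κ₁)
    hN₁ hN₂ hDw R.inj R.rgh hC hhq ?_ ?_ ?_ ?_ ?_ ?_ ?_ ?_ ?_ hhq.le
    ?_ ?_ ?_ ?_ ?_ ?_ ?_ hXs hK₃ hκ₁ hκ hSl hU
  · rw [o0]; linarith
  · rw [hlr, o1]; linarith
  · rw [o1]; linarith
  · linarith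
  · intro hR
    have := R5 hR
    rw [o1]
    linarith
  · rw [o2, o0, o3]; linarith
  · rw [o0, o3]; linarith
  · rw [o0, o3]; linarith
  · rw [o1, o3]; linarith
  · linarith
  · intro k hk j hj
    have k0 := abs_le.1 (R.lv j hj (o k) (hbx k hk))
    rw [o0, abs_le]
    constructor <;> linarith
  · rw [o0, o3]
    linarith
  · rw [o1, o3]
    linarith
  · rw [hlr, hlr, o0, o3]
    linarith
  · rw [hlr, hlr, o0, o3, o1]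
    linarith
  · rw [hlr, o0, o3]
    linarith

/-- **The numbers of the windows**. -/
structure TieR (r : ℕ) (o : ℕ → ℝ) (lv : ℕ → ℕ → ℝ) (ib iw ie : ℕ) (η₀ mb ζ χ w u φ κ₂ : ℝ) :
    Prop where
  o0 : 0 ≤ o ib
  ob2 : o ib + η₀ ≤ o 2
  o20 : o 2 ≤ o 0
  ow : o iw ≤ o 0
  ow0 : w + 2 * φ ≤ o 0
  o03 : o 0 ≤ o 3
  o3e : o 3 + η₀ ≤ o ie
  o01 : o 0 ≤ 1
  QM : o 3 - o 0 < mb
  l0 : ∀ j ≤ r + 1, 0 ≤ lv 0 j
  lvd : ∀ k, k = 2 ∨ k = ib ∨ k = iw ∨ k = ie → ∀ j < r, |lv k j - lv 0 j - (o k - o 0)| ≤ ζ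
  lu : lv 3 r + (o ie - o 3) ≤ lv ie r + ζ
  N3 : lv 0 (r + 1) + mb ≤ lv 3 (r + 1) + ζ
  Ne : lv 0 (r + 1) + (mb - (o 3 - o 0)) + (o ie - o 0) ≤ lv ie (r + 1) + ζ
  Nw : lv 0 (r + 1) + (mb - (o 3 - o 0)) ≤ lv iw (r + 1) + κ₂ * u + ζ
  ζχ : ζ < χ

/-- The numbers, for large `J`. -/
theorem TieR.toN {r : ℕ} {o : ℕ → ℝ} {lv : ℕ → ℕ → ℝ} {ib iw ie : ℕ}
    {η₀ mb ζ χ w u φ κ₂ : ℝ} (T : TieR r o lv ib iw ie η₀ mb ζ χ w u φ κ₂) (hη₀ : 0 ≤ η₀)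
    (hχ : 0 ≤ χ) :
    ∃ J₀ : ℕ, ∀ J : ℕ, J₀ ≤ J → TieN J r o lv ib iw ie (sN (lv 0) J r) ⌊mb * J⌋₊
      (⌊o 3 * J⌋₊ - ⌊o 0 * J⌋₊) ⌊χ * J⌋₊ w u φ κ₂ := by
  have big : ∀ {x y : ℝ}, 0 < x → ∃ J₀ : ℕ, ∀ J : ℕ, J₀ ≤ J → y ≤ x * J := by
    intro x y hx
    refine ⟨⌈y / x⌉₊, fun J hJ => ?_⟩
    have h1 : y / x ≤ J := (Nat.le_ceil _).trans (by exact_mod_cast hJ)
    rw [div_le_iff₀ hx] at h1
    linarith
  obtain ⟨J₁, hJ₁⟩ := big (x := χ - ζ) (y := 2) (by linarith [T.ζχ])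
  obtain ⟨J₂, hJ₂⟩ := big (x := mb - (o 3 - o 0)) (y := 3) (by linarith [T.QM])
  refine ⟨max J₁ J₂, fun J hJ => ?_⟩
  have j1 := hJ₁ J (by omega)
  have j2 := hJ₂ J (by omega)
  have hJ0 : (0 : ℝ) ≤ J := Nat.cast_nonneg J
  have mulJ : ∀ {x y : ℝ}, x ≤ y → x * J ≤ y * J := fun h => mul_le_mul_of_nonneg_right h hJ0
  have t0 := T.o0
  have t1 := T.ob2
  have t2 := T.o20
  have t3 := T.o03
  have t4 := T.o3e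
  have t5 := T.QM
  have h0 : 0 ≤ o 0 := by linarith
  have h3 : 0 ≤ o 3 := by linarith
  have hmb : 0 ≤ mb := by linarith
  obtain ⟨f01, f02⟩ := flo (mul_nonneg h0 hJ0)
  obtain ⟨f31, f32⟩ := flo (mul_nonneg h3 hJ0)
  obtain ⟨fm1, fm2⟩ := flo (mul_nonneg hmb hJ0)
  obtain ⟨fχ1, fχ2⟩ := flo (mul_nonneg hχ hJ0)
  have hfl : ⌊o 0 * J⌋₊ ≤ ⌊o 3 * J⌋₊ := Nat.floor_le_floor (mulJ t3)
  have cQ : (((⌊o 3 * J⌋₊ - ⌊o 0 * J⌋₊ : ℕ) : ℕ) : ℝ) = (⌊o 3 * J⌋₊ : ℝ) - ⌊o 0 * J⌋₊ :=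
    Nat.cast_sub hfl
  obtain ⟨x, hx⟩ : ∃ x : ℕ, x = ⌊χ * J⌋₊ := ⟨_, rfl⟩
  rw [← hx] at fχ1 fχ2 ⊢
  have hζJ : ζ * J + 1 ≤ x := by
    have e1 : (χ - ζ) * (J : ℝ) = χ * J - ζ * J := by ring
    rw [e1] at j1
    linarith
  have hQM : (⌊o 3 * J⌋₊ : ℝ) - ⌊o 0 * J⌋₊ ≤ ⌊mb * J⌋₊ := by
    have e1 : (mb - (o 3 - o 0)) * (J : ℝ) = mb * J - o 3 * J + o 0 * J := by ring
    rw [e1] at j2
    linarith
  have l0 : ∀ j ≤ r + 1, ((⌊lv 0 j * J⌋₊ : ℕ) : ℝ) ≤ lv 0 j * J ∧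
      lv 0 j * J < (⌊lv 0 j * J⌋₊ : ℕ) + 1 := fun j hj =>
    ⟨Nat.floor_le (mul_nonneg (T.l0 j hj) hJ0), Nat.lt_floor_add_one _⟩
  have hlN := (l0 (r + 1) le_rfl).1
  refine
    { o0 := t0
      ob2 := by linarith
      o20 := t2
      ow := T.ow
      ow0 := T.ow0
      o03 := t3
      o3e := by linarith
      o01 := T.o01
      Qe := rfl
      QM := by
        have : (((⌊o 3 * J⌋₊ - ⌊o 0 * J⌋₊ : ℕ) : ℕ) : ℝ) ≤ ((⌊mb * J⌋₊ : ℕ) : ℝ) := by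
          rw [cQ]
          exact hQM
        exact_mod_cast this
      sj := fun j hj => by
        rw [sN_lt hj]
        exact (l0 j (by omega)).2.le
      lvd := fun k hk j hj => ?_
      sj' := fun j hj => by
        rw [sN_lt hj]
        exact (l0 j (by omega)).1
      lu := ?_
      N3 := ?_
      Ne := ?_
      Nw := ?_ }
  · obtain ⟨a1, a2⟩ := abs_le.1 (T.lvd k hk j hj)
    constructor
    · have := mulJ (show lv k j - lv 0 j - (o k - o 0) ≤ ζ from a2)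
      linarith
    · have := mulJ (show lv 0 j - lv k j - (o 0 - o k) ≤ ζ by linarith)
      linarith
  · have := mulJ T.lu
    rw [add_mul (lv ie r)] at this
    linarith
  · have := mulJ T.N3
    rw [add_mul, add_mul] at this
    rw [sN_r]
    linarith
  · have := mulJ T.Ne
    rw [sN_r, cQ]
    have e1 : (lv 0 (r + 1) + (mb - (o 3 - o 0)) + (o ie - o 0)) * (J : ℝ) =
      lv 0 (r + 1) * J + mb * J - o 3 * J + o 0 * J + (o ie - o 0) * J := by ring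
    rw [e1, add_mul] at this
    linarith
  · have := mulJ T.Nw
    rw [sN_r, cQ]
    have e1 : (lv 0 (r + 1) + (mb - (o 3 - o 0))) * (J : ℝ) =
      lv 0 (r + 1) * J + mb * J - o 3 * J + o 0 * J := by ring
    rw [e1, add_mul, add_mul] at this
    linarith

/-- **Natural labels of a list of windows** over each label of the family, on a part. -/
def NzE {m : ℕ} (S : PCl m) (Ψ : Fml m) (c : ℕ → Fin m) (r₀ : ℕ) (κ : Fin m) (D : ℕ) (w : ℝ)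
    (n : ℕ) (v p₁ p₂ e u p : ℕ → ℝ) : Prop :=
  Bas S (fun J F A => ∀ (V₀ : Type) (z₀ : PtT F → V₀) (z₀' : LnT F → V₀)
      (G₀ : V₀ → MvPolynomial (Option (Fin m)) ℝ), Ψ J F A V₀ z₀ z₀' G₀ →
      ∃ B : F.Ω → Prop, Sub B A ∧ Pe F.p A ≤ 8 ^ n * Pe F.p B ∧
        ∀ i < n, ∃ (V : Type) (z : PtT F → V) (z' : LnT F → V)
          (G : V → MvPolynomial (Option (Fin m)) ℝ) (V₁ V₂ : Type) (P₁ : ℕ) (z₁ : PtT F → V₁)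
          (z₁' : LnT F → V₁)
          (G₁ : V₁ → MvPolynomial (Option (Fin m)) ℝ) (P₂ : ℕ) (z₂ : PtT F → V₂)
          (z₂' : LnT F → V₂) (H : V₂ → MvPolynomial (Option (Fin m)) ℝ)
          (f : V → V₀ × (V₁ × V₂)),
          NzL c r₀ κ D D D w (v i) (p₁ i) (p₂ i) (e i) (u i) (p i) F B z z' G z₀' G₀ P₁
            z₁ z₁' G₁ P₂ z₂ z₂' H f)

/-- **The output of the class theorem of a counted target** for a family `Θ` of labels. -/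
def V0L {m : ℕ} (S : PCl m) (c : ℕ → Fin m) (k D D' Dr N M : ℕ) (C₀ a Eb ηm : ℝ)
    (ow η σ : ℕ → ℝ) (lv : ℕ → ℕ → ℝ) (s κ₂ ι φ w u : ℝ) (tie : Prop) (ix : ℕ → ℕ) (cb M₀ : ℕ)
    (Θ : Fml m) : Prop :=
  Bas S (fun J F A => ∀ {bb : ℕ → ℕ → ℝ} {κ : ℝ} {z : ℕ → ℕ → ℕ}
    {g₀ : ℕ → ℕ → ℕ} {Gc : ℕ → PtT F → ℕ → MvPolynomial (Option (Fin m)) ℝ}
    {H : ℕ → LnT F → ℕ → MvPolynomial (Option (Fin m)) ℝ}, κ ≤ 1 →
    WinB F c (k + 1) D Dr N M C₀ a Eb ηm ow η σ lv bb κ z A g₀ Gc H →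
    V0Z J M u ow ix (fun j => ix (cb * M₀ + j)) (cb * M₀) M₀ z →
    ∀ (V : Type) (y : PtT F → V) (y' : LnT F → V)
    (g : V → MvPolynomial (Option (Fin m)) ℝ),
    Θ J F A V y y' g → ∃ B : F.Ω → Prop, Sub B A ∧ Pe F.p A ≤ 8 * Pe F.p B ∧
      V0E F c k D' s κ₂ ι φ w u tie (ix 0) (ix (cb * M₀)) (ix (cb * M₀ + M₀)) g₀ Gc
        (fun x => g (y x)) B)

/-- The radii of the windows, for large `J`. -/
theorem v0z_of {N₂ : ℕ} {o : ℕ → ℝ} {η₀ u : ℝ} {ix : ℕ → ℕ} {cb M₀ : ℕ} (hη₀ : 0 < η₀)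
    (hu : 0 < u) (h2 : 2 ≤ cb * M₀) (hix : ∀ j ≤ cb * M₀ + M₀, ix j ≤ N₂)
    (hst : ∀ j < cb * M₀ + M₀, o (ix j) + η₀ ≤ o (ix (j + 1))) (h0 : 0 ≤ o (ix 0))
    (h1 : o (ix 1) ≤ o (ix 0) + u / 2) :
    ∃ J₀ : ℕ, ∀ J : ℕ, J₀ ≤ J → ∀ z : ℕ → ℕ → ℕ,
      (∀ i ≤ N₂, ∀ j ≤ N₂, o i + η₀ ≤ o j → z i j = ⌊o j * J⌋₊ - ⌊o i * J⌋₊) →
      V0Z J N₂ u o ix (fun j => ix (cb * M₀ + j)) (cb * M₀) M₀ z := by
  have big : ∀ {x y : ℝ}, 0 < x → ∃ J₀ : ℕ, ∀ J : ℕ, J₀ ≤ J → y ≤ x * J := by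
    intro x y hx
    refine ⟨⌈y / x⌉₊, fun J hJ => ?_⟩
    have h1 : y / x ≤ J := (Nat.le_ceil _).trans (by exact_mod_cast hJ)
    rw [div_le_iff₀ hx] at h1
    linarith
  obtain ⟨J₁, hJ₁⟩ := big (x := u / 2) (y := 2) (by linarith)
  obtain ⟨J₂, hJ₂⟩ := big (x := η₀) (y := 3) hη₀
  refine ⟨max J₁ J₂, fun J hJ z hz => ?_⟩
  have j1 := hJ₁ J (by omega)
  have j2 := hJ₂ J (by omega)
  have hJ0 : (0 : ℝ) ≤ J := Nat.cast_nonneg J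
  have mulJ : ∀ {x y : ℝ}, x ≤ y → x * J ≤ y * J := fun h => mul_le_mul_of_nonneg_right h hJ0
  have s01 := hst 0 (by omega)
  have s12 := hst 1 (by omega)
  rw [zero_add] at s01
  have h10 : 0 ≤ o (ix 1) := by linarith
  have h20 : 0 ≤ o (ix 2) := by linarith
  obtain ⟨f01, f02⟩ := flo (mul_nonneg h0 hJ0)
  obtain ⟨f11, f12⟩ := flo (mul_nonneg h10 hJ0)
  obtain ⟨f21, f22⟩ := flo (mul_nonneg h20 hJ0)
  refine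
    { zb := fun j hj => ⟨ix (j + 1), hix _ (by omega), hz _ (hix _ (by omega)) _
        (hix _ (by omega)) (hst j (by omega))⟩
      zf := fun j hj => ⟨ix (cb * M₀ + (j + 1)), hix _ (by omega), hz _ (hix _ (by omega)) _
        (hix _ (by omega)) (hst (cb * M₀ + j) (by omega))⟩
      zq := ⟨ix 1, hix _ (by omega), ix 2, hix _ (by omega), ?_, ?_⟩ }
  · rw [hz _ (hix 0 (by omega)) _ (hix 1 (by omega)) s01]
    have hfl : ⌊o (ix 0) * J⌋₊ ≤ ⌊o (ix 1) * J⌋₊ := Nat.floor_le_floor (mulJ (by linarith))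
    rw [Nat.cast_sub hfl]
    have := mulJ h1
    rw [add_mul] at this
    have e1 : u * (J : ℝ) = u / 2 * J + u / 2 * J := by ring
    rw [e1]
    linarith
  · rw [hz _ (hix 0 (by omega)) _ (hix 1 (by omega)) s01,
      hz _ (hix 0 (by omega)) _ (hix 2 (by omega)) (by linarith)]
    have hfl : ⌊o (ix 0) * J⌋₊ ≤ ⌊o (ix 1) * J⌋₊ := Nat.floor_le_floor (mulJ (by linarith))
    have h3 : ⌊o (ix 1) * J⌋₊ + 1 ≤ ⌊o (ix 2) * J⌋₊ := by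
      have h4 := mulJ s12
      rw [add_mul] at h4
      have : ((⌊o (ix 1) * J⌋₊ + 1 : ℕ) : ℝ) ≤ ((⌊o (ix 2) * J⌋₊ : ℕ) : ℝ) := by
        push_cast
        linarith
      exact_mod_cast this
    omega

/-- **The closed polynomials of the frame** from natural labels with companions and the output of the
class theorem. -/
theorem ttb_of (D Db Dw r : ℕ) (hDb : D ≤ Db) (hDw : nzD Db + 1 ≤ Dw) : ∃ C' : ℕ,
    ∀ {S : PCl (r + 2)} {c : ℕ → Fin (r + 2)} {Dr N N₂ : ℕ} {R : ℕ → Prop}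
    {C a Eb ε₀ η₀ ζ χ mb : ℝ} {Pt : ℝ → ℝ → ℝ} {o : ℕ → ℝ} {lv be : ℕ → ℕ → ℝ} {κ₁ : ℝ}
    {Θ : Fm2 (r + 2)} {n : ℕ} {vv : ℕ → ℝ} {Ψ : Fml (r + 2)} {wΨ : ℝ}
    {p₁ p₂ eN uN pN : ℕ → ℝ} {i₀ i : ℕ} {w₀ w u φ κ₂ sR ι : ℝ} {tie : Prop} {cb M₀ : ℕ}
    {ix : ℕ → ℕ}, Set.InjOn c (Set.Iio (r + 2)) → 3 ≤ N₂ → 1 ≤ C → 0 < η₀ → 0 < χ →
    C * η₀ < χ → 0 < u →
    (∀ (J : ℕ) (F : Fam (r + 2) J) (A B : F.Ω → Prop) (V : Type) (z : PtT F → V)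
      (z' : LnT F → V) (G : V → MvPolynomial (Option (Fin (r + 2))) ℝ), Sub B A →
      Ψ J F A V z z' G → Ψ J F B V z z' G) →
    (∀ (J : ℕ) (F : Fam (r + 2) J) (A : F.Ω → Prop) (V : Type) (z : PtT F → V)
      (z' : LnT F → V) (G : V → MvPolynomial (Option (Fin (r + 2))) ℝ), Ψ J F A V z z' G →
      (∀ y, (G y).totalDegree ≤ Db) ∧ (∀ y, DpI ((range (r + 1)).image c) (G y)) ∧
      ∀ ω, A ω → z (ptr F J ω) = z' (slam F ⌊wΨ * J⌋₊ ω)) →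
    (∀ (J : ℕ) (F : Fam (r + 2) J) (A : F.Ω → Prop) (V C : Type) (z : PtT F → V)
      (z' : LnT F → V) (G₁ G₂ : V → MvPolynomial (Option (Fin (r + 2))) ℝ) (cc : LnT F → C),
      Θ J F A V C z z' G₁ G₂ cc →
      NzF Ψ c r (c (r + 1)) Db Db Db wΨ w₀ (p₁ i₀) (p₂ i₀) (eN i₀) (uN i₀) (pN i₀) J F A V z z'
        G₂) →
    i < n → vv i = w → wΨ ≤ w₀ → w₀ ≤ w → w ≤ o 0 → 0 ≤ w₀ →
    NzE S Ψ c r (c (r + 1)) Db wΨ n vv p₁ p₂ eN uN pN →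
    V0L S c r Db (nzD Db) Dr N₂ N₂ C a Eb η₀ o (fun _ => η₀) (fun _ => η₀) lv sR κ₂ ι φ w u tie ix
      cb M₀ (NzW Ψ c r (c (r + 1)) Db wΨ n vv p₁ p₂ eN uN pN i) →
    2 ≤ cb * M₀ → (∀ j ≤ cb * M₀ + M₀, ix j ≤ N₂) →
    (∀ j < cb * M₀ + M₀, o (ix j) + η₀ ≤ o (ix (j + 1))) → o (ix 1) ≤ o (ix 0) + u / 2 →
    TieR r o lv (ix 0) (ix (cb * M₀)) (ix (cb * M₀ + M₀)) η₀ mb ζ χ w u φ κ₂ →
    0 ≤ κ₁ → κ₁ * 8 ^ n ≤ 1 →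
    TtB S c r D Dw C' Dr N N₂ R C a Eb ε₀ η₀ χ mb Pt o lv be κ₁ (8 ^ n * 8) (XiF Θ w₀) := by
  obtain ⟨C', hth⟩ := tie_h D Dw r (by have := le_nzD Db; omega) (by omega)
  refine ⟨C', ?_⟩
  intro S c Dr N N₂ R C a Eb ε₀ η₀ ζ χ mb Pt o lv be κ₁ Θ n vv Ψ wΨ p₁ p₂ eN uN pN i₀ i w₀ w u φ
    κ₂ sR ι tie cb M₀ ix hc hN₂ hC hη₀ hχ hCη hu hΨs hΨd hΘn hi hvi hΨ0 h0w hw0 hw00 hE hV h2M hix
    hst h1u hT hκ₁ hκn
  obtain ⟨J₁, hJ₁⟩ := hT.toN hη₀.le hχ.le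
  obtain ⟨J₂, hJ₂⟩ := v0z_of (N₂ := N₂) (o := o) hη₀ hu h2M hix hst hT.o0 h1u
  have big : ∀ {x y : ℝ}, 0 < x → ∃ J₀ : ℕ, ∀ J : ℕ, J₀ ≤ J → y ≤ x * J := by
    intro x y hx
    refine ⟨⌈y / x⌉₊, fun J hJ => ?_⟩
    have h1 : y / x ≤ J := (Nat.le_ceil _).trans (by exact_mod_cast hJ)
    rw [div_le_iff₀ hx] at h1
    linarith
  obtain ⟨J₃, hJ₃⟩ := big (x := χ - C * η₀) (y := 2) (by linarith)
  have h8 : (0 : ℝ) < 8 ^ n := by positivity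
  refine Bas.mono (max J₁ (max J₂ J₃)) (hE.and (bas_big hV (8 ^ n))) ?_
  rintro J hJ F B ⟨w1, w2⟩ b z gc gT g₀ G H T TH Gt Ht CL Cp W ⟨V, Cc, zt, zt', G₁, G₂, cc, hΘ, hCp⟩
  have hNn := hJ₁ J (by omega)
  have hZ := hJ₂ J (by omega) z W.zz
  have j3 := hJ₃ J (by omega)
  have hJ0 : (0 : ℝ) ≤ J := Nat.cast_nonneg J
  obtain ⟨V₀, V₁, V₂, z₀, z₀', G₀, Q₁, y₁, y₁', E₁, Q₂, y₂, y₂', E₂, f, hΨ, hL0⟩ :=
    hΘn J F B V Cc zt zt' G₁ G₂ cc hΘ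
  obtain ⟨B₁, hB₁, hPB₁, hnl⟩ := w1 V₀ z₀ z₀' G₀ hΨ
  have hΨ1 := hΨs J F B B₁ V₀ z₀ z₀' G₀ hB₁ hΨ
  obtain ⟨VN, zN, zN', GN, U₁, U₂, R₁, x₁, x₁', K₁, R₂, x₂, x₂', K₂, fN, hLN⟩ := hnl i hi
  have hNW : NzW Ψ c r (c (r + 1)) Db wΨ n vv p₁ p₂ eN uN pN i J F B₁ VN zN zN' GN :=
    ⟨⟨V₀, U₁, U₂, z₀, z₀', G₀, R₁, x₁, x₁', K₁, R₂, x₂, x₂', K₂, fN, hΨ1, hLN⟩, fun k hk => by
      obtain ⟨Va, za, za', Ga, Y₁, Y₂, O₁, t₁, t₁', L₁, O₂, t₂, t₂', L₂, fa, hLk⟩ := hnl k hk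
      exact ⟨Va, za, za', Ga, V₀, U₁, U₂, z₀, z₀', G₀, R₁, x₁, x₁', K₁, R₂, x₂, x₂', K₂, fN, Y₁, Y₂,
        O₁, t₁, t₁', L₁, O₂, t₂, t₂', L₂, fa, hΨ1, hLN, hLk⟩⟩
  have W₁ := W.wb.res (κ₁ := 1 / 8 ^ n) (κ₂ := 1) hB₁ (by
    rw [one_div_mul_eq_div, div_le_iff₀ h8, mul_comm]
    exact hPB₁) zero_le_one (by
    rw [one_mul, le_div_iff₀ h8]
    exact hκn)
  obtain ⟨B₂, hB₂, hPB₂, hE2⟩ := w2 B₁ hB₁ hPB₁ le_rfl (W₁.deg hDb) hZ VN zN zN' GN hNW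
  -- the difference of the labels
  rw [hvi] at hLN
  have hP : NzP Ψ c r (c (r + 1)) Db wΨ w₀ (p₁ i₀) (p₂ i₀) (eN i₀) (uN i₀) (pN i₀) w (p₁ i)
      (p₂ i) (eN i) (uN i) (pN i) J F B₁ V zt zt' G₂ VN zN zN' GN :=
    ⟨V₀, V₁, V₂, z₀, z₀', G₀, Q₁, y₁, y₁', E₁, Q₂, y₂, y₂', E₂, f, U₁, U₂, R₁, x₁, x₁', K₁, R₂, x₂,
      x₂', K₂, fN, hΨ1, hL0.sub hB₁, hLN⟩
  have hT01 := hT.o01
  obtain ⟨Vd, zd, zd', Da, dDa, pDa, cDa, eDa⟩ := nzp_dif hΨd hΨ0 h0w (hw0.trans hT01) hP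
  have hwf : ⌊w * J⌋₊ ≤ ⌊o 0 * J⌋₊ :=
    Nat.floor_le_floor (mul_le_mul_of_nonneg_right hw0 hJ0)
  have h0J : ⌊o 0 * J⌋₊ ≤ J := by
    have h1 : o 0 * (J : ℝ) ≤ J := by
      have := mul_le_mul_of_nonneg_right hT01 hJ0
      linarith
    exact (Nat.floor_le_floor h1).trans (by rw [Nat.floor_natCast])
  have hB₂B : Sub B₂ B := fun ω hω => hB₁ ω (hB₂ ω hω)
  have hlN := hNW.1.lb
  rw [hvi] at hlN
  refine ⟨B₂, hB₂B, ?_, ?_⟩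
  · rw [mul_assoc]
    exact hPB₁.trans (mul_le_mul_of_nonneg_left hPB₂ h8.le)
  -- the closed polynomials
  have W₂ := W₁.res (κ₁ := 1 / 8) (κ₂ := 8) hB₂ (by
    rw [one_div_mul_eq_div, div_le_iff₀ (by norm_num), mul_comm]
    exact hPB₂) (by norm_num) (by norm_num)
  have hfχ := flo (mul_nonneg hχ.le hJ0)
  have hdc : ∀ {k : ℕ} {E : MvPolynomial (Option (Fin (r + 2))) ℝ},
      DpI ((range k).image c) E → DepC c k E := fun hE b b' hn hb => hE b b' hn fun i hi => by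
    obtain ⟨l, hl', rfl⟩ := Finset.mem_image.1 hi
    exact hb l (Finset.mem_range.1 hl')
  have hix0 := hix 0 (by omega)
  have hixm := hix (cb * M₀) (by omega)
  have hixe := hix (cb * M₀ + M₀) le_rfl
  refine hth W₂ (GN := fun x => GN (zN x)) (X := fun L => Da (zd' (upw ⌊w * J⌋₊ ⌊o 0 * J⌋₊ L)))
    hc hN₂ hix0 hixm hixe ⟨2, by omega, W.zz _ hix0 _ (by omega) hT.ob2⟩
    ⟨_, hixe, W.zz _ (by omega) _ hixe (by linarith [hT.o3e, hT.o03, hT.o20])⟩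
    ⟨_, hixe, W.zz _ (by omega) _ hixe hT.o3e⟩ (by
      have e1 : (χ - C * η₀) * (J : ℝ) = χ * J - C * (η₀ * J) := by ring
      rw [e1] at j3
      linarith [hfχ.2]) hNn hDw hE2 (fun y => hdc (hlN.dep _)) (fun L => ?_)
    (fun L => hdc (pDa _)) fun ω hω => ?_
  · refine (dDa _).trans (max_le (by omega) ?_)
    have : Db * max 1 Db ≤ nzD Db := by
      unfold nzD
      rw [max_self]
    omega
  · have hω1 := hB₂ ω hω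
    rw [upw_slam F hwf h0J, eDa ω, hlN.cls ω hω1, hCp ω (hB₁ ω hω1)]

end Pool.TIE19
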