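import Pool.Agent.H19.TIE.Aoa
import Pool.Agent.H42.V0B.Ljk
import Pool.Agent.H92.ALT.Jn7

/-!
# The end for a steep coordinate over a thin one of the same slope

`svNC_E`: `SvNC` under `LowE`, from `VbYb`, when the slopes of `N` and `u` are equal.
-/

set_option autoImplicit false

namespace Pool.TIE19

open Finset Real MvPolynomial
open Pool.Agent.H49.Ent Pool.Agent.H32.Dense Pool.STK Pool.KA Pool.KSAT Pool.K2S Pool.PB Pool.S6C
  Pool.GEN Pool.RCD Pool.LA91 Pool.OWN68 Pool.PKG Pool.ALT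
open Pool.CHT Pool.CHX Pool.ISO Pool.D2R Pool.D2G30 Pool.V1E Pool.CR99 Pool.GRW
open Pool.UNJ (ceI)
open Pool.GRD (LbP)
open Pool.PN18 (Fm2)
open Pool.V0F (LbU ChUQ AttUQ recG_lbf chV)
open Pool.V0N (AlM alm_rec nzm_part)
open Pool.V0B19 (nzD le_nzD grV grV_zero grV_mid grV_one grV_step)
open Pool.NPZ (v0b_nzw NzW)

/-- A number between bounds. -/
theorem chV_bd {M₀ cb co j : ℕ} (hM : 1 ≤ M₀) (hj : j < (cb + co) * M₀ + 1) :
    -(cb : ℝ) ≤ chV M₀ cb j ∧ chV M₀ cb j ≤ co := by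
  have h0 : (0 : ℝ) < M₀ := by exact_mod_cast hM
  unfold chV
  have h1 : 0 ≤ (j : ℝ) / M₀ := by positivity
  have h2 : (j : ℝ) / M₀ ≤ cb + co := by
    rw [div_le_iff₀ h0]
    have : j ≤ (cb + co) * M₀ := by omega
    exact_mod_cast this
  constructor <;> linarith

/-- **The end for a steep coordinate over a thin one of the same slope.** -/
theorem svNC_E {r : ℕ} (hr : 1 ≤ r) {y a h hb β' κ₂ lu : ℝ} {Sl : ℕ → ℝ} {κ : ℕ → Kg} {ι : Type}
    {Q : PropG (r + 2) ι} {W : PropW (r + 2)} {Dv : ℕ} (hκ : ∀ l < r, κ l = .one)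
    (hκu : κ r = .thin) (hκt : κ (r + 1) = .stp) (hb0 : 0 < hb) (hb1 : hb ≤ 1)
    (hβ : β' ≤ (1 - hb) * Sl (r + 1) * Real.log 2) (hs : 1 < Sl (r + 1))
    (hab : Sl r = Sl (r + 1)) (hκ₂0 : 0 < κ₂)
    (hκ₂1 : κ₂ < (Sl (r + 1) - 1) / Sl (r + 1) * hb) (hlu3 : 3 ≤ lu)
    (hlu : Sl (r + 1) - 1 ≤ κ₂ * lu) (hy : 3 / 2 ≤ y) (hya : y + 1 / 2 ≤ a)
    (hsa : Sl (r + 1) + 1 ≤ a) (hla : lu + 1 / 2 ≤ a) (hV : VbYb r y a h hb Sl κ Q) :
    SvNC (r + 2) r y a h Sl κ (sumQ Q (sumQ (sumQ (ChUQ : PropG (r + 2) Unit)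
      (AttUQ : PropG (r + 2) Unit)) (FaQ : PropG (r + 2) (ℕ × ℕ × ℚ × ℚ))))
      (fun e : PosR => AndW W (LowE (AdmL (r + 2)) β' Dv e)) := by
  classical
  intro al hal K₀ hK₀ S₀ hS₀
  obtain ⟨Kr, Nr, Ar, Vr, hKr, hAV, hV⟩ := hV al hal K₀ hK₀ S₀ hS₀
  obtain ⟨D₀, hD₀, halm⟩ := alm_rec r S₀ hS₀
  obtain ⟨Kl, hKl, hlbf⟩ := recG_lbf (r + 2) S₀ (by omega) hS₀
  obtain ⟨b, hbd⟩ : ∃ b : ℝ, b = Sl (r + 1) := ⟨_, rfl⟩
  have hr0 : (0 : ℝ) ≤ r := Nat.cast_nonneg r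
  have hba : Sl r = b := hab.trans hbd.symm
  rw [← hbd] at hβ hs hκ₂1 hlu hsa
  have hbp : 0 < b := by linarith
  have ha0 : 0 < a := by linarith
  have hlu0 : 0 < lu := by linarith
  -- the pairs
  obtain ⟨Ap, hAp⟩ : ∃ Ap : ℕ → ℝ, Ap = fun k => if k < 2 then a else 1 := ⟨_, rfl⟩
  obtain ⟨Vp, hVp⟩ : ∃ Vp : ℕ → ℝ, Vp = fun k => if k = 1 then y else 0 := ⟨_, rfl⟩
  have ap0 : Ap 0 = a := by rw [hAp]; norm_num
  have ap1 : Ap 1 = a := by rw [hAp]; norm_num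
  have ap2 : Ap 2 = 1 := by rw [hAp]; norm_num
  have vp0 : Vp 0 = 0 := by rw [hVp]; norm_num
  have vp1 : Vp 1 = y := by rw [hVp]; norm_num
  have vp2 : Vp 2 = 0 := by rw [hVp]; norm_num
  obtain ⟨Km, hKm⟩ : ∃ Km : ℝ, Km = max Kr a := ⟨_, rfl⟩
  have m1 : Kr ≤ Km := by rw [hKm]; exact le_max_left _ _
  have m3 : a ≤ Km := by rw [hKm]; exact le_max_right _ _
  have hpp : ∀ k < 3, -Km ≤ Vp k ∧ Vp k ≤ Ap k ∧ Ap k ≤ Km := by
    intro k hk
    interval_cases k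
    · rw [ap0, vp0]
      exact ⟨by linarith, by linarith, m3⟩
    · rw [ap1, vp1]
      exact ⟨by linarith, by linarith, m3⟩
    · rw [ap2, vp2]
      exact ⟨by linarith, by linarith, by linarith⟩
  refine ⟨Km, Nr + 3, cmb Nr Ar Ap, cmb Nr Vr Vp, hKr.trans m1, fun k hk => ?_,
    fun S₂ hS₂ D hD => ?_⟩
  · rcases Nat.lt_or_ge k Nr with h1 | h1
    · rw [cmb_l h1, cmb_l h1]
      obtain ⟨h2, h3, h4⟩ := hAV k h1
      exact ⟨by linarith, h3, by linarith⟩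
    · obtain ⟨j, rfl⟩ : ∃ j, k = Nr + j := ⟨k - Nr, by omega⟩
      rw [cmb_r, cmb_r]
      exact hpp j (by omega)
  obtain ⟨D₁, hV⟩ := hV S₂ hS₂ D hD
  obtain ⟨Db, hDb⟩ : ∃ Db : ℕ, Db = max (max D D₀) (max D₁ Dv) := ⟨_, rfl⟩
  have hDb1 : D ≤ Db := by rw [hDb]; exact (le_max_left _ _).trans (le_max_left _ _)
  have hDb2 : D₀ ≤ Db := by rw [hDb]; exact (le_max_right _ _).trans (le_max_left _ _)
  have hDb3 : D₁ ≤ Db := by rw [hDb]; exact (le_max_left _ _).trans (le_max_right _ _)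
  have hDb4 : Dv ≤ Db := by rw [hDb]; exact (le_max_right _ _).trans (le_max_right _ _)
  have hDbn : Db ≤ nzD Db := le_nzD Db
  have hDbK : Db * max 1 Db ≤ nzD Db := by
    unfold nzD
    rw [max_self]
  have hDK : D ≤ Db * max 1 Db := hDb1.trans (Nat.le_mul_of_pos_right _ (by simp))
  obtain ⟨Dr₀, hV⟩ := hV Db hDb1 hDb3
  refine ⟨max Dr₀ (nzD Db), (hDb1.trans hDbn).trans (le_max_right _ _), fun C hC => ?_⟩
  obtain ⟨Dw₀, hV⟩ := hV _ (le_max_left Dr₀ (nzD Db)) C hC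
  obtain ⟨Dw, hDw⟩ : ∃ Dw : ℕ, Dw = max Dw₀ (nzD Db + 1) := ⟨_, rfl⟩
  have hDw1 : Dw₀ ≤ Dw := by rw [hDw]; exact le_max_left _ _
  have hDw2 : nzD Db + 1 ≤ Dw := by rw [hDw]; exact le_max_right _ _
  obtain ⟨C', httb⟩ := ttb_of D Db Dw r hDb1 hDw2
  obtain ⟨CT, hCT⟩ := recNy_slhT Dw r C'
  have hDDw : D ≤ Dw := by omega
  refine ⟨Dw, CT, hDDw, fun δ X₀ hδ hδ1 hX₀ => ?_⟩
  obtain ⟨y₁, hy₁e⟩ : ∃ y₁ : ℝ, y₁ = max b (3 * lu + 4) := ⟨_, rfl⟩
  have hy₁b : b ≤ y₁ := by rw [hy₁e]; exact le_max_left _ _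
  have hy₁l : 3 * lu + 4 ≤ y₁ := by rw [hy₁e]; exact le_max_right _ _
  obtain ⟨lam, rr, gg, dt, ℓ₀, kf₀, X₁, hlam, hrr, hgg, hdt, hℓ₀, hX₁, hly, hV⟩ :=
    hV _ hDw1 δ X₀ hδ hδ1 hX₀ y₁ (by rw [← hbd]; exact hy₁b)
  rw [← hbd] at hly
  have hy₁ : 0 < y₁ := by linarith
  have hby : 0 < b * y₁ := mul_pos hbp hy₁
  have hb1 : 0 < (b - 1) * lu := mul_pos (by linarith) hlu0
  -- the class theorem
  obtain ⟨δ₀, Λ, hδ₀, hΛ, hv0⟩ := v0b_nzw Db r b hb κ₂ (hD.trans hDb1) hr hs hb0 (by assumption)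
    hκ₂0 hκ₂1
  obtain ⟨φ₀, hφ₀, hφ₀1, hφ₀2, hv0⟩ := hv0 1 one_pos
  obtain ⟨X, hX⟩ : ∃ X : ℝ, X = min (min X₀ X₁) (1 / 4) := ⟨_, rfl⟩
  have hX0 : 0 < X := by rw [hX]; exact lt_min (lt_min hX₀ hX₁) (by norm_num)
  have hXa : X ≤ X₀ := by rw [hX]; exact (min_le_left _ _).trans (min_le_left _ _)
  have hXb : X ≤ X₁ := by rw [hX]; exact (min_le_left _ _).trans (min_le_right _ _)
  have hXc4 : X ≤ 1 / 4 := by rw [hX]; exact min_le_right _ _
  have hXc : X ≤ 1 := by linarith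
  obtain ⟨φt, hφt⟩ : ∃ φt : ℝ, φt = min (min (φ₀ * lu) (1 / 2)) (X / (4 * b)) := ⟨_, rfl⟩
  have hφt0 : 0 < φt := by rw [hφt]; positivity
  have hφt1 : φt ≤ φ₀ * lu := by rw [hφt]; exact (min_le_left _ _).trans (min_le_left _ _)
  have hφt2 : φt ≤ 1 / 2 := by rw [hφt]; exact (min_le_left _ _).trans (min_le_right _ _)
  have hφt3 : 4 * (b * φt) ≤ X := by
    have h1 : φt ≤ X / (4 * b) := by rw [hφt]; exact min_le_right _ _
    rw [le_div_iff₀ (by positivity)] at h1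
    linarith
  obtain ⟨M₀, hM₀⟩ := exists_nat_ge (max 2 (3 * ((1 + 2 * b) * lu) / φt))
  have hM2R : (2 : ℝ) ≤ M₀ := (le_max_left _ _).trans hM₀
  have hM2 : 2 ≤ M₀ := by exact_mod_cast hM2R
  have hM1 : 1 ≤ M₀ := by omega
  have hM0 : (0 : ℝ) < M₀ := by linarith
  have hMφ : 3 * ((1 + 2 * b) * lu) ≤ M₀ * φt := by
    have h1 := (le_max_right _ _).trans hM₀
    rwa [div_le_iff₀ hφt0] at h1
  have hluM : 0 < lu / M₀ := by positivity
  obtain ⟨lamM, hlamM⟩ : ∃ lamM : ℝ, lamM = min (min lam lu) (min (2 * φt / dt) (4 * gg / dt)) :=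
    ⟨_, rfl⟩
  have hlM0 : 0 < lamM := by rw [hlamM]; positivity
  have hlM1 : lamM ≤ lam := by rw [hlamM]; exact (min_le_left _ _).trans (min_le_left _ _)
  have hlM2 : lamM ≤ lu := by rw [hlamM]; exact (min_le_left _ _).trans (min_le_right _ _)
  have hlM3 : dt * lamM ≤ 2 * φt := by
    have h1 : lamM ≤ 2 * φt / dt := by
      rw [hlamM]
      exact (min_le_right _ _).trans (min_le_left _ _)
    rw [le_div_iff₀ hdt] at h1
    linarith
  have hlM4 : dt * lamM ≤ 4 * gg := by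
    have h1 : lamM ≤ 4 * gg / dt := by
      rw [hlamM]
      exact (min_le_right _ _).trans (min_le_right _ _)
    rw [le_div_iff₀ hdt] at h1
    linarith
  obtain ⟨gM, hgM⟩ : ∃ gM : ℝ, gM = min gg ((b - 1) * lu) := ⟨_, rfl⟩
  have hgM0 : 0 < gM := by rw [hgM]; exact lt_min hgg (by assumption)
  have hgM1 : gM ≤ gg := by rw [hgM]; exact min_le_left _ _
  have hgM2 : gM ≤ (b - 1) * lu := by rw [hgM]; exact min_le_right _ _
  obtain ⟨R, hR⟩ : ∃ R : ℝ, R = max (max (1 + y₁) ((rr + gg) / b)) (max (lu + 2)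
    ((3 * lu + gg + 1) / b)) := ⟨_, rfl⟩
  have hR1 : 1 + y₁ ≤ R := by rw [hR]; exact (le_max_left _ _).trans (le_max_left _ _)
  have hR2 : rr + gg ≤ b * R := by
    have : (rr + gg) / b ≤ R := by rw [hR]; exact (le_max_right _ _).trans (le_max_left _ _)
    rw [div_le_iff₀ hbp] at this
    linarith
  have hR3 : lu + 2 ≤ R := by rw [hR]; exact (le_max_left _ _).trans (le_max_right _ _)
  have hR4 : 3 * lu + gg + 1 ≤ b * R := by
    have : (3 * lu + gg + 1) / b ≤ R := by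
      rw [hR]
      exact (le_max_right _ _).trans (le_max_right _ _)
    rw [div_le_iff₀ hbp] at this
    linarith
  have hR0 : 0 < R := by linarith
  have hδ'0 : 0 < δ₀ * lu / 2 := by positivity
  have hby2 : X / 2 ≤ b * y₁ := by
    have h1 : 1 * y₁ ≤ b * y₁ := mul_le_mul_of_nonneg_right hs.le hy₁.le
    linarith
  obtain ⟨ℓ, h₁, ε₁, e₁, hℓ, hℓ₁, hh₁, hε₁, he₁, halm⟩ := halm Db hDb2 (b := b) (h := hb)
    (δ := dt) (δ' := δ₀ * lu / 2) (lam := lamM) (g := gM) (R := R) (K₁ := K₀) (ℓ₀ := ℓ₀)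
    (X := X / 4) (g₂ := y₁) hbp hb0 (by assumption) hdt hδ'0 hlM0 hgM0 hR0.le hK₀.le hℓ₀
    (by linarith) hy₁ (by linarith)
  obtain ⟨kf, hkf⟩ : ∃ kf : ℝ, kf = max kf₀ b := ⟨_, rfl⟩
  obtain ⟨h₂, hh₂, hV⟩ := hV ℓ X kf hℓ hℓ₁ hX0 hXb (by rw [hkf]; exact le_max_left _ _)
  have hC0 : 0 < C := by linarith
  refine ⟨⟨e₁, he₁⟩, kf, X, min (min h₁ h₂) (min (X / (20 * C)) (min (φt / (4 * C))
    (min 1 (lu / M₀)))), by
    rw [← hbd, hkf]
    exact le_max_right _ _, hX0, hXa, by positivity, fun hh k₁ hhh hhl hk1 hk2 => ?_⟩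
  have hhl1 := hhl.trans ((min_le_left _ _).trans (min_le_left _ _))
  have hhl2 := hhl.trans ((min_le_left _ _).trans (min_le_right _ _))
  have hhl3 := hhl.trans ((min_le_right _ _).trans (min_le_left _ _))
  have hhl4 := hhl.trans ((min_le_right _ _).trans ((min_le_right _ _).trans (min_le_left _ _)))
  have hhl5 := hhl.trans ((min_le_right _ _).trans ((min_le_right _ _).trans
    ((min_le_right _ _).trans (min_le_left _ _))))
  have hhl6 := hhl.trans ((min_le_right _ _).trans ((min_le_right _ _).trans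
    ((min_le_right _ _).trans (min_le_right _ _))))
  rw [le_div_iff₀ (by positivity)] at hhl3 hhl4
  obtain ⟨K₁, Nv, Vv, ns, vs, hVv, hvs, hV⟩ := hV hh k₁ hhh hhl2 hk1 hk2
  have hk10 : 0 < k₁ := by linarith
  obtain ⟨Cf, hCf⟩ := exists_nat_ge (max (2 * Λ + 7 * r + 15) (k₁ + 2))
  have hCf1 : 2 * Λ + 7 * r + 15 ≤ Cf := (le_max_left _ _).trans hCf
  have hCf2 : k₁ + 2 ≤ Cf := (le_max_right _ _).trans hCf
  obtain ⟨cb, hcb⟩ : ∃ cb : ℕ, cb = Cf + 7 * r + 13 := ⟨_, rfl⟩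
  have hcbR : (cb : ℝ) = Cf + 7 * r + 13 := by rw [hcb]; push_cast; ring
  obtain ⟨co, hco⟩ := exists_nat_ge (Λ + 1)
  have hco0 : (0 : ℝ) ≤ co := Nat.cast_nonneg _
  have hcb0 : (0 : ℝ) ≤ cb := Nat.cast_nonneg _
  have hco1 : 1 ≤ co := by
    have h1 : (1 : ℝ) ≤ co := by linarith
    exact_mod_cast h1
  have hcb3 : 3 ≤ cb := by omega
  have hcbl : k₁ + 2 ≤ cb * lu := by
    have h1 : (cb : ℝ) * 1 ≤ cb * lu := mul_le_mul_of_nonneg_left (by linarith) hcb0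
    linarith
  -- the windows
  obtain ⟨vg, hvg⟩ : ∃ vg : ℕ → ℝ, vg = fun j => -(2 * φt) + chV M₀ cb j * lu := ⟨_, rfl⟩
  have hvgb : ∀ j < (cb + co) * M₀ + 1, -(2 * φt) - cb * lu ≤ vg j ∧
      vg j ≤ -(2 * φt) + co * lu := fun j hj => by
    obtain ⟨h1, h2⟩ := chV_bd hM1 hj
    have h3 := mul_le_mul_of_nonneg_right h1 hlu0.le
    have h4 := mul_le_mul_of_nonneg_right h2 hlu0.le
    rw [hvg]
    constructor
    · show _ ≤ -(2 * φt) + chV M₀ cb j * lu
      linarith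
    · show -(2 * φt) + chV M₀ cb j * lu ≤ _
      linarith
  obtain ⟨Va, hVa⟩ : ∃ Va : ℕ → ℝ, Va = fun k => if k < Nv then Vv k else if k = Nv then -y₁ else
    if k = Nv + 1 then 0 else if k = Nv + 2 then 1 else if k = Nv + 3 then -k₁ else
    vg (k - (Nv + 4)) := ⟨_, rfl⟩
  have v0 : ∀ k < Nv, Va k = Vv k := fun k hk => by rw [hVa]; simp only [hk, if_true]
  have v1 : Va Nv = -y₁ := by rw [hVa]; simp
  have v2 : Va (Nv + 1) = 0 := by rw [hVa]; simp
  have v3 : Va (Nv + 2) = 1 := by rw [hVa]; simp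
  have v4 : Va (Nv + 3) = -k₁ := by rw [hVa]; simp
  have v5 : ∀ j, Va (Nv + 4 + j) = vg j := fun j => by
    rw [hVa]
    simp only [show ¬ Nv + 4 + j < Nv by omega, show ¬ Nv + 4 + j = Nv by omega,
      show ¬ Nv + 4 + j = Nv + 1 by omega, show ¬ Nv + 4 + j = Nv + 2 by omega,
      show ¬ Nv + 4 + j = Nv + 3 by omega, if_false]
    congr 1
    omega
  obtain ⟨Na, hNa⟩ : ∃ Na : ℕ, Na = Nv + 4 + ((cb + co) * M₀ + 1) := ⟨_, rfl⟩
  obtain ⟨KL, hKL⟩ : ∃ KL : ℝ, KL = (cb + co + Λ + 1) * lu + k₁ + 6 := ⟨_, rfl⟩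
  obtain ⟨K₂, hK₂⟩ : ∃ K₂ : ℝ, K₂ = max (max K₁ (R + 1)) (max (K₀ + 1)
    (max KL (2 * a + k₁ + 4))) := ⟨_, rfl⟩
  have hKa : K₁ ≤ K₂ := by rw [hK₂]; exact (le_max_left _ _).trans (le_max_left _ _)
  have hKb : R + 1 ≤ K₂ := by rw [hK₂]; exact (le_max_right _ _).trans (le_max_left _ _)
  have hKd : K₀ + 1 ≤ K₂ := by rw [hK₂]; exact (le_max_left _ _).trans (le_max_right _ _)
  have hKe : KL ≤ K₂ := by
    rw [hK₂]
    exact (le_max_left _ _).trans ((le_max_right _ _).trans (le_max_right _ _))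
  have hKf : 2 * a + k₁ + 4 ≤ K₂ := by
    rw [hK₂]
    exact (le_max_right _ _).trans ((le_max_right _ _).trans (le_max_right _ _))
  have hKLe : KL = cb * lu + co * lu + Λ * lu + lu + k₁ + 6 := by rw [hKL]; ring
  have hcol : 0 ≤ co * lu := by positivity
  have hcbl0 : 0 ≤ cb * lu := by positivity
  have hΛl : 0 ≤ Λ * lu := by positivity
  have hVaK : ∀ k < Na, -K₂ ≤ Va k ∧ Va k ≤ K₂ := by
    intro k hk
    rcases Nat.lt_or_ge k Nv with h1 | h1
    · rw [v0 k h1]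
      obtain ⟨h2, h3⟩ := hVv k h1
      exact ⟨by linarith, by linarith⟩
    · rcases Nat.lt_or_ge k (Nv + 4) with h5 | h5
      · obtain ⟨j, rfl⟩ : ∃ j, k = Nv + j := ⟨k - Nv, by omega⟩
        have hj : j < 4 := by omega
        interval_cases j
        · rw [Nat.add_zero, v1]
          exact ⟨by linarith, by linarith⟩
        · rw [v2]
          exact ⟨by linarith, by linarith⟩
        · rw [v3]
          exact ⟨by linarith, by linarith⟩
        · rw [v4]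
          exact ⟨by linarith, by linarith⟩
      · obtain ⟨j, rfl⟩ : ∃ j, k = Nv + 4 + j := ⟨k - (Nv + 4), by omega⟩
        rw [v5]
        obtain ⟨h2, h3⟩ := hvgb j (by omega)
        exact ⟨by linarith, by linarith⟩
  -- the windows of balls
  obtain ⟨nb, hnb⟩ : ∃ nb : ℕ, nb = cb * M₀ + M₀ := ⟨_, rfl⟩
  obtain ⟨vs', hvs'⟩ : ∃ vs' : ℕ → ℝ, vs' = fun k => if k < ns then vs k else vg (k - ns) :=
    ⟨_, rfl⟩
  have hnbM : ∀ j ≤ nb, j < (cb + co) * M₀ + 1 := fun j hj => by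
    have h1 : M₀ ≤ co * M₀ := Nat.le_mul_of_pos_left _ (by omega)
    rw [add_mul]
    omega
  have hvgt : ∀ j ≤ nb, vg j ≤ lu := fun j hj => by
    have h1 : chV M₀ cb j ≤ 1 := by
      unfold chV
      have h2 : (j : ℝ) / M₀ ≤ cb + 1 := by
        rw [div_le_iff₀ hM0]
        have : j ≤ (cb + 1) * M₀ := by
          rw [add_mul, one_mul]
          omega
        exact_mod_cast this
      linarith
    have h3 := mul_le_mul_of_nonneg_right h1 hlu0.le
    rw [hvg]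
    show -(2 * φt) + chV M₀ cb j * lu ≤ _
    linarith
  refine ⟨K₂, Na, Va, ns + (nb + 1), vs', hVaK, fun j hj => ?_, fun K' hK' => ?_⟩
  · rw [hvs']
    show -K₂ ≤ (if j < ns then vs j else vg (j - ns)) ∧
      (if j < ns then vs j else vg (j - ns)) ≤ a - 1 / 2
    split_ifs with h1
    · obtain ⟨h2, h3⟩ := hvs j h1
      exact ⟨by linarith, h3⟩
    · obtain ⟨h2, -⟩ := hvgb (j - ns) (hnbM _ (by omega))
      have h3 := hvgt (j - ns) (by omega)
      exact ⟨by linarith, by linarith⟩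
  obtain ⟨ε₀, hε₀, hV⟩ := hV K' (hKa.trans hK')
  refine ⟨min (min ε₀ ε₁) (min (X / 16) (min (gg / 8) (min (φt / 4) (min (hh / (6 * C)) 1)))),
    by positivity, fun ε hε hεε => ?_⟩
  have hεa := hεε.trans ((min_le_left _ _).trans (min_le_left _ _))
  have hεb := hεε.trans ((min_le_left _ _).trans (min_le_right _ _))
  have hεc := hεε.trans ((min_le_right _ _).trans (min_le_left _ _))
  have hεd := hεε.trans ((min_le_right _ _).trans ((min_le_right _ _).trans (min_le_left _ _)))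
  have hεf := hεε.trans ((min_le_right _ _).trans ((min_le_right _ _).trans
    ((min_le_right _ _).trans (min_le_left _ _))))
  have hεe := hεε.trans ((min_le_right _ _).trans ((min_le_right _ _).trans
    ((min_le_right _ _).trans ((min_le_right _ _).trans (min_le_left _ _)))))
  have hεh := hεε.trans ((min_le_right _ _).trans ((min_le_right _ _).trans
    ((min_le_right _ _).trans ((min_le_right _ _).trans (min_le_right _ _)))))
  rw [le_div_iff₀ (by positivity)] at hεe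
  intro S g₀ P θ P₂ θ₂ Eb e₂ c Pt rt L T G g hG hg hder hZ
  obtain ⟨-, i₀, ⟨a1, a2, a3, a4, a5, a6, a7⟩, hiD, φ, k₂, hφ0, hφ, hrt⟩ := hZ
  have hK'0 : K₀ ≤ K' := by linarith
  have hK'p : 0 < K' := by linarith
  by_cases hpos : 0 < L (r + 1) g g
  swap
  · obtain ⟨q₁, hq₁, H⟩ := rec_pos (by omega : r + 1 < r + 2) (hder (r + 1) (by omega)) hK₀ hK'0
      hpos
    exact ⟨fun _ => Sum.inr (Sum.inl (Sum.inl ())), 0, fun _ => 0, fun _ => 1,
      fun j hj => by omega, fun k₀ _ => ⟨q₁, hq₁, fun q t x hq _ N A V N' V' R => (H hq R).elim⟩⟩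
  by_cases hposu : 0 < L r g g
  swap
  · obtain ⟨q₁, hq₁, H⟩ := rec_pos (by omega : r < r + 2) (hder r (by omega)) hK₀ hK'0 hposu
    exact ⟨fun _ => Sum.inr (Sum.inl (Sum.inl ())), 0, fun _ => 0, fun _ => 1,
      fun j hj => by omega, fun k₀ _ => ⟨q₁, hq₁, fun q t x hq _ N A V N' V' R => (H hq R).elim⟩⟩
  have e1 : r + 2 - 1 = r + 1 := rfl
  have e2 : r + 2 - 2 = r := rfl
  rw [e1] at a1 a5 a6 a7
  rw [e2] at a2 a7
  obtain ⟨μ₁, d, hμ₁, hd, hmar⟩ := mar_lin (hder r (by omega)) (hder (r + 1) (by omega)) hpos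
    hposu a5 a6 a7
  obtain ⟨p, M, B₀, B₁, hB, hV⟩ := hV ε hε hεa S g₀ P θ P₂ θ₂ Eb e₂ c Pt rt L T G g hG hg hder
  obtain ⟨κT, hκT0, hκT1⟩ : ∃ x : ℚ, (0 : ℝ) < x ∧ (x : ℝ) < φ₀ := exists_rat_btwn hφ₀
  obtain ⟨b₀, hb₀⟩ : ∃ b₀ : ℝ, b₀ = -(2 * φt) - (Cf + (7 * r + 12) / 2 - Λ) * lu := ⟨_, rfl⟩
  obtain ⟨b₁, hb₁⟩ : ∃ b₁ : ℝ, b₁ = -(2 * φt) - (Cf / 2 + 7 * r + 13) * lu := ⟨_, rfl⟩
  have hbb : b₀ < b₁ := by
    have h1 : (Cf / 2 + 7 * r + 13) * lu < (Cf + (7 * r + 12) / 2 - Λ) * lu :=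
      mul_lt_mul_of_pos_right (by linarith) hlu0
    rw [hb₀, hb₁]
    linarith
  refine ⟨fun j => if j < M then Sum.inl (p j) else if j = M then Sum.inr (Sum.inl (Sum.inl ()))
    else if j = M + 1 then Sum.inr (Sum.inl (Sum.inr ())) else
    Sum.inr (Sum.inr (r, Cf, 1 / 8, κT)), M + 3,
    fun j => if j < M then B₀ j else if j < M + 2 then 0 else b₀,
    fun j => if j < M then B₁ j else if j < M + 2 then 1 else b₁, fun j hj => ?_, fun k₀ hk₀ => ?_⟩
  · by_cases h4 : j < M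
    · simp only [h4, if_true]
      exact hB j h4
    · by_cases h5 : j < M + 2
      · simp only [h4, h5, if_false, if_true]
        exact one_pos
      · simp only [h4, h5, if_false]
        exact hbb
  have hch : ChUQ (n := r + 2) () (k₀ M) S P θ c Pt rt L T κ G g := by
    have h4 := hk₀ M (by omega)
    simp only [lt_irrefl, if_false, if_true] at h4
    exact h4
  have hat : AttUQ (n := r + 2) () (k₀ (M + 1)) S P θ c Pt rt L T κ G g := by
    have h4 := hk₀ (M + 1) (by omega)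
    simp only [show ¬ M + 1 < M by omega, show ¬ M + 1 = M by omega, if_false, if_true] at h4
    exact h4
  obtain ⟨μ, hμ⟩ : ∃ μ : ℝ, μ = min μ₁ ((1 / 2) ^ k₀ (M + 1)) := ⟨_, rfl⟩
  have hμ0 : 0 < μ := by rw [hμ]; positivity
  have hμa : μ ≤ μ₁ := by rw [hμ]; exact min_le_left _ _
  have hμb : μ ≤ (1 / 2) ^ k₀ (M + 1) := by rw [hμ]; exact min_le_right _ _
  obtain ⟨q₁, hq₁, hV⟩ := hV k₀ (fun j hj => by
    have h4 := hk₀ j (by omega)
    simp only [hj, if_true] at h4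
    exact h4) μ hμ0
  have hKK : 0 < K' + K₀ := by linarith
  have h3KK : 0 < 3 * K' + K₀ := by linarith
  have hblu : 0 < b * lu := mul_pos hbp hlu0
  have hb8 : 0 < 8 * b + 8 * rr + 24 * (b * lu) := by linarith
  have hKR : 0 < K₀ + R + 1 := by linarith
  refine ⟨min q₁ (min (min (d / (K' + K₀)) ((1 / 2) ^ k₂ / (K₀ + R + 1))) (min
    (μ / (8 * b + 8 * rr + 24 * (b * lu))) (min ((1 / 2) ^ k₀ (M + 1) / (3 * K' + K₀))
    (min μ ((1 / 2) ^ k₀ (M + 2) / lu))))), by positivity,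
    fun q t x hq hx N A V N' V' Rc hpr hwn N₁ N₂ vw hN1 hN12 hN2 hvw => ?_⟩
  have q1 := hq.trans_le (min_le_left _ _)
  have q2 := hq.trans_le ((min_le_right _ _).trans ((min_le_left _ _).trans (min_le_left _ _)))
  have q3 := hq.trans_le ((min_le_right _ _).trans ((min_le_left _ _).trans (min_le_right _ _)))
  have q4 := hq.trans_le ((min_le_right _ _).trans ((min_le_right _ _).trans (min_le_left _ _)))
  have q5 := hq.trans_le ((min_le_right _ _).trans ((min_le_right _ _).trans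
    ((min_le_right _ _).trans (min_le_left _ _))))
  have q6 := hq.trans_le ((min_le_right _ _).trans ((min_le_right _ _).trans
    ((min_le_right _ _).trans ((min_le_right _ _).trans (min_le_left _ _)))))
  have q7 := hq.trans_le ((min_le_right _ _).trans ((min_le_right _ _).trans
    ((min_le_right _ _).trans ((min_le_right _ _).trans (min_le_right _ _)))))
  rw [lt_div_iff₀ hKK] at q2
  rw [lt_div_iff₀ h3KK] at q5
  rw [lt_div_iff₀ hKR] at q3
  rw [lt_div_iff₀ hb8] at q4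
  rw [lt_div_iff₀ hlu0] at q7
  have hq0 := Rc.q0
  have hrr0 : 0 < rr := hlam.trans_le hrr
  have hrq : 0 < rr * q := mul_pos hrr0 hq0
  have hbq : 0 < b * q := mul_pos hbp hq0
  have hbluq : 0 < b * lu * q := mul_pos hblu hq0
  have e4 : q * (8 * b + 8 * rr + 24 * (b * lu)) = 8 * (b * q) + 8 * (rr * q) +
    24 * (b * lu * q) := by ring
  rw [e4] at q4
  have hKq0 : 0 < K' * q := mul_pos hK'p hq0
  have hK₀q : 0 < K₀ * q := mul_pos hK₀ hq0
  -- the record with the windows `Va`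
  have Ra := Rc.mono (K₁ := K') (ε₁ := ε) (N₁ := N) (A₁ := A) (V₁ := V) (N₁' := Na)
    (V₁' := Va) le_rfl le_rfl (fun k hk => ⟨k, hk, rfl, rfl⟩) (fun k hk => by
      obtain ⟨j, hj, e⟩ := hwn k hk
      exact ⟨j, hj, e.symm⟩)
  have hnear := Rc.near
  have hVaA : ∀ k < Na, |Va k| ≤ K' := fun k hk => by
    obtain ⟨h2, h3⟩ := hVaK k hk
    exact abs_le.2 ⟨by linarith, by linarith⟩
  have hwd : ∀ k < Na, |t + Va k * q - g| ≤ (K' + K₀) * q := by
    intro k hk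
    have h1 : |Va k * q| ≤ K' * q := by
      rw [abs_mul, abs_of_pos hq0]
      exact mul_le_mul_of_nonneg_right (hVaA k hk) hq0.le
    calc |t + Va k * q - g| = |(t - g) + Va k * q| := by congr 1; ring
      _ ≤ |t - g| + |Va k * q| := abs_add_le _ _
      _ ≤ K₀ * q + K' * q := add_le_add hnear h1
      _ = (K' + K₀) * q := by ring
  have hmw : ∀ k < Na, μ ≤ L (r + 1) (t + Va k * q) (t + Va k * q) ∧
      μ ≤ L r (t + Va k * q) (t + Va k * q) ∧ L r (t + Va k * q) (t + Va k * q) + μ ≤ 1 ∧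
      i₀.2.1 + L (r + 1) (t + Va k * q) (t + Va k * q) + μ ≤ 1 ∧
      i₀.2.2.2 + μ ≤ L (r + 1) (t + Va k * q) (t + Va k * q) ∧
      L (r + 1) (t + Va k * q) (t + Va k * q) + L r (t + Va k * q) (t + Va k * q) + μ ≤
        1 + i₀.2.2.2 := by
    intro k hk
    obtain ⟨b1, b2, b3, b4, b5, b6⟩ := hmar (t + Va k * q) ((hwd k hk).trans (by linarith))
    exact ⟨by linarith, by linarith, by linarith, by linarith, by linarith, by linarith⟩
  have hqX : X / 4 * q ≤ μ := by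
    have : X * q ≤ 1 * q := mul_le_mul_of_nonneg_right hXc hq0.le
    linarith
  have hXq0 : 0 < X / 4 * q := by positivity
  have hn0 : Nv < Na := by omega
  have hn1 : Nv + 1 < Na := by omega
  have hn2 : Nv + 2 < Na := by omega
  -- the labels of the chain
  have hatd : ∀ k < Na, ∃ rk E : ℝ, 0 ≤ rk ∧ rk < 1 ∧ 0 ≤ E ∧
      E + L (r + 1) (t + Va k * q) (t + Va k * q) ≤ 1 - (1 / 2) ^ k₀ (M + 1) ∧
      LbU S ((range (r + 1)).image c) (c (r + 1)) (t + Va k * q)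
        (L (r + 1) (t + Va k * q) (t + Va k * q)) rk E := fun k hk => by
    obtain ⟨rk, E, c1, c2, c3, c4, c5⟩ := hat _ (Ra.memG.2 k hk) ((hwd k hk).trans (by linarith))
    have h2 : (0 : ℝ) < (1 / 2) ^ k₀ (M + 1) := by positivity
    exact ⟨rk, E, c1, by linarith, c3, c4, c5⟩
  obtain ⟨Sb, hsb, Rb, hlabc⟩ := hlbf Ra hK'p hVaA (le_refl (3 * K' * q)) (fun k hk => by
      obtain ⟨rd, -, h2⟩ := hch _ (Ra.memG.2 k hk)
      exact ⟨rd, h2⟩) (fun k hk => by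
      obtain ⟨rk, E, h1, h2, h3, h4, h5⟩ := hatd k hk
      refine ⟨rk, E, h3, ?_, h5⟩
      show E + L (r + 2 - 1) _ _ + 3 * K' * q ≤ 1
      have h6 : E + L (r + 2 - 1) (t + Va k * q) (t + Va k * q) ≤ 1 - (1 / 2) ^ k₀ (M + 1) := h4
      linarith)
  have hsbs : SubC Sb S := hsb
  -- the family of labels
  obtain ⟨ks, hks⟩ : ∃ ks : ℕ → ℕ, ks = fun k => if k = 0 then Nv else if k = 1 then Nv + 1 else
    if k = 2 then Nv + 4 + (cb - 3) * M₀ else Nv + 4 + (cb * M₀ + (k - 3)) := ⟨_, rfl⟩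
  have k0 : ks 0 = Nv := by rw [hks]; simp
  have k1 : ks 1 = Nv + 1 := by rw [hks]; simp
  have k2 : ks 2 = Nv + 4 + (cb - 3) * M₀ := by rw [hks]; simp
  have k3 : ∀ j, ks (3 + j) = Nv + 4 + (cb * M₀ + j) := fun j => by
    rw [hks]
    simp only [show ¬ 3 + j = 0 by omega, show ¬ 3 + j = 1 by omega, show ¬ 3 + j = 2 by omega,
      if_false]
    congr 2
    omega
  have hcb3M : (cb - 3) * M₀ ≤ cb * M₀ := Nat.mul_le_mul_right _ (by omega)
  have hksN : ∀ i < M₀ + 4, ks i < Na := by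
    intro i hi
    rcases Nat.lt_or_ge i 3 with h3 | h3
    · interval_cases i
      · rw [k0]; exact hn0
      · rw [k1]; exact hn1
      · rw [k2]
        have := hnbM ((cb - 3) * M₀) (by omega)
        omega
    · obtain ⟨j, rfl⟩ : ∃ j, i = 3 + j := ⟨i - 3, by omega⟩
      rw [k3]
      have := hnbM (cb * M₀ + j) (by omega)
      omega
  have hchb : ∀ j ≤ M₀, chV M₀ cb (cb * M₀ + j) = (j : ℝ) / M₀ := fun j _ =>
    Pool.V0F.chV_nb hM1 j
  have hchc : chV M₀ cb ((cb - 3) * M₀) = -3 := by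
    unfold chV
    have e3 : (((cb - 3) * M₀ : ℕ) : ℝ) = (cb - 3) * M₀ := by
      rw [Nat.cast_mul, Nat.cast_sub hcb3]
      norm_num
    rw [e3]
    field_simp
    ring
  have kv0 : Va (ks 0) = -y₁ := by rw [k0, v1]
  have kv1 : Va (ks 1) = 0 := by rw [k1, v2]
  have kv2 : Va (ks 2) = -(2 * φt) - 3 * lu := by
    rw [k2, v5, hvg]
    show -(2 * φt) + chV M₀ cb ((cb - 3) * M₀) * lu = _
    rw [hchc]
    ring
  have kv3 : ∀ j ≤ M₀, Va (ks (3 + j)) = -(2 * φt) + (j : ℝ) / M₀ * lu := fun j hj => by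
    rw [k3, v5, hvg]
    show -(2 * φt) + chV M₀ cb (cb * M₀ + j) * lu = _
    rw [hchb j hj]
  have kb : ∀ i < M₀ + 4, -y₁ ≤ Va (ks i) ∧ Va (ks i) ≤ lu := by
    intro i hi
    rcases Nat.lt_or_ge i 3 with h3 | h3
    · interval_cases i
      · rw [kv0]; constructor <;> linarith
      · rw [kv1]; constructor <;> linarith
      · rw [kv2]; constructor <;> linarith
    · obtain ⟨j, rfl⟩ : ∃ j, i = 3 + j := ⟨i - 3, by omega⟩
      rw [kv3 j (by omega)]
      have h4 : 0 ≤ (j : ℝ) / M₀ := by positivity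
      have h5 : (j : ℝ) / M₀ ≤ 1 := by
        rw [div_le_one hM0]
        exact_mod_cast (by omega : j ≤ M₀)
      have h6 : 0 ≤ (j : ℝ) / M₀ * lu := by positivity
      have h7 := mul_le_mul_of_nonneg_right h5 hlu0.le
      constructor <;> linarith
  have hat' : ∀ k ≥ k₂, AltAt Sb ((range (r + 1)).image c) ((range r).image c) (c (r + 1))
      i₀.1.2.2 i₀.2.1 i₀.2.2.1 i₀.2.2.2 (fun w => L (r + 1) w w) g φ e₁ k := by
    intro k hk
    have h4 := hrt k hk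
    rw [a1, a2] at h4
    exact h4.sub hsbs
  obtain ⟨S₁, hne₁, hs₁, R₁, hAlW, Ψ, wΨ, p₁, p₂, eN, uN, pN, HM, hblb⟩ := halm Rb hbd.symm
    (hKb.trans hK') hεb hVaA (fun k hk => by
      obtain ⟨rd, -, h2⟩ := hch _ (Ra.memG.2 k hk)
      exact ⟨rd, h2.sub hsbs⟩) (μ := μ) (fun k hk => by
      obtain ⟨rk, E, c1, c2, c3, c4, c5⟩ := hatd k hk
      exact ⟨E, rk, c3, by linarith, (hmw k hk).2.2.1, c5.sub hsbs⟩)
    (x := g) (e₀ := i₀.2.1) (ρ₀ := i₀.2.2.1)
    (π₀ := i₀.2.2.2) (φ := φ) (e := e₁) (Kf := i₀.1.2.2) (k₁ := k₂) hnear (hiD.trans hDb4)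
    he₁ le_rfl hφ0 (hφ.trans hβ) hat' (by linarith) (by exact_mod_cast a4) (by exact_mod_cast a3)
    hμ0 (by linarith) (n := M₀ + 4) (ks := ks) (by omega) hksN (fun i hi => by
      obtain ⟨h4, h5⟩ := kb i hi
      exact abs_le.2 ⟨by linarith, by linarith⟩) (fun i hi => by
      rw [kv0]
      exact (kb i hi).1) (fun i hi => by
      obtain ⟨b1, b2, b3, b4, b5, b6⟩ := hmw (ks i) (hksN i hi)
      exact ⟨b1, b4, by linarith, by linarith⟩)
  have hεq : 0 < ε * q := mul_pos hε hq0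
  have hVaq : ∀ {v : ℝ}, |v| ≤ K' → |t + v * q - t| ≤ K' * q := fun hv => by
    rw [add_sub_cancel_left, abs_mul, abs_of_pos hq0]
    exact mul_le_mul_of_nonneg_right hv hq0.le
  have HO := alo_of_alm HM (j := 1) (by omega) (by omega) (lamV := lam) (rr := rr) (g₂ := y₁)
    (X := X / 4) (η := hh) (e₀ := i₀.2.1) (π₀ := i₀.2.2.2) hq0 hdt hlM1 hrr (by
      rw [kv0, kv1]
      have h4 : b * (t + 0 * q - (t + -y₁ * q)) = b * y₁ * q := by ring
      rw [h4]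
      exact mul_le_mul_of_nonneg_right (by linarith) hq0.le) (by
      rw [kv0]
      have h4 : b * (t + R * q - (t + -y₁ * q)) = (b * R + b * y₁) * q := by ring
      rw [h4]
      exact mul_le_mul_of_nonneg_right (by linarith) hq0.le) (by linarith) (by
      have h4 := abs_le.1 (R₁.dL (r + 1) (by omega) _ (hVaq (hVaA (ks 0) (hksN 0 (by omega)))))
      have h5 := abs_le.1 (R₁.dL (r + 1) (by omega) _ (hVaq (hVaA (ks 1) (hksN 1 (by omega)))))
      rw [← hbd] at h4 h5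
      have h6 : b * (t + Va (ks 0) * q - t) = -(b * y₁ * q) := by rw [kv0]; ring
      have h7 : b * (t + Va (ks 1) * q - t) = 0 := by rw [kv1]; ring
      rw [h6] at h4
      rw [h7] at h5
      have h8 : (lam + gg) * q ≤ b * y₁ * q := mul_le_mul_of_nonneg_right hly hq0.le
      have h9 : dt * lamM * q ≤ 4 * gg * q := mul_le_mul_of_nonneg_right hlM4 hq0.le
      have h10 : ε * q ≤ gg / 8 * q := mul_le_mul_of_nonneg_right hεd hq0.le
      linarith [h4.2, h5.1]) hlM0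
    (fun k hk h4 h5 h6 h7 h8 h9 h10 => hblb hh hhh hhl1 0 (by omega) k hk h4 h5 h6 h7 h8 h9 h10)
    hAlW
  -- the velocity
  obtain ⟨S', Θ, hne, hs', hΘs, hΘn, hΘe, hVf⟩ := hV q t x q1 (fun j hj => by
      obtain ⟨h4, h5, h6, h7⟩ := hx j (by omega)
      simp only [hj, if_true] at h5 h6 h7
      exact ⟨h4, h5, h6, h7⟩) N A V Na Va S₁ (fun τ J F A h => hsb τ J F A (hs₁ τ J F A h)) R₁
    hVaA (fun k hk => by
      obtain ⟨j, hj, h4, h5⟩ := hpr k (by omega)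
      rw [cmb_l hk] at h4 h5
      exact ⟨j, hj, h4, h5⟩)
    (fun k hk => ⟨k, by omega, v0 k hk⟩) N₁ N₂ vw hN1 hN12 hN2 (fun k hk => by
      obtain ⟨j, h4, h5, h6, h7⟩ := hvw k (by omega)
      refine ⟨j, h4, h5, h6, h7.trans ?_⟩
      rw [hvs']
      simp only [hk, if_true])
    (ks 0) (ks 1) R y₁ (X / 4) i₀.2.1 i₀.2.2.2 Ψ wΨ (p₁ 0) (p₂ 0) (eN 0) (uN 0) (pN 0) (p₁ 1)
    (p₂ 1) (eN 1) (uN 1) (pN 1) (hksN 0 (by omega)) (hksN 1 (by omega)) kv0 kv1
    (by linarith) HO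
  have hsub : SubC S' S := fun τ J F A h => hsb τ J F A (hs₁ τ J F A (hs' τ J F A h))
  have hsub1 : SubC S' Sb := fun τ J F A h => hs₁ τ J F A (hs' τ J F A h)
  have R' := Rc.sub hne hsub
  have Ra' := Ra.sub hne hsub
  have HM' := HM.sub hs'
  -- the blindness
  have hbl : ∀ k, k = Nv + 1 ∨ k = Nv + 2 →
      BlB S' c r (c (r + 1)) (t + Va (ks 0) * q) (t + Va k * q) D D
        (L (r + 1) (t + Va k * q) (t + Va k * q) - 2 * (hh * q))
        (L r (t + Va k * q) (t + Va k * q) - 2 * (hh * q))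
        (L r (t + Va k * q) (t + Va k * q) - L (r + 1) (t + Va k * q) (t + Va k * q) +
          X / 4 * q) (Fm2.lab Θ) := by
    intro k hk
    have hk4 : k < Na := by omega
    have hVk : 0 ≤ Va k ∧ Va k ≤ 1 := by
      rcases hk with rfl | rfl
      · rw [v2]
        exact ⟨le_rfl, by linarith⟩
      · rw [v3]
        exact ⟨by norm_num, by linarith⟩
    obtain ⟨b1, b2, b3, b4, b5, b6⟩ := hmw k hk4
    have h1 := hblb hh hhh hhl1 0 (by omega) k hk4 (by rw [kv0]; linarith)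
      (abs_le.2 ⟨by linarith, by linarith⟩)
      (by linarith) hqX (by linarith) (by linarith) (by linarith)
    have h2 := BlB.deg hDb1 hDb1 h1
    have h3 := blb_imp' h2 (Ψ' := Fm2.lab Θ) (fun J F A V z z' G hG => by
      obtain ⟨C', G₁, cc, h⟩ := hG
      exact hΘn J F A V C' z z' G₁ G cc h)
    intro u1 u2 u3 u4
    exact (h3 u1 u2 u3 u4).sub hs'
  have hlog : 10 * (C * hh) < X := by
    have h1 : hh * (20 * C) = 2 * (10 * (C * hh)) := by ring
    have h2 : 0 < C * hh := mul_pos hC0 hhh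
    linarith only [h1, h2, hhl3]
  have hwv : t + Va (ks 0) * q ≤ t := by
    rw [kv0]
    have h1 := mul_pos hy₁ hq0
    linarith only [h1]
  -- the slopes
  have hSl := slN_recU (Θ := Θ) (k₁ := k₁) (vw := vw) (y := y) (a := a) (Eb' := Eb (r + 1))
    (ε' := 3 * ε * q) (Rg := fun l => κ l = .one ∨ κ l = .thin) (N₁ := N₁) (Dw := Dw)
    (Dr := max Dr₀ (nzD Db)) (Kd := Db * max 1 Db) R' hN2 (by omega)
    ((hDb1.trans hDbn).trans (le_max_right _ _)) (hDbK.trans (le_max_right _ _))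
    (by rw [← hbd]; linarith)
    (by linarith) hhh hC hlog hε.le (by linarith) hwv
    (fun J F A V C z z' G₁ G₂ cc hG => by
      have h1 := (hΘn J F A V C z z' G₁ G₂ cc hG).lb
      exact ⟨fun y => by
        have := h1.deg y
        rwa [max_self] at this, h1.dep, h1.cls⟩) hΘs (fun v hv => by
      rcases hv with rfl | rfl
      · have := hbl (Nv + 1) (Or.inl rfl)
        rwa [v2] at this
      · have := hbl (Nv + 2) (Or.inr rfl)
        rwa [v3] at this) le_rfl (Bas.mono 0 hΘe fun J _ F A hA => by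
      obtain ⟨V, C', z, z', G₁, G₂, cc, h⟩ := hA
      exact ⟨A, fun _ h => h, by rw [one_mul], V, C', z, z', G₁, G₂, cc, h⟩)
  -- the four windows
  have hRf := R'.recNy (y := y) (a := a) (k₁ := k₁) (vw := fun _ => 0) (N₁ := 1) (N₂ := 3)
    (Rg := fun l => κ l = .one ∨ κ l = .thin) (by omega) hκ (by rw [hκu]; exact fun h => nomatch h)
    hκt (fun l _ h => h) (fun l hl => Or.inl (hκ l hl)) (fun h => h.symm) le_rfl (by omega) le_rfl
    hy hya (by rw [← hbd]; exact hsa) hS₂ (fun k hk => by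
      interval_cases k
      · obtain ⟨j, hj, h4, h5⟩ := hpr (Nr + 0) (by omega)
        rw [cmb_r] at h4 h5
        exact ⟨j, hj, h4.trans ap0, by rw [h5, vp0]; norm_num [vG]⟩
      · obtain ⟨j, hj, h4, h5⟩ := hpr (Nr + 1) (by omega)
        rw [cmb_r] at h4 h5
        exact ⟨j, hj, h4.trans ap1, by rw [h5, vp1]; norm_num [vG]⟩)
    (fun k hk hk' => by
      obtain rfl | rfl : k = 2 ∨ k = 3 := by omega
      · obtain ⟨j, hj, h4⟩ := hwn (Nv + 3) (by omega)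
        exact ⟨j, hj, by rw [h4, v4]; norm_num [vG]⟩
      · obtain ⟨j, hj, h4⟩ := hwn (Nv + 2) (by omega)
        exact ⟨j, hj, by rw [h4, v3]; norm_num [vG]⟩)
    (by
      obtain ⟨j, hj, h4, h5⟩ := hpr (Nr + 2) (by omega)
      rw [cmb_r] at h4 h5
      exact ⟨j, hj, h4.trans ap2, h5.trans vp2⟩) hε.le
    (by linarith only [hεc, hXc]) (fun k hk hk' => by omega) (fun k hk hk' => by omega) hk2
    (by linarith only [hKf, hK'])
  have hXs : ∀ (J : ℕ) (F : Fam (r + 2) J) (B B' : F.Ω → Prop) (g₀ : ℕ → ℕ → ℕ)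
      (G : ℕ → PtT F → ℕ → MvPolynomial (Option (Fin (r + 2))) ℝ)
      (H : ℕ → LnT F → ℕ → MvPolynomial (Option (Fin (r + 2))) ℝ)
      (Ht : ℕ → LnT F → MvPolynomial (Option (Fin (r + 2))) ℝ)
      (CL : LnT F → MvPolynomial (Option (Fin (r + 2))) ℝ)
      (Cp : PtT F → MvPolynomial (Option (Fin (r + 2))) ℝ), Sub B' B →
      XiF Θ (t + Va (ks 0) * q) J F B g₀ G H Ht CL Cp →
      XiF Θ (t + Va (ks 0) * q) J F B' g₀ G H Ht CL Cp := by
    rintro J F B B' g₀ G H Ht CL Cp hBB ⟨V, C', z, z', G₁, G₂, cc, h1, h2⟩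
    exact ⟨V, C', z, z', G₁, G₂, cc, hΘs _ _ _ _ _ _ _ _ _ _ _ hBB h1, fun ω hω => h2 ω (hBB ω hω)⟩
  -- the windows of the grid
  have hixE : ∀ j : ℕ, ∃ i : ℕ, j ≤ nb → N₁ < i ∧ 4 ≤ i ∧ i ≤ N₂ ∧ vw i = vg j := by
    intro j
    by_cases hj : j ≤ nb
    · obtain ⟨i, h4, h5, h6, h7⟩ := hvw (ns + j) (by omega)
      refine ⟨i, fun _ => ⟨h4, h5, h6, h7.trans ?_⟩⟩
      rw [hvs']
      show (if ns + j < ns then vs (ns + j) else vg (ns + j - ns)) = vg j
      rw [if_neg (by omega), Nat.add_sub_cancel_left]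
    · exact ⟨0, fun h => absurd h hj⟩
  choose ix hix using hixE
  have hgr : ∀ j : ℕ, t + vg j * q = grV M₀ cb (t - 2 * (φt * q)) (lu * q) j := fun j => by
    rw [hvg]
    unfold grV
    show t + (-(2 * φt) + chV M₀ cb j * lu) * q = _
    ring
  have hixg : ∀ j ≤ nb, t + vG y k₁ vw (ix j) * q =
      grV M₀ cb (t - 2 * (φt * q)) (lu * q) j := fun j hj => by
    obtain ⟨h4, h5, h6, h7⟩ := hix j hj
    rw [vG_ge h5, h7, hgr]
  have hVag : ∀ j, t + Va (Nv + 4 + j) * q = grV M₀ cb (t - 2 * (φt * q)) (lu * q) j :=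
    fun j => by rw [v5, hgr]
  have hluq : 0 < lu * q := mul_pos hlu0 hq0
  have hφq : 0 < φt * q := mul_pos hφt0 hq0
  have hw3 : t + Va (ks 3) * q = t - 2 * (φt * q) := by
    have h1 := kv3 0 (Nat.zero_le _)
    rw [Nat.add_zero] at h1
    rw [h1]
    norm_num
    ring
  have hw2 : t + Va (ks 2) * q = t - 2 * (φt * q) - 3 * (lu * q) := by
    rw [kv2]
    ring
  have hwm : ∀ t' ≤ M₀, t + Va (ks (3 + t')) * q =
      grV M₀ cb (t - 2 * (φt * q)) (lu * q) (cb * M₀ + t') := fun t' _ => by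
    rw [k3, hVag]
  have hlvE : ∀ l ≤ r + 1, ∀ x : ℝ, lvN P c (r + 1) (L (r + 1)) l x x = L l x x :=
    fun l hl x => by rw [← Ra'.lv_at (by omega : r + 1 < r + 2) hl]
  have hS1 : ∀ l < r, Sl l = 1 := fun l hl => by
    have h1 := Ra'.kd l (by omega)
    rw [hκ l hl] at h1
    exact h1
  have hwt : |t - 2 * (φt * q) - t| = 2 * (φt * q) := by
    rw [show t - 2 * (φt * q) - t = -(2 * (φt * q)) by ring, abs_neg, abs_of_pos (by linarith)]
  have hφq1 : φt * q ≤ q / 2 := by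
    have := mul_le_mul_of_nonneg_right hφt2 hq0.le
    linarith
  have hE : NzE S' Ψ c r (c (r + 1)) Db wΨ (M₀ + 4) (fun i => t + Va (ks i) * q) p₁ p₂ eN uN pN :=
    nzm_part (M₀ + 4) HM'.nzo HM'.ch1 HM'.ch2
  have hlbk : ∀ k < Na, ∃ (Kc : ℕ) (E rd : ℕ → ℝ),
      (∀ l < r, 0 ≤ E l ∧ L l (t + Va k * q) (t + Va k * q) + E l + Λ * (lu * q) ≤ 1 ∧
        0 ≤ rd l ∧ rd l + Λ * (lu * q) ≤ 1) ∧
      ∀ e : ℝ, 0 < e → Bas S' (fun J F A => ∃ (V : Type) (z : PtT F → V) (z' : LnT F → V)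
        (g : V → ℕ → MvPolynomial (Option (Fin (r + 2))) ℝ),
        Pool.V0F.LbE F c r Kc E e (t + Va k * q) rd (fun l => L l (t + Va k * q) (t + Va k * q))
          A z z' g) := by
    intro k hk
    obtain ⟨E, rd, h1, h2⟩ := hlabc k hk
    have h3 : Λ * (lu * q) ≤ 3 * K' * q := by
      have h4 : Λ * lu * q ≤ K' * q := mul_le_mul_of_nonneg_right (by linarith) hq0.le
      linarith
    refine ⟨Kl, E, rd, fun l hl => ?_, fun e he => ?_⟩
    · obtain ⟨a1, a2, a3, a4⟩ := h1 l (by omega)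
      exact ⟨a1, by linarith, a3, by linarith⟩
    · refine Bas.mono 0 ((h2 e he).sub hsub1) ?_
      rintro J - F A ⟨V, z, z', g, hg⟩
      exact ⟨V, z, z', g, fun i hi => hg i (by omega)⟩
  have hV0 : V0L S' c r Db (nzD Db) (max Dr₀ (nzD Db)) N₂ N₂ C (t + a * q) (Eb (r + 1)) (hh * q)
      (fun k => t + vG y k₁ vw k * q) (fun _ => hh * q) (fun _ => hh * q)
      (fun k l => lvN P c (r + 1) (L (r + 1)) l (t + vG y k₁ vw k * q) (t + vG y k₁ vw k * q))
      b κ₂ 1 (φt * q) (t - 2 * (φt * q)) (lu * q) (Sl r = b) ix cb M₀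
      (NzW Ψ c r (c (r + 1)) Db wΨ (M₀ + 4) (fun i => t + Va (ks i) * q) p₁ p₂ eN uN pN 3) := by
    obtain ⟨x1, x2, x3, x4⟩ := hx (M + 2) (by omega)
    simp only [show ¬ M + 2 < M by omega, show ¬ M + 2 < M + 2 by omega,
      show ¬ M + 2 = M by omega, show ¬ M + 2 = M + 1 by omega, if_false] at x2 x3 x4
    have hFa : FaQ (r, Cf, 1 / 8, κT) (k₀ (M + 2)) S' P θ c Pt rt L T κ G (x (M + 2)) :=
      FaQ.sub hsub x4
    refine hv0 Ra' hε hS1 hκ hbd.symm hba.ge hM1 hluq ?_ ?_ ?_ ?_ ?_ hCf1 hcb hco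
      (κ' := κT) (k₀ := k₀ (M + 2)) (x₀ := x (M + 2)) hκT0 hκT1.le hFa ?_ ?_ ?_ ?_ ?_
      (i := 3) (i' := 2) (im := fun t' => 3 + t') HM' (by omega) hw3 (by omega) hw2
      (fun t' ht' => ⟨by omega, hwm t' ht'⟩) ?_ ?_ ?_ ?_ ?_ ?_ ?_ ?_ ?_ (le_max_right _ _) ?_ ?_ ?_
      le_rfl
    · -- the error of the windows
      have := mul_le_mul_of_nonneg_right hφt1 hq0.le
      linarith
    · intro j hj
      rw [← hVag]
      exact Ra'.memG.2 _ (by omega)
    · rw [hwt]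
      have h1 : (cb * lu + co * lu + Λ * lu + lu + 1) * q ≤ K' * q :=
        mul_le_mul_of_nonneg_right (by linarith) hq0.le
      have h2 : (cb + co + Λ + 1) * (lu * q) = (cb * lu + co * lu + Λ * lu + lu) * q := by ring
      rw [h2]
      linarith
    · have := mul_le_mul_of_nonneg_right (show 4 * ε ≤ φt by linarith) hq0.le
      linarith
    · rw [hba, ← hbd]
      have h1 : 3 * ((1 + b + b) * (lu * q / M₀)) = 3 * ((1 + 2 * b) * lu) * q / M₀ := by ring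
      rw [h1, div_le_iff₀ hM0]
      have := mul_le_mul_of_nonneg_right hMφ hq0.le
      linarith
    · linarith
    · have h1 : t + b₀ * q ≤ x (M + 2) := x2
      have h2 : b₀ * q = -(2 * (φt * q)) - (Cf + (7 * r + 12) / 2 - Λ) * (lu * q) := by
        rw [hb₀]; ring
      linarith
    · have h1 : x (M + 2) ≤ t + b₁ * q := x3
      have h2 : b₁ * q = -(2 * (φt * q)) - (Cf / 2 + 7 * r + 13) * (lu * q) := by
        rw [hb₁]; ring
      linarith
    · intro j hj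
      obtain ⟨rk, E, c1, c2, c3, c4, c5⟩ := hatd (Nv + 4 + j) (by omega)
      rw [hVag] at c4 c5
      have h2 : (0 : ℝ) < (1 / 2) ^ k₀ (M + 1) := by positivity
      exact ⟨rk, E, c1, c2, c3, by linarith, c5.sub hsub⟩
    · rintro x' (rfl | rfl)
      · have h1 := hlbk (ks 3) (hksN 3 (by omega))
        rw [hw3] at h1
        exact h1
      · have h1 := hlbk (ks 2) (hksN 2 (by omega))
        rw [hw2] at h1
        exact h1
    · exact div_nonneg hφ0 hbp.le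
    · rw [div_le_iff₀ hbp]
      linarith
    · have := mul_le_mul_of_nonneg_right hlM3 hq0.le
      linarith
    · exact le_of_eq (by ring)
    · linarith
    · exact mul_le_mul_of_nonneg_right hlM2 hq0.le
    · have := mul_le_mul_of_nonneg_right (show lamM + gM ≤ b * lu by linarith) hq0.le
      linarith
    · have h1 : b * (t - 2 * (φt * q) - t) = -(2 * (b * φt) * q) := by ring
      rw [h1]
      have h2 : 0 < b * φt := mul_pos hbp hφt0
      have h3 : (3 * lu + gM + ε) * q ≤ (b * R + 2 * (b * φt)) * q :=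
        mul_le_mul_of_nonneg_right (by linarith) hq0.le
      linarith
    · rw [hwt]
      have h3 : (2 * φt + lu) * q ≤ R * q := mul_le_mul_of_nonneg_right (by linarith) hq0.le
      linarith
    · intro j hj
      exact ⟨(hix j (by omega)).2.2.1, hixg j (by omega)⟩
    · intro i _ l hl
      exact hlvE l hl _
    · have h1 : hh * (4 * C) * q ≤ φt * q := mul_le_mul_of_nonneg_right hhl4 hq0.le
      linarith
  -- the numbers of the windows
  have hTi : TieR r (fun k => t + vG y k₁ vw k * q)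
      (fun k l => lvN P c (r + 1) (L (r + 1)) l (t + vG y k₁ vw k * q) (t + vG y k₁ vw k * q))
      (ix 0) (ix (cb * M₀)) (ix (cb * M₀ + M₀)) (hh * q) (Sl (r + 1) * q)
      (X / 2 * q + 2 * (ε * q)) (X * q) (t - 2 * (φt * q)) (lu * q) (φt * q) κ₂ := by
    rw [← hbd]
    exact tieR_rec R' (cb := (cb : ℝ)) hκ hba hbd.symm hs hε.le hhh.le hhl5 hφt0.le hcbl hlu3 hlu
      hφt3 (by linarith) hφt2 hX0 (by linarith) hk10.le
      (by rw [hixg 0 (Nat.zero_le _), grV_zero]) (by rw [hixg _ (by omega), grV_mid hM1])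
      (by rw [hixg _ (by omega), grV_one hM1])
  have h2M : 2 ≤ cb * M₀ := by
    have : 1 * M₀ ≤ cb * M₀ := Nat.mul_le_mul_right _ (by omega)
    omega
  have hΨd : ∀ (J : ℕ) (F : Fam (r + 2) J) (A : F.Ω → Prop) (V : Type) (z : PtT F → V)
      (z' : LnT F → V) (G : V → MvPolynomial (Option (Fin (r + 2))) ℝ), Ψ J F A V z z' G →
      (∀ y, (G y).totalDegree ≤ Db) ∧ (∀ y, DpI ((range (r + 1)).image c) (G y)) ∧
      ∀ ω, A ω → z (ptr F J ω) = z' (slam F ⌊wΨ * J⌋₊ ω) := by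
    intro J F A V z z' G hG
    obtain ⟨e₀, ρ₀, π₀, -, -, -, h1⟩ := HM'.lb
    have h2 := h1 J F A V z z' G hG
    exact ⟨h2.deg, h2.dep, h2.cls⟩
  have hTB := httb (S := S') (c := c) (Dr := max Dr₀ (nzD Db)) (N := N₁) (N₂ := N₂)
    (R := fun l => κ l = .one ∨ κ l = .thin) (C := C) (a := t + a * q) (Eb := Eb (r + 1))
    (ε₀ := 3 * ε * q) (η₀ := hh * q) (ζ := X / 2 * q + 2 * (ε * q)) (χ := X * q)
    (mb := Sl (r + 1) * q) (Pt := L (r + 1)) (o := fun k => t + vG y k₁ vw k * q)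
    (lv := fun k l => lvN P c (r + 1) (L (r + 1)) l (t + vG y k₁ vw k * q)
      (t + vG y k₁ vw k * q))
    (be := fun k l => bet P c l (t + a * q) (t + vG y k₁ vw k * q)) (κ₁ := (1 / 8) ^ (M₀ + 4))
    (Θ := Θ) (n := M₀ + 4) (vv := fun i => t + Va (ks i) * q) (Ψ := Ψ) (wΨ := wΨ) (p₁ := p₁)
    (p₂ := p₂) (eN := eN) (uN := uN) (pN := pN) (i₀ := 0) (i := 3) (w₀ := t + Va (ks 0) * q)
    (w := t - 2 * (φt * q)) (u := lu * q) (φ := φt * q) (κ₂ := κ₂) (sR := b) (ι := 1)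
    (tie := (Sl r = b)) (cb := cb) (M₀ := M₀) (ix := ix) R'.inj hN2 hC (mul_pos hhh hq0)
    (mul_pos hX0 hq0) (by
      have h1 : 0 < C * hh := mul_pos hC0 hhh
      have h2 : C * hh * q < X * q := mul_lt_mul_of_pos_right (by linarith) hq0
      linarith) hluq HM'.hs hΨd (fun J F A V C' z z' G₁ G₂ cc hG => hΘn J F A V C' z z' G₁ G₂ cc hG)
    (by omega) hw3 (HM'.wv 0 (by omega)) (by
      rw [kv0]
      have h1 : 1 * q ≤ y₁ * q := mul_le_mul_of_nonneg_right (by linarith) hq0.le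
      linarith) (by
      show t - 2 * (φt * q) ≤ t + vG y k₁ vw 0 * q
      have h1 : vG y k₁ vw 0 = 0 := by simp [vG]
      rw [h1]
      linarith) (HM'.w0.trans (HM'.wv 0 (by omega))) hE hV0 h2M
    (fun j hj => (hix j (by omega)).2.2.1) (fun j hj => by
      show t + vG y k₁ vw (ix j) * q + hh * q ≤ t + vG y k₁ vw (ix (j + 1)) * q
      rw [hixg j (by omega), hixg (j + 1) (by omega), grV_step]
      have h1 : hh * q ≤ lu / M₀ * q := mul_le_mul_of_nonneg_right hhl6 hq0.le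
      have h2 : lu * q / M₀ = lu / M₀ * q := by ring
      rw [h2]
      linarith) (by
      show t + vG y k₁ vw (ix 1) * q ≤ t + vG y k₁ vw (ix 0) * q + lu * q / 2
      rw [hixg 1 (by omega), hixg 0 (by omega)]
      have h1 := grV_step (M₀ := M₀) (cb := cb) (t - 2 * (φt * q)) (lu * q) 0
      rw [zero_add] at h1
      rw [h1]
      have h2 : lu * q / M₀ ≤ lu * q / 2 := div_le_div_of_nonneg_left hluq.le (by norm_num) hM2R
      linarith) hTi (by positivity) (by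
      rw [← mul_pow]
      norm_num)
  refine ⟨S', fun J F B g₀ G H Ht CL Cp => XiF Θ (t + Va (ks 0) * q) J F B g₀ G H Ht CL Cp ∧
    XiCl c r Dw CT (X * q) (Sl (r + 1) * q) (fun k => t + vG y k₁ vw k * q)
      (fun k l => lvN P c (r + 1) (L (r + 1)) l (t + vG y k₁ vw k * q) (t + vG y k₁ vw k * q))
      J F B g₀ G H Ht CL Cp, hsub, R', fun J F B g₀ G H Ht CL Cp h => h.2,
    ⟨(1 / 8) ^ (M₀ + 4) / 8, 8 * 1 * (8 ^ (M₀ + 4) * 8), by positivity, by positivity, ?_⟩,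
    fun κ' qf Pq h1 h2 h3 h4 => ?_⟩
  · refine hCT hRf N₁ N₂ hN1 hN2 (by linarith only [hba, hs]) (by rw [← hbd]; exact hs) hC hhh
      (by
        have h1 : ε * (6 * C) = 2 * (3 * C * ε) := by ring
        have h2 : 0 < 3 * C * ε := by positivity
        linarith only [h1, h2, hεe]) hlog hXc4 hDDw hXs (by norm_num)
      (by positivity : (0 : ℝ) ≤ (1 / 8) ^ (M₀ + 4)) (le_of_eq (by ring))
      (hSl.kap ?_ (by positivity)) hTB
    have h1 : ((1 : ℝ) / 8) ^ (M₀ + 4) ≤ 1 := pow_le_one₀ (by norm_num) (by norm_num)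
    linarith
  · obtain ⟨K₂, hK, hv⟩ := hVf κ' qf Pq h1 h2 h3 h4
    exact ⟨K₂, hK, hv.xi fun J F B g₀ G H Ht CL Cp h => h.1⟩

end Pool.TIE19
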