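import Pool.Agent.H46.MIC.W0s

/-!
# Uniqueness of the shape

Two shapes with few bits given the context. If the position is full given each of them, the height
over it and the context, and the height is not full given the position, then the shapes agree, up to
constants, with probability at least `η / 2`.
-/

set_option autoImplicit false

namespace Pool.TIE

open Finset Real
open Pool.Agent.H49.Ent Pool.Agent.H32.Dense Pool.STK Pool.BFL Pool.MIC

/-- Positions in a box. -/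
theorem CH_boxA {Ω T : Type} [Fintype Ω] {p : Ω → ℝ} (hp : IsLaw p) {m X A : ℕ}
    (Y : Ω → Fin m → ℤ) (Z : Ω → T)
    (hY : ∀ ω, 0 < p ω → ∀ i, |((Y ω i : ℤ) : ℝ)| ≤ 2 ^ A * 2 ^ X) :
    CH p Y Z ≤ m * (X * Real.log 2) + m * (A + 3) := by
  have hl2' : Real.log 2 ≤ 1 := by linarith [Real.log_two_lt_d9]
  have hl2 : 0 < Real.log 2 := Real.log_pos (by norm_num)
  have hA0 : (0 : ℝ) ≤ A := Nat.cast_nonneg _
  have hm0 : (0 : ℝ) ≤ m := Nat.cast_nonneg _
  have h1 := CH_le_vec hp.nonneg hp.sum_one Y Z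
    (fun _ => 2 * (2 ^ A * 2 ^ X)) (fun ω ω' h h' _ k => by
      have h2 := hY ω h k
      have h3 := hY ω' h' k
      push_cast
      rw [abs_le] at h2 h3 ⊢
      constructor <;> linarith)
  rw [Ex_const hp.sum_one] at h1
  have h4 : (2 : ℝ) * (2 * (2 ^ A * 2 ^ X)) + 1 ≤ 2 ^ (X + (A + 3)) := by
    have h6 : (1 : ℝ) ≤ 2 ^ A := one_le_pow₀ (by norm_num)
    have h7 : (1 : ℝ) ≤ 2 ^ X := one_le_pow₀ (by norm_num)
    have h5 : (1 : ℝ) ≤ 2 ^ A * 2 ^ X := by nlinarith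
    have h8 : (2 : ℝ) ^ (X + (A + 3)) = 8 * (2 ^ A * 2 ^ X) := by ring
    rw [h8]
    linarith
  have h9 := Real.log_le_log (by positivity) h4
  rw [Real.log_pow] at h9
  push_cast at h9
  have h10 : (m : ℝ) * ((A + 3) * Real.log 2) ≤ m * (A + 3) :=
    mul_le_mul_of_nonneg_left (mul_le_of_le_one_right (by linarith) hl2') hm0
  have h11 := mul_le_mul_of_nonneg_left h9 hm0
  have h12 : (m : ℝ) * ((X + (A + 3)) * Real.log 2) =
      m * (X * Real.log 2) + m * ((A + 3) * Real.log 2) := by ring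
  linarith

/-- **Uniqueness of the shape.** -/
theorem unq0 (m K : ℕ) : ∃ C : ℝ, 1 ≤ C ∧ ∀ (Ω Γ : Type) [Fintype Ω] (p : Ω → ℝ)
    (X A b s u : ℕ) (G : Ω → Γ) (Y : Ω → Fin m → ℤ) (n n' nu : Ω → ℤ) (kap kap' : Ω → Pl m)
    (θ C₀ η : ℝ), IsLaw p → 1 ≤ u → 0 ≤ θ → 0 ≤ C₀ → 0 < X →
    (∀ ω, 0 < p ω → ∀ i, |((Y ω i : ℤ) : ℝ)| ≤ 2 ^ A * 2 ^ X) →
    (∀ ω, 0 < p ω → (kap ω).totalDegree ≤ K) →
    (∀ ω, 0 < p ω → (kap' ω).totalDegree ≤ K) →
    (∀ ω, 0 < p ω → ∀ k, k ≠ 0 → |MvPolynomial.coeff k (kap ω)| ≤ 2 ^ b) →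
    (∀ ω, 0 < p ω → ∀ k, k ≠ 0 → |MvPolynomial.coeff k (kap' ω)| ≤ 2 ^ b) →
    (∀ ω, 0 < p ω → |((nu ω : ℤ) : ℝ) - (n ω : ℤ) - 2 ^ X *
      MvPolynomial.eval (fun i => ((Y ω i : ℤ) : ℝ) / 2 ^ X) (kap ω)| ≤ C₀) →
    (∀ ω, 0 < p ω → |((nu ω : ℤ) : ℝ) - (n' ω : ℤ) - 2 ^ X *
      MvPolynomial.eval (fun i => ((Y ω i : ℤ) : ℝ) / 2 ^ X) (kap' ω)| ≤ C₀) →
    CH p kap' G ≤ θ →
    m * (X * Real.log 2) - θ ≤ CH p Y (fun ω => (n ω, (kap ω, G ω))) →
    m * (X * Real.log 2) - θ ≤ CH p Y (fun ω => (n' ω, (kap' ω, G ω))) →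
    CH p nu (fun ω => (Y ω, G ω)) ≤ (1 - η) * (X * Real.log 2) →
    C * (s + b + u + A + 1 + θ + Real.log (C₀ + 1)) + C * (X * (θ + A + 1) / u) ≤ η * X →
    Pb p (fun ω => Lg s (kap ω - kap' ω)) ≤ 1 - η / 2 := by
  classical
  obtain ⟨D, hD1, hD⟩ := one m K
  have hl2 : 0 < Real.log 2 := Real.log_pos (by norm_num)
  have hl2' : Real.log 2 ≤ 1 := by linarith [Real.log_two_lt_d9]
  have hl2'' : 1 / 2 ≤ Real.log 2 := by linarith [Real.log_two_gt_d9]
  have hm0 : (0 : ℝ) ≤ m := Nat.cast_nonneg _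
  refine ⟨8 * D + 4 * (3 * m + 20), by linarith, ?_⟩
  intro Ω Γ _ p X A b s u G Y n n' nu kap kap' θ C₀ η hp hu hθ hC₀ hX hY hdeg hdeg' hcf hcf'
    hnu hnu' hfew H2 H2' H3 hsz
  have hX0 : (0 : ℝ) < X := by exact_mod_cast hX
  have hA0 : (0 : ℝ) ≤ A := Nat.cast_nonneg _
  have hs0 : (0 : ℝ) ≤ s := Nat.cast_nonneg _
  have hb0 : (0 : ℝ) ≤ b := Nat.cast_nonneg _
  have hu1 : (1 : ℝ) ≤ u := by exact_mod_cast hu
  have hu0 : (0 : ℝ) < u := by linarith
  have hL0 : 0 ≤ Real.log (C₀ + 1) := Real.log_nonneg (by linarith)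
  have hlog : ∀ r : ℝ, 1 ≤ r → Real.log (r * (C₀ + 1)) = Real.log r + Real.log (C₀ + 1) :=
    fun r hr => Real.log_mul (by linarith) (by linarith)
  have hlog8 : Real.log (4 * (2 * C₀) + 3) ≤ 7 + Real.log (C₀ + 1) := by
    have h1 := Real.log_le_log (show (0 : ℝ) < 4 * (2 * C₀) + 3 by linarith)
      (show 4 * (2 * C₀) + 3 ≤ 8 * (C₀ + 1) by linarith)
    rw [hlog 8 (by norm_num)] at h1
    have h2 := Real.log_le_sub_one_of_pos (show (0 : ℝ) < 8 by norm_num)
    linarith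
  have hlog4 : Real.log (2 * (2 * C₀) + 1) ≤ 3 + Real.log (C₀ + 1) := by
    have h1 := Real.log_le_log (show (0 : ℝ) < 2 * (2 * C₀) + 1 by linarith)
      (show 2 * (2 * C₀) + 1 ≤ 4 * (C₀ + 1) by linarith)
    rw [hlog 4 (by norm_num)] at h1
    have h2 := Real.log_le_sub_one_of_pos (show (0 : ℝ) < 4 by norm_num)
    linarith
  -- the position is full given both shapes
  have hfull : m * (X * Real.log 2) - 2 * θ ≤ CH p Y
      (fun ω => (n ω, (kap ω, (kap' ω, G ω)))) := by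
    have a2 := CH_bayes hp.nonneg Y kap' (fun ω => (n ω, (kap ω, G ω)))
    have a3 : CH p kap' (fun ω => (n ω, (kap ω, G ω))) ≤ CH p kap' G :=
      CH_mono_cond hp.nonneg fun _ _ _ _ h => (Prod.ext_iff.1 (Prod.ext_iff.1 h).2).2
    have a4 := CH_nonneg hp.nonneg kap' (fun ω => (Y ω, (n ω, (kap ω, G ω))))
    have a5 : CH p Y (fun ω => (n ω, (kap ω, (kap' ω, G ω)))) =
        CH p Y (fun ω => (kap' ω, (n ω, (kap ω, G ω)))) := by
      refine CH_congr hp.nonneg ?_ ?_ ?_ ?_ <;>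
      · intro w w' _ _ h
        simp only [Prod.mk.injEq] at h
        try simp only [Prod.mk.injEq]
        tauto
    rw [a5]
    linarith
  have hone := hD Ω (Pl m × (Pl m × Γ)) (Pl m × Γ) p X A (b + 1) s u Y n n'
    (fun w => (kap w, (kap' w, G w))) (fun w => (kap' w, G w)) (fun x => x.1 - x.2.1) (2 * θ)
    (2 * C₀) hp hu (by linarith) (by linarith) hY
    (fun w hw => (MvPolynomial.totalDegree_sub _ _).trans (max_le (hdeg w hw) (hdeg' w hw)))
    (fun w hw k hk => by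
      have h1 := hcf w hw k hk
      have h2 := hcf' w hw k hk
      rw [MvPolynomial.coeff_sub, pow_succ]
      rw [abs_le] at h1 h2 ⊢
      constructor <;> linarith)
    (fun w hw => by
      have h1 := hnu w hw
      have h2 := hnu' w hw
      simp only [map_sub]
      rw [abs_le] at h1 h2 ⊢
      constructor <;> linarith)
    hfull (fun w w' _ _ h => (Prod.ext_iff.1 (Prod.ext_iff.1 h).2).2)
  -- the entropy of the height
  have hYle := CH_boxA hp Y (fun ω => (kap' ω, G ω)) hY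
  have hn : CH p n' (fun ω => (kap' ω, G ω)) ≤ (1 - η) * (X * Real.log 2) +
      (m * (A + 3) + θ + (3 + Real.log (C₀ + 1))) := by
    have b1 := CH_bayes hp.nonneg Y n' (fun ω => (kap' ω, G ω))
    have b2 := CH_le_add hp.nonneg n' nu (fun ω => (Y ω, (kap' ω, G ω)))
    have b3 : CH p nu (fun ω => (Y ω, (kap' ω, G ω))) ≤ CH p nu (fun ω => (Y ω, G ω)) := by
      refine CH_mono_cond hp.nonneg fun ω ω' _ _ h => ?_
      simp only [Prod.mk.injEq] at h ⊢
      tauto
    have b4 := CH_le_int hp.nonneg hp.sum_one n' (fun ω => (nu ω, (Y ω, (kap' ω, G ω))))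
      (fun _ => 2 * C₀) (fun ω ω' h h' hh => by
        simp only [Prod.mk.injEq] at hh
        obtain ⟨e1, e2, e3, _⟩ := hh
        have h1 := hnu' ω h
        have h2 := hnu' ω' h'
        rw [← e1, ← e2, ← e3] at h2
        push_cast
        rw [abs_le] at h1 h2 ⊢
        constructor <;> linarith)
    rw [Ex_const hp.sum_one] at b4
    linarith
  obtain ⟨P, hP⟩ : ∃ P : ℝ, P = Pb p (fun w => Lg s (kap w - kap' w)) := ⟨_, rfl⟩
  have hone' : P * (X * Real.log 2) ≤ (1 - η / 2) * (X * Real.log 2) := by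
    rw [hP]
    refine (hone.trans (add_le_add_left hn _)).trans ?_
    have c1 : D * (s + (b + 1 : ℕ) + u + A + 1) ≤
        2 * D * (s + b + u + A + 1 + θ + Real.log (C₀ + 1)) := by
      push_cast
      have h0 : 0 ≤ D := by linarith
      have h1 : 0 ≤ D * (s + b + u + A) := by positivity
      have h2 : 0 ≤ D * (θ + Real.log (C₀ + 1)) := by positivity
      nlinarith
    have c2 : D * (X * (2 * θ + A + 1) / u) ≤ 2 * D * (X * (θ + A + 1) / u) := by
      have h0 : 0 ≤ D := by linarith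
      have h1 : X * (2 * θ + A + 1) / u ≤ 2 * (X * (θ + A + 1) / u) := by
        rw [← mul_div_assoc]
        refine div_le_div_of_nonneg_right ?_ hu0.le
        nlinarith
      have h2 := mul_le_mul_of_nonneg_left h1 h0
      linarith
    have c3 : (m : ℝ) * (A + 3) + θ + (3 + Real.log (C₀ + 1)) + (7 + Real.log (C₀ + 1)) ≤
        (3 * m + 20) * (s + b + u + A + 1 + θ + Real.log (C₀ + 1)) := by
      have h1 : 0 ≤ (m : ℝ) * A := by positivity
      have h2 : 0 ≤ (m : ℝ) * (s + b + u + θ + Real.log (C₀ + 1)) := by positivity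
      nlinarith
    have c4 : η * X / 4 ≤ η / 2 * (X * Real.log 2) := by
      have h0 : 0 ≤ η * X := by
        refine le_trans ?_ hsz
        have h1 : (0 : ℝ) ≤ s + b + u + A + 1 + θ + Real.log (C₀ + 1) := by positivity
        have h2 : (0 : ℝ) ≤ X * (θ + A + 1) / u := by positivity
        have h0 : 0 ≤ D := by linarith
        positivity
      have h1 : η * X * (1 / 2) ≤ η * X * Real.log 2 := mul_le_mul_of_nonneg_left hl2'' h0
      linarith
    have c5 : 2 * D * (s + b + u + A + 1 + θ + Real.log (C₀ + 1)) +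
        2 * D * (X * (θ + A + 1) / u) +
        (3 * m + 20) * (s + b + u + A + 1 + θ + Real.log (C₀ + 1)) ≤ η * X / 4 := by
      have h0 : 0 ≤ D := by linarith
      have h2 : (0 : ℝ) ≤ X * (θ + A + 1) / u := by positivity
      have h5 : 0 ≤ (4 * (3 * m + 20)) * (X * (θ + A + 1) / u) := by positivity
      have h6 : (8 * D + 4 * (3 * m + 20)) * (s + b + u + A + 1 + θ + Real.log (C₀ + 1)) =
          8 * D * (s + b + u + A + 1 + θ + Real.log (C₀ + 1)) +
          4 * (3 * m + 20) * (s + b + u + A + 1 + θ + Real.log (C₀ + 1)) := by ring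
      have h7 : (8 * D + 4 * (3 * m + 20)) * (X * (θ + A + 1) / u) =
          8 * D * (X * (θ + A + 1) / u) + 4 * (3 * m + 20) * (X * (θ + A + 1) / u) := by ring
      rw [h6, h7] at hsz
      linarith
    have c6 : (1 - η / 2) * (X * Real.log 2) = (1 - η) * (X * Real.log 2) +
        η / 2 * (X * Real.log 2) := by ring
    rw [c6]
    linarith
  rw [← hP]
  exact le_of_mul_le_mul_right hone' (by positivity)

end Pool.TIE
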