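import Pool.Agent.H19.TIE.Unq
import Pool.Agent.H32.Dense.Marg

/-!
# The shape is a function of visible data

`z` is a hidden context, `ρ` is visible and finite: it contains the position `Y` and the height `nu`.
`R` is a function of `ρ` and of `z`, and `z` has at most `δ` information about `ρ` given `R`. The
shape `kap` has few bits given `z`. Two samples with the same `ρ`, independent given `ρ`: the
position is full given both contexts, so both shapes agree with probability at least `η / 2`.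
-/

set_option autoImplicit false

namespace Pool.TIE

open Finset Real
open Pool.Agent.H49.Ent Pool.Agent.H32.Dense Pool.STK Pool.BFL Pool.MIC

section sel

variable {W S : Type} [Fintype W] {q : W → ℝ}

/-- The choice of one sample for every value. -/
theorem sel_ex (q0 : ∀ w, 0 ≤ q w) (q1 : ∑ w, q w = 1) (X : W → S) (f : W → W → ℝ) :
    ∃ ws : S → W, Ex q (fun w => f w (ws (X w))) ≤ Ex (glue q q X X) (fun w => f w.1 w.2) := by
  classical
  obtain ⟨Φ, hΦ⟩ : ∃ Φ : S → W → ℝ, Φ = fun x w' =>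
    ∑ w, if X w = x then q w * f w w' else 0 := ⟨_, rfl⟩
  have hne : Nonempty W := by
    by_contra hcon
    rw [not_nonempty_iff] at hcon
    rw [Finset.univ_eq_empty, Finset.sum_empty] at q1
    exact zero_ne_one q1
  have hsel : ∀ x, ∃ w' : W, ∀ w, 0 < q w → X w = x → Φ x w' ≤ Φ x w := by
    intro x
    by_cases hx : ∃ w, 0 < q w ∧ X w = x
    · obtain ⟨w', h1, h2⟩ := Finset.exists_min_image
        (Finset.univ.filter fun w => 0 < q w ∧ X w = x) (Φ x)
        ⟨hx.choose, Finset.mem_filter.mpr ⟨Finset.mem_univ _, hx.choose_spec⟩⟩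
      exact ⟨w', fun w a b => h2 w (Finset.mem_filter.mpr ⟨Finset.mem_univ _, a, b⟩)⟩
    · exact ⟨hne.some, fun w a b => absurd ⟨w, a, b⟩ hx⟩
  choose ws hws using hsel
  refine ⟨ws, ?_⟩
  have e1 : Ex q (fun w => f w (ws (X w))) =
      Ex (glue q q X X) (fun w => f w.1 (ws (X w.1))) :=
    ((marg_fst q0 (fun _ => rfl)).ex (fun w => f w (ws (X w)))).symm
  rw [e1]
  unfold Ex
  rw [Fintype.sum_prod_type_right, Fintype.sum_prod_type_right]
  refine Finset.sum_le_sum fun w' _ => ?_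
  have hgl : ∀ w, glue q q X X (w, w') = if X w = X w' then
      q w * (q w' / law q X (X w')) else 0 := by
    intro w
    unfold glue
    simp only
    split_ifs with h
    · rw [h]
      ring
    · rfl
  have hw0 : 0 ≤ q w' / law q X (X w') := div_nonneg (q0 w') (law_nonneg q0 _ _)
  have e2 : ∀ F : W → ℝ, ∑ w, glue q q X X (w, w') * F w =
      (q w' / law q X (X w')) * ∑ w, if X w = X w' then q w * F w else 0 := by
    intro F
    rw [Finset.mul_sum]
    refine Finset.sum_congr rfl fun w _ => ?_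
    rw [hgl w]
    split_ifs
    · ring
    · ring
  have e3 : ∑ w, glue q q X X (w, w') * f w (ws (X w)) =
      (q w' / law q X (X w')) * Φ (X w') (ws (X w')) := by
    rw [e2 (fun w => f w (ws (X w))), hΦ]
    congr 1
    refine Finset.sum_congr rfl fun w _ => ?_
    split_ifs with h
    · rw [h]
    · rfl
  have e4 : ∑ w, glue q q X X (w, w') * f w w' = (q w' / law q X (X w')) * Φ (X w') w' := by
    rw [e2 (fun w => f w w'), hΦ]
  change ∑ w, glue q q X X (w, w') * f w (ws (X w)) ≤ ∑ w, glue q q X X (w, w') * f w w'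
  rw [e3, e4]
  rcases (q0 w').eq_or_lt with h0 | h0
  · rw [← h0, zero_div, zero_mul, zero_mul]
  · exact mul_le_mul_of_nonneg_left (hws _ w' h0 rfl) hw0

open Classical in
theorem Pb_ex (A : W → Prop) : Pb q A = Ex q (fun w => if A w then 1 else 0) := by
  unfold Pb Ex
  refine Finset.sum_congr rfl fun w _ => ?_
  by_cases h : A w <;> simp [h]

/-- The choice of one sample, for events. -/
theorem sel_pb (q0 : ∀ w, 0 ≤ q w) (q1 : ∑ w, q w = 1) (X : W → S) (A : W → W → Prop) :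
    ∃ ws : S → W, Pb q (fun w => A w (ws (X w))) ≤ Pb (glue q q X X) (fun w => A w.1 w.2) := by
  classical
  obtain ⟨ws, hws⟩ := sel_ex q0 q1 X (fun w w' => if A w w' then 1 else 0)
  refine ⟨ws, ?_⟩
  rw [Pb_ex, Pb_ex]
  refine le_trans (le_of_eq ?_) (hws.trans (le_of_eq ?_))
  · unfold Ex
    refine Finset.sum_congr rfl fun w _ => ?_
    congr 1
  · unfold Ex
    refine Finset.sum_congr rfl fun w _ => ?_
    congr 1

end sel

section two

variable {Ω Γ Ρ 𝓡 S : Type} [Fintype Ω] {p : Ω → ℝ}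

/-- **Two contexts.** A function of `ρ` given the contexts of two samples with the same `ρ`. -/
theorem two_ctx (hp : IsLaw p) (z : Ω → Γ) (ρ : Ω → Ρ) (R : Ω → 𝓡) (U : Ω → S) {δ : ℝ}
    (hzR : Det p z R) (hρR : Det p ρ R) (hδ : CH p z R ≤ CH p z ρ + δ) :
    CH p U z - δ ≤ CH (glue p p ρ ρ) (fun w => U w.1) (fun w => (z w.2, z w.1)) := by
  have hg : ∀ w, 0 ≤ glue p p ρ ρ w := fun w => glue_nonneg hp.nonneg hp.nonneg w
  have m1 : Marg (glue p p ρ ρ) p (fun w => w.1) := marg_fst hp.nonneg (fun _ => rfl)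
  have m2 : Marg (glue p p ρ ρ) p (fun w => w.2) := marg_snd hp.nonneg (fun _ => rfl)
  have hsup : ∀ w, 0 < glue p p ρ ρ w → ρ w.1 = ρ w.2 := fun w hw =>
    ((glue_pos_iff hp.nonneg hp.nonneg w).1 hw).2.2
  have b1 := CH_bayes hg (fun w => U w.1) (fun w => z w.2) (fun w => z w.1)
  have b2 : CH (glue p p ρ ρ) (fun w => U w.1) (fun w => z w.1) = CH p U z := m1.CH U z
  -- the second context given the first one
  have b3 : CH (glue p p ρ ρ) (fun w => z w.2) (fun w => z w.1) ≤ CH p z R := by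
    rw [← m2.CH z R]
    refine CH_mono_cond hg fun w w' a b h => ?_
    have h1 : R w.1 = R w'.1 := hzR _ _ (m1.pos hg a) (m1.pos hg b) h
    have h2 : R w.1 = R w.2 := hρR _ _ (m1.pos hg a) (m2.pos hg a) (hsup w a)
    have h3 : R w'.1 = R w'.2 := hρR _ _ (m1.pos hg b) (m2.pos hg b) (hsup w' b)
    rw [← h2, ← h3, h1]
  have b4 : CH p z ρ ≤ CH (glue p p ρ ρ) (fun w => z w.2) (fun w => (U w.1, z w.1)) := by
    have h1 : CH (glue p p ρ ρ) (fun w => z w.2) (fun w => (ρ w.2, w.1)) = CH p z ρ :=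
      CH_glue_snd (Z₁ := ρ) (Z₂ := ρ) hp.nonneg hp.nonneg (fun _ => rfl) z (fun ω : Ω => ω)
        (fun _ _ _ _ e => e)
    rw [← h1]
    refine CH_mono_cond hg fun w w' _ _ h => ?_
    have h2 : w.1 = w'.1 := (Prod.ext_iff.1 h).2
    simp only [h2]
  linarith

end two

/-- Fullness of the position passes to a larger context. -/
theorem full_up {W Γ Γ' : Type} [Fintype W] {q : W → ℝ} (hq : IsLaw q) {m : ℕ} (z : W → Γ)
    (G : W → Γ') (Y : W → Fin m → ℤ) (n nu : W → ℤ) (kap : W → Pl m) {X : ℕ} {θ δ C₀ M : ℝ}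
    (hGz : Det q G z)
    (hU : CH q (fun w => (Y w, nu w)) z - δ ≤ CH q (fun w => (Y w, nu w)) G)
    (hk : CH q kap z ≤ θ)
    (hnu : ∀ w, 0 < q w → |((nu w : ℤ) : ℝ) - (n w : ℤ) - 2 ^ X *
      MvPolynomial.eval (fun i => ((Y w i : ℤ) : ℝ) / 2 ^ X) (kap w)| ≤ C₀)
    (hF : M ≤ CH q Y (fun w => (n w, (kap w, z w)))) :
    M - (δ + θ + 2 * Real.log (2 * (2 * C₀) + 1)) ≤ CH q Y (fun w => (n w, (kap w, G w))) := by
  have hq0 := hq.nonneg
  have b1 := CH_chain hq0 Y n (fun w => (kap w, G w))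
  have b2 : CH q n (fun w => (kap w, G w)) ≤ CH q n (fun w => (kap w, z w)) :=
    CH_mono_cond hq0 fun w w' a b h =>
      Prod.ext (Prod.ext_iff.1 h).1 (hGz w w' a b (Prod.ext_iff.1 h).2)
  have b3 := CH_chain hq0 Y n (fun w => (kap w, z w))
  -- from the height to the exact height
  have b4 : CH q (fun w => (Y w, nu w)) (fun w => (kap w, G w)) ≤
      CH q (fun w => (Y w, n w)) (fun w => (kap w, G w)) + Real.log (2 * (2 * C₀) + 1) := by
    have c1 := CH_le_add hq0 (fun w => (Y w, nu w)) (fun w => (Y w, n w)) (fun w => (kap w, G w))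
    have c2 : CH q (fun w => (Y w, nu w)) (fun w => ((Y w, n w), (kap w, G w))) ≤
        CH q nu (fun w => ((Y w, n w), (kap w, G w))) :=
      CH_mono_left hq0 fun w w' _ _ h => by
        simp only [Prod.mk.injEq] at h ⊢
        exact ⟨h.2.1.1, h.1⟩
    have c3 := CH_le_int hq0 hq.sum_one nu (fun w => ((Y w, n w), (kap w, G w)))
      (fun _ => 2 * C₀) (fun w w' h h' hh => by
        simp only [Prod.mk.injEq] at hh
        obtain ⟨⟨e1, e2⟩, e3, _⟩ := hh
        have h1 := hnu w h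
        have h2 := hnu w' h'
        rw [← e1, ← e2, ← e3] at h2
        push_cast
        rw [abs_le] at h1 h2 ⊢
        constructor <;> linarith)
    rw [Ex_const hq.sum_one] at c3
    linarith
  have b5 : CH q (fun w => (Y w, n w)) (fun w => (kap w, z w)) ≤
      CH q (fun w => (Y w, nu w)) (fun w => (kap w, z w)) + Real.log (2 * (2 * C₀) + 1) := by
    have c1 := CH_le_add hq0 (fun w => (Y w, n w)) (fun w => (Y w, nu w)) (fun w => (kap w, z w))
    have c2 : CH q (fun w => (Y w, n w)) (fun w => ((Y w, nu w), (kap w, z w))) ≤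
        CH q n (fun w => ((Y w, nu w), (kap w, z w))) :=
      CH_mono_left hq0 fun w w' _ _ h => by
        simp only [Prod.mk.injEq] at h ⊢
        exact ⟨h.2.1.1, h.1⟩
    have c3 := CH_le_int hq0 hq.sum_one n (fun w => ((Y w, nu w), (kap w, z w)))
      (fun _ => 2 * C₀) (fun w w' h h' hh => by
        simp only [Prod.mk.injEq] at hh
        obtain ⟨⟨e1, e2⟩, e3, _⟩ := hh
        have h1 := hnu w h
        have h2 := hnu w' h'
        rw [← e1, ← e2, ← e3] at h2
        push_cast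
        rw [abs_le] at h1 h2 ⊢
        constructor <;> linarith)
    rw [Ex_const hq.sum_one] at c3
    linarith
  have b6 : CH q (fun w => (Y w, nu w)) (fun w => (kap w, z w)) ≤
      CH q (fun w => (Y w, nu w)) z :=
    CH_mono_cond hq0 fun _ _ _ _ h => (Prod.ext_iff.1 h).2
  have b7 := CH_bayes hq0 (fun w => (Y w, nu w)) kap G
  have b8 : CH q kap G ≤ CH q kap z := CH_mono_cond hq0 hGz
  have b9 := CH_nonneg hq0 kap (fun w => ((Y w, nu w), G w))
  linarith

/-- **The shape is visible.** -/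
theorem vis0 (m K : ℕ) : ∃ C : ℝ, 1 ≤ C ∧ ∀ (Ω Γ Ρ 𝓡 : Type) [Fintype Ω] (p : Ω → ℝ)
    (X A b s u : ℕ) (z : Ω → Γ) (ρ : Ω → Ρ) (R : Ω → 𝓡) (Y : Ω → Fin m → ℤ) (n nu : Ω → ℤ)
    (kap : Ω → Pl m) (θ δ C₀ η : ℝ), IsLaw p → 1 ≤ u → 0 ≤ θ → 0 ≤ δ → 0 ≤ C₀ → 0 < X →
    Det p z R → Det p ρ R → Det p ρ Y → Det p ρ nu → CH p z R ≤ CH p z ρ + δ →
    (∀ ω, 0 < p ω → ∀ i, |((Y ω i : ℤ) : ℝ)| ≤ 2 ^ A * 2 ^ X) →
    (∀ ω, 0 < p ω → (kap ω).totalDegree ≤ K) →
    (∀ ω, 0 < p ω → ∀ k, k ≠ 0 → |MvPolynomial.coeff k (kap ω)| ≤ 2 ^ b) →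
    (∀ ω, 0 < p ω → |((nu ω : ℤ) : ℝ) - (n ω : ℤ) - 2 ^ X *
      MvPolynomial.eval (fun i => ((Y ω i : ℤ) : ℝ) / 2 ^ X) (kap ω)| ≤ C₀) →
    CH p kap z ≤ θ →
    m * (X * Real.log 2) - θ ≤ CH p Y (fun ω => (n ω, (kap ω, z ω))) →
    CH p nu (fun ω => (Y ω, z ω)) ≤ (1 - η) * (X * Real.log 2) →
    C * (s + b + u + A + 1 + θ + δ + Real.log (C₀ + 1)) +
      C * (X * (θ + δ + A + 1 + Real.log (C₀ + 1)) / u) ≤ η * X →
    ∃ Fs : Ρ → Ω, Pb p (fun ω => Lg s (kap ω - kap (Fs (ρ ω)))) ≤ 1 - η / 2 := by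
  classical
  obtain ⟨D, hD1, hD⟩ := unq0 m K
  refine ⟨10 * D, by linarith, ?_⟩
  intro Ω Γ Ρ 𝓡 _ p X A b s u z ρ R Y n nu kap θ δ C₀ η hp hu hθ hδ hC₀ hX hzR hρR hρY hρnu hfree
    hY hdeg hcf hnu hk hfull hnf hsz
  have hp0 := hp.nonneg
  have hD0 : 0 ≤ D := by linarith
  have hg : ∀ w, 0 ≤ glue p p ρ ρ w := fun w => glue_nonneg hp0 hp0 w
  have m1 : Marg (glue p p ρ ρ) p (fun w => w.1) := marg_fst hp0 (fun _ => rfl)
  have m2 : Marg (glue p p ρ ρ) p (fun w => w.2) := marg_snd hp0 (fun _ => rfl)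
  have hsup : ∀ w, 0 < glue p p ρ ρ w → ρ w.1 = ρ w.2 := fun w hw =>
    ((glue_pos_iff hp0 hp0 w).1 hw).2.2
  have hgl : IsLaw (glue p p ρ ρ) := ⟨hg, by rw [m1.sum, hp.sum_one]⟩
  have hYe : ∀ w, 0 < glue p p ρ ρ w → Y w.1 = Y w.2 := fun w hw =>
    hρY _ _ (m1.pos hg hw) (m2.pos hg hw) (hsup w hw)
  have hne : ∀ w, 0 < glue p p ρ ρ w → nu w.1 = nu w.2 := fun w hw =>
    hρnu _ _ (m1.pos hg hw) (m2.pos hg hw) (hsup w hw)
  obtain ⟨ℓ, hℓ⟩ : ∃ ℓ : ℝ, ℓ = Real.log (2 * (2 * C₀) + 1) := ⟨_, rfl⟩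
  have hL0 : 0 ≤ Real.log (C₀ + 1) := Real.log_nonneg (by linarith)
  have hℓ0 : 0 ≤ ℓ := by rw [hℓ]; exact Real.log_nonneg (by linarith)
  have hℓ1 : ℓ ≤ 3 + Real.log (C₀ + 1) := by
    have h1 := Real.log_le_log (show (0 : ℝ) < 2 * (2 * C₀) + 1 by linarith)
      (show 2 * (2 * C₀) + 1 ≤ 4 * (C₀ + 1) by linarith)
    rw [Real.log_mul (by norm_num) (by linarith)] at h1
    have h2 := Real.log_le_sub_one_of_pos (show (0 : ℝ) < 4 by norm_num)
    rw [hℓ]
    linarith
  obtain ⟨θ', hθ'⟩ : ∃ θ' : ℝ, θ' = 2 * θ + δ + 2 * ℓ := ⟨_, rfl⟩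
  have t1 := two_ctx hp z ρ R (fun ω => (Y ω, nu ω)) hzR hρR hfree
  -- the first sample
  have f1 := full_up (δ := δ) (θ := θ) (M := m * (X * Real.log 2) - θ) hgl
    (fun w => z w.1) (fun w => (z w.1, z w.2)) (fun w => Y w.1) (fun w => n w.1)
    (fun w => nu w.1) (fun w => kap w.1) (X := X) (C₀ := C₀)
    (fun _ _ _ _ h => (Prod.ext_iff.1 h).1)
    (by
      have h1 : CH (glue p p ρ ρ) (fun w => (Y w.1, nu w.1)) (fun w => z w.1) =
          CH p (fun ω => (Y ω, nu ω)) z := m1.CH (fun ω => (Y ω, nu ω)) z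
      rw [h1]
      refine t1.trans (CH_mono_cond hg fun _ _ _ _ h => ?_)
      exact Prod.ext (Prod.ext_iff.1 h).2 (Prod.ext_iff.1 h).1)
    (by
      have h1 : CH (glue p p ρ ρ) (fun w => kap w.1) (fun w => z w.1) = CH p kap z := m1.CH kap z
      rw [h1]
      exact hk)
    (fun w hw => hnu _ (m1.pos hg hw))
    (by
      have h1 : CH (glue p p ρ ρ) (fun w => Y w.1) (fun w => (n w.1, (kap w.1, z w.1))) =
          CH p Y (fun ω => (n ω, (kap ω, z ω))) := m1.CH Y (fun ω => (n ω, (kap ω, z ω)))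
      rw [h1]
      exact hfull)
  -- the second sample
  have f2 := full_up (δ := δ) (θ := θ) (M := m * (X * Real.log 2) - θ) hgl
    (fun w => z w.2) (fun w => (z w.1, z w.2)) (fun w => Y w.2) (fun w => n w.2)
    (fun w => nu w.2) (fun w => kap w.2) (X := X) (C₀ := C₀)
    (fun _ _ _ _ h => (Prod.ext_iff.1 h).2)
    (by
      have h1 : CH (glue p p ρ ρ) (fun w => (Y w.2, nu w.2)) (fun w => z w.2) =
          CH p (fun ω => (Y ω, nu ω)) z := m2.CH (fun ω => (Y ω, nu ω)) z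
      rw [h1]
      refine t1.trans (le_of_eq ?_)
      refine CH_congr hg ?_ ?_ ?_ ?_
      · intro w w' a b h
        have h2 : (Y w.1, nu w.1) = (Y w'.1, nu w'.1) := (Prod.ext_iff.1 h).1
        show (Y w.2, nu w.2) = (Y w'.2, nu w'.2)
        rw [← hYe w a, ← hne w a, ← hYe w' b, ← hne w' b]
        exact h2
      · intro w w' a b h
        have h2 : (Y w.2, nu w.2) = (Y w'.2, nu w'.2) := (Prod.ext_iff.1 h).1
        show (Y w.1, nu w.1) = (Y w'.1, nu w'.1)
        rw [hYe w a, hne w a, hYe w' b, hne w' b]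
        exact h2
      · exact fun _ _ _ _ h => Prod.ext (Prod.ext_iff.1 h).2 (Prod.ext_iff.1 h).1
      · exact fun _ _ _ _ h => Prod.ext (Prod.ext_iff.1 h).2 (Prod.ext_iff.1 h).1)
    (by
      have h1 : CH (glue p p ρ ρ) (fun w => kap w.2) (fun w => z w.2) = CH p kap z := m2.CH kap z
      rw [h1]
      exact hk)
    (fun w hw => hnu _ (m2.pos hg hw))
    (by
      have h1 : CH (glue p p ρ ρ) (fun w => Y w.2) (fun w => (n w.2, (kap w.2, z w.2))) =
          CH p Y (fun ω => (n ω, (kap ω, z ω))) := m2.CH Y (fun ω => (n ω, (kap ω, z ω)))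
      rw [h1]
      exact hfull)
  have f2' : CH (glue p p ρ ρ) (fun w => Y w.2) (fun w => (n w.2, (kap w.2, (z w.1, z w.2)))) =
      CH (glue p p ρ ρ) (fun w => Y w.1) (fun w => (n w.2, (kap w.2, (z w.1, z w.2)))) := by
    refine CH_congr hg ?_ ?_ (fun _ _ _ _ h => h) (fun _ _ _ _ h => h)
    · intro w w' a b h
      have h2 : Y w.2 = Y w'.2 := (Prod.ext_iff.1 h).1
      show Y w.1 = Y w'.1
      rw [hYe w a, hYe w' b, h2]
    · intro w w' a b h
      have h2 : Y w.1 = Y w'.1 := (Prod.ext_iff.1 h).1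
      show Y w.2 = Y w'.2
      rw [← hYe w a, ← hYe w' b, h2]
  rw [f2'] at f2
  have main := hD (Ω × Ω) (Γ × Γ) (glue p p ρ ρ) X A b s u (fun w => (z w.1, z w.2))
    (fun w => Y w.1) (fun w => n w.1) (fun w => n w.2) (fun w => nu w.1) (fun w => kap w.1)
    (fun w => kap w.2) θ' C₀ η hgl hu (by rw [hθ']; linarith) hC₀ hX
    (fun w hw => hY _ (m1.pos hg hw)) (fun w hw => hdeg _ (m1.pos hg hw))
    (fun w hw => hdeg _ (m2.pos hg hw)) (fun w hw => hcf _ (m1.pos hg hw))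
    (fun w hw => hcf _ (m2.pos hg hw)) (fun w hw => hnu _ (m1.pos hg hw))
    (fun w hw => by
      rw [hYe w hw, hne w hw]
      exact hnu _ (m2.pos hg hw))
    (by
      have h1 : CH (glue p p ρ ρ) (fun w => kap w.2) (fun w => (z w.1, z w.2)) ≤
          CH (glue p p ρ ρ) (fun w => kap w.2) (fun w => z w.2) :=
        CH_mono_cond hg fun _ _ _ _ h => (Prod.ext_iff.1 h).2
      have h2 : CH (glue p p ρ ρ) (fun w => kap w.2) (fun w => z w.2) = CH p kap z := m2.CH kap z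
      rw [hθ']
      linarith)
    (by rw [hθ', hℓ]; linarith) (by rw [hθ', hℓ]; linarith)
    (by
      have h1 : CH (glue p p ρ ρ) (fun w => nu w.1) (fun w => (Y w.1, (z w.1, z w.2))) ≤
          CH (glue p p ρ ρ) (fun w => nu w.1) (fun w => (Y w.1, z w.1)) :=
        CH_mono_cond hg fun _ _ _ _ h =>
          Prod.ext (Prod.ext_iff.1 h).1 (Prod.ext_iff.1 (Prod.ext_iff.1 h).2).1
      have h2 : CH (glue p p ρ ρ) (fun w => nu w.1) (fun w => (Y w.1, z w.1)) =
          CH p nu (fun ω => (Y ω, z ω)) := m1.CH nu (fun ω => (Y ω, z ω))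
      linarith)
    (by
      refine le_trans ?_ hsz
      have hu0 : (0 : ℝ) < u := by exact_mod_cast hu
      have c1 : θ' + 1 ≤ 9 * (θ + δ + 1 + Real.log (C₀ + 1)) := by
        rw [hθ']
        linarith
      have c2 : D * (s + b + u + A + 1 + θ' + Real.log (C₀ + 1)) ≤
          10 * D * (s + b + u + A + 1 + θ + δ + Real.log (C₀ + 1)) := by
        rw [mul_comm (10 : ℝ) D, mul_assoc]
        refine mul_le_mul_of_nonneg_left ?_ hD0
        have h0 : (0 : ℝ) ≤ s + b + u + A := by positivity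
        linarith
      have c3 : D * (X * (θ' + A + 1) / u) ≤
          10 * D * (X * (θ + δ + A + 1 + Real.log (C₀ + 1)) / u) := by
        rw [mul_comm (10 : ℝ) D, mul_assoc]
        refine mul_le_mul_of_nonneg_left ?_ hD0
        rw [← mul_div_assoc]
        refine div_le_div_of_nonneg_right ?_ hu0.le
        have hX0 : (0 : ℝ) ≤ X := Nat.cast_nonneg _
        have hA0 : (0 : ℝ) ≤ A := Nat.cast_nonneg _
        have h1 : θ' + A + 1 ≤ 10 * (θ + δ + A + 1 + Real.log (C₀ + 1)) := by linarith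
        have := mul_le_mul_of_nonneg_left h1 hX0
        linarith
      linarith)
  obtain ⟨Fs, hFs⟩ := sel_pb hp0 hp.sum_one ρ (fun ω ω' => Lg s (kap ω - kap ω'))
  exact ⟨Fs, hFs.trans main⟩

end Pool.TIE
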